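import Pool.Agent.SY.Defs

/-!
# Definitions for the block EV (evaluation of the extension variables in an infinite model)

`X` is the finite universe of the propositional formulas, `M` the infinite model, `A` a subset of `X`, and the
'worlds' are the injections `f : X ↪ M`.
-/

set_option autoImplicit false

namespace Pool.Agent.SymEF

open Equiv

variable {X M : Type}

/-- `g` and `h` agree outside of `A` and on `D`. -/
def AgreeOn (A D : Finset X) (g h : X ↪ M) : Prop := ∀ x, x ∉ A ∨ x ∈ D → g x = h x

/-- `t` fixes all points outside of `A` and all points of `D`. -/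
def Fixes (A D : Finset X) (t : Perm X) : Prop := ∀ x, x ∉ A ∨ x ∈ D → t x = x

/-- The world `f ∘ t`. -/
def comp (f : X ↪ M) (t : Perm X) : X ↪ M := t.toEmbedding.trans f

/-- The literal `l` is true in the world `f`, for the evaluation `val` of the variables. -/
def LitTrue {W : Type} (val : W → (X ↪ M) → Prop) (l : W × Bool) (f : X ↪ M) : Prop := (val l.1 f ↔ l.2 = true)

/-- The evaluation of the atoms over `X` in the world `f`, by the structure `I` on `M`. -/
def base {R : Type} {ar : R → ℕ} (I : Atom ar M → Prop) (v : Atom ar X) (f : X ↪ M) : Prop := I ⟨v.1, f ∘ v.2⟩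

/-- The set `D` supports the set `C` of literals, compatibly with the evaluation: every even permutation `t` which fixes the
points outside of `A` and those of `D` is realised by a map of literals which preserves `C`. -/
def Compat {W : Type} [Fintype X] [DecidableEq X] (A D : Finset X) (val : W → (X ↪ M) → Prop) (C : Set (W × Bool)) :
    Prop :=
  ∀ t ∈ alternatingGroup X, Fixes A D t → ∃ r : W × Bool → W × Bool,
    ∀ l ∈ C, r l ∈ C ∧ ∀ f, LitTrue val (r l) f ↔ LitTrue val l (comp f t)

/-- The clause `C` is true in all worlds, for the restrictions of the worlds to the complement of `A` and `D`. -/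
def Tr {W : Type} (A D : Finset X) (val : W → (X ↪ M) → Prop) (C : Set (W × Bool)) : Prop :=
  ∀ f, ∃ l ∈ C, ∃ g, AgreeOn A D g f ∧ LitTrue val l g

/-- `val` is the evaluation of the variables and extension variables: the extension variable `e` with the definition
`⋁ dfn e` is true in the world `f` iff there is a world `g` which agrees with `f` outside of `A` and on `Δ e`, in which a
literal of `dfn e` is true. -/
structure IsVal {V E : Type} (A : Finset X) (dfn : E → Set ((V ⊕ E) × Bool)) (b : V → (X ↪ M) → Prop)
    (Δ : E → Finset X) (val : V ⊕ E → (X ↪ M) → Prop) : Prop where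
  inl : ∀ v f, val (Sum.inl v) f ↔ b v f
  inr : ∀ e f, val (Sum.inr e) f ↔ ∃ l ∈ dfn e, ∃ g, AgreeOn A (Δ e) g f ∧ LitTrue val l g

/-- `(g, r)` is a symmetry of the refutation `p`. -/
def Refutation.Pair {V : Type} {F : Set (Set (V × Bool))} (p : Refutation F) (g : Perm V) (r : Perm p.E) : Prop :=
  (∀ e, p.dfn (r e) = ren g r '' p.dfn e) ∧ ∀ C ∈ p.lines, ren g r '' C ∈ p.lines

/-- `D` supports the extension variable `e`: every even permutation which fixes the points outside of `A` and those of `D`
is part of a symmetry of `p` which fixes `e`. -/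
def SuppE {R : Type} {ar : R → ℕ} {P : List (Schema ar)} [Fintype X] [DecidableEq X] (p : Refutation (ground P X))
    (A D : Finset X) (e : p.E) : Prop :=
  ∀ t ∈ alternatingGroup X, Fixes A D t → ∃ r, p.Pair (Atom.perm ar t) r ∧ r e = e

/-- `D` supports the line `C`. -/
def SuppL {R : Type} {ar : R → ℕ} {P : List (Schema ar)} [Fintype X] [DecidableEq X] (p : Refutation (ground P X))
    (A D : Finset X) (C : Set ((Atom ar X ⊕ p.E) × Bool)) : Prop :=
  ∀ t ∈ alternatingGroup X, Fixes A D t → ∃ r, p.Pair (Atom.perm ar t) r ∧ ren (Atom.perm ar t) r '' C = C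

/-- The permutation of the atoms given by a product of permutations. -/
theorem Atom.perm_mul {R : Type} {ar : R → ℕ} (s t : Perm X) :
    Atom.perm ar (s * t) = Atom.perm ar s * Atom.perm ar t := by
  ext1 a
  rfl

theorem Atom.perm_one {R : Type} {ar : R → ℕ} : Atom.perm ar (1 : Perm X) = 1 := by
  ext1 a
  rfl

theorem Atom.perm_inv {R : Type} {ar : R → ℕ} (t : Perm X) : Atom.perm ar t⁻¹ = (Atom.perm ar t)⁻¹ := by
  ext1 a
  rfl

theorem base_perm {R : Type} {ar : R → ℕ} (I : Atom ar M → Prop) (t : Perm X) (v : Atom ar X) (f : X ↪ M) :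
    base I (Atom.perm ar t v) f ↔ base I v (comp f t) := Iff.rfl

theorem comp_apply (f : X ↪ M) (t : Perm X) (x : X) : comp f t x = f (t x) := rfl

theorem AgreeOn.refl (A D : Finset X) (f : X ↪ M) : AgreeOn A D f f := fun _ _ => rfl

theorem AgreeOn.symm {A D : Finset X} {f g : X ↪ M} (h : AgreeOn A D f g) : AgreeOn A D g f := fun x hx => (h x hx).symm

theorem AgreeOn.trans {A D : Finset X} {f g h : X ↪ M} (h₁ : AgreeOn A D f g) (h₂ : AgreeOn A D g h) :
    AgreeOn A D f h := fun x hx => (h₁ x hx).trans (h₂ x hx)

theorem AgreeOn.mono {A D D' : Finset X} (hD : D ⊆ D') {f g : X ↪ M} (h : AgreeOn A D' f g) : AgreeOn A D f g :=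
  fun x hx => h x (hx.imp id fun hx => hD hx)

theorem Fixes.mono {A D D' : Finset X} (hD : D ⊆ D') {t : Perm X} (h : Fixes A D' t) : Fixes A D t :=
  fun x hx => h x (hx.imp id fun hx => hD hx)

end Pool.Agent.SymEF
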