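import Pool.Agent.SY.UPa
import Pool.Agent.SY.EVDefs

/-!
# TASK Cl (the closure of a refutation under a group)

PROOF. `q.E := G × p.E` (`G` as a type). For `g ∈ G` let `τ g : (Atom ar X ⊕ p.E) × Bool → (Atom ar X ⊕ (G × p.E)) × Bool` map
`(inl a, s)` to `(inl (Atom.perm ar g a), s)` and `(inr e, s)` to `(inr (g, e), s)`: an injective map with `τ g (ng l) = ng (τ g l)`. Put
`dfn (g, e) := τ g '' p.dfn e`, `rank (g, e) := p.rank e`, `lines := ⋃ g, (τ g '' ·) '' p.lines = {C' | ∃ g, ∃ C ∈ p.lines, C' = τ g '' C}`,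
`time C' := sInf {t | ∃ g, ∃ C ∈ p.lines, C' = τ g '' C ∧ p.time C = t}`.
`finL`: a finite union of images of a finite set. `empty_mem`: `τ 1 '' ∅ = ∅`.
`ok`: for a line `C'` choose `g`, `C ∈ p.lines` with `C' = τ g '' C` and `p.time C = time C'` (`Nat.sInf_mem`). If `C` is an axiom then so is `C'`: the
image of a clause of `ground P X` (as a clause over `inl`) is the image of the clause renamed by `g`, again in `ground P X` (`ground_perm`); the
two other kinds are clear (`Set.image_insert_eq`, `Set.image_pair`, `τ g` commutes with `ng`). If `C` is derived from `A` by cuts: `A' := τ g '' A` is a line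
with `time A' ≤ p.time A < p.time C = time C'` (`Nat.sInf_le`), every `l' ∈ A'` with `l' ∉ C'` is `τ g l` with `l ∈ A`, `l ∉ C`, and
`insert (ng l') C' = τ g '' insert (ng l) C` is a line of time `≤ p.time (insert (ng l) C) < time C'`.
`Sym`: for `h ∈ G` let `r (g, e) := (h * g, e)`, a permutation of `G × p.E`. `ren (Atom.perm ar h) r ∘ τ g = τ (h * g)`. So `dfn (r (g, e)) = ren .. '' dfn (g, e)` and
lines are mapped to lines.
Size: `Nat.card (G × p.E) = |G| * |p.E|` (`Nat.card_prod`), and the number of lines is at most `|G| * p.lines.ncard` (the set of lines is the image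
of the finite set `univ ×ˢ p.lines` under `(g, C) ↦ τ g '' C`).
-/

set_option autoImplicit false

namespace Pool.Agent.SymEF

open Equiv

/-- The copy `g` of the literals of a refutation. -/
private def Cl_tau {V H E : Type} (π : H → Perm V) (g : H) (l : (V ⊕ E) × Bool) : (V ⊕ (H × E)) × Bool :=
  (Sum.map (π g) (fun e => (g, e)) l.1, l.2)

private theorem Cl_tau_inj {V H E : Type} (π : H → Perm V) (g : H) :
    Function.Injective (Cl_tau (E := E) π g) := by
  rintro ⟨a, s⟩ ⟨b, t⟩ h
  have h1 := congrArg Prod.fst h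
  have h2 : s = t := congrArg Prod.snd h
  have h3 : Function.Injective (Sum.map (π g) (fun e : E => (g, e))) :=
    Sum.map_injective.2 ⟨(π g).injective, fun e e' he => (Prod.ext_iff.1 he).2⟩
  have h4 : a = b := h3 h1
  rw [h4, h2]

private theorem Cl_tau_ng {V H E : Type} (π : H → Perm V) (g : H) (l : (V ⊕ E) × Bool) :
    Cl_tau π g (ng l) = ng (Cl_tau π g l) := rfl

private theorem Cl_general {V H : Type} [Group H] [Finite H] {F : Set (Set (V × Bool))} (π : H → Perm V)
    (hπ : ∀ g h, π (g * h) = π g * π h)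
    (hF : ∀ g, ∀ D ∈ F, (fun l : V × Bool => (π g l.1, l.2)) '' D ∈ F) (p : Refutation F) :
    ∃ q : Refutation F, (∀ g, q.Sym (π g)) ∧ q.size ≤ Nat.card H * p.size := by
  classical
  have hfinE : Finite p.E := p.finE
  let L : Set (Set ((V ⊕ (H × p.E)) × Bool)) := {C' | ∃ g, ∃ C ∈ p.lines, C' = Cl_tau π g '' C}
  let tm : Set ((V ⊕ (H × p.E)) × Bool) → ℕ :=
    fun C' => sInf {t | ∃ g, ∃ C ∈ p.lines, C' = Cl_tau π g '' C ∧ p.time C = t}
  have hL : L = (fun x : H × Set ((V ⊕ p.E) × Bool) => Cl_tau π x.1 '' x.2) '' (Set.univ ×ˢ p.lines) := by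
    ext C'
    constructor
    · rintro ⟨g, C, hC, rfl⟩
      exact ⟨(g, C), ⟨Set.mem_univ _, hC⟩, rfl⟩
    · rintro ⟨⟨g, C⟩, ⟨-, hC⟩, rfl⟩
      exact ⟨g, C, hC, rfl⟩
  have hfinP : ((Set.univ : Set H) ×ˢ p.lines).Finite := Set.finite_univ.prod p.finL
  have hLfin : L.Finite := by
    rw [hL]
    exact hfinP.image _
  have htm : ∀ g, ∀ C ∈ p.lines, tm (Cl_tau π g '' C) ≤ p.time C := fun g C hC =>
    Nat.sInf_le ⟨g, C, hC, rfl, rfl⟩
  have hex : ∀ C' ∈ L, ∃ g, ∃ C ∈ p.lines, C' = Cl_tau π g '' C ∧ p.time C = tm C' := by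
    rintro C' ⟨g, C, hC, rfl⟩
    exact Nat.sInf_mem (s := {t | ∃ g', ∃ C₁ ∈ p.lines, Cl_tau π g '' C = Cl_tau π g' '' C₁ ∧ p.time C₁ = t})
      ⟨p.time C, g, C, hC, rfl, rfl⟩
  have hmemimg : ∀ (g : H) (A : Set ((V ⊕ p.E) × Bool)) (l : (V ⊕ p.E) × Bool),
      Cl_tau π g l ∈ Cl_tau π g '' A ↔ l ∈ A := fun g A l => (Cl_tau_inj π g).mem_set_image
  let q : Refutation F :=
    { E := H × p.E
      finE := Finite.instProd
      dfn := fun x => Cl_tau π x.1 '' p.dfn x.2
      rank := fun x => p.rank x.2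
      rank_lt := by
        rintro ⟨g, e⟩ ⟨g', e'⟩ s h
        obtain ⟨⟨a, t⟩, ha, hat⟩ := h
        rcases a with v | e1
        · have := congrArg Prod.fst hat
          simp [Cl_tau] at this
        · have h1 := congrArg Prod.fst hat
          simp only [Cl_tau, Sum.map_inr, Sum.inr.injEq, Prod.mk.injEq] at h1
          have h2 : e1 = e' := h1.2
          subst h2
          exact p.rank_lt e e1 t ha
      lines := L
      finL := hLfin
      time := tm
      ok := by
        intro C' hC'
        obtain ⟨g, C, hC, hCC, ht⟩ := hex C' hC'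
        rcases p.ok C hC with hax | ⟨A, hA, hAt, hl⟩
        · left
          rcases hax with ⟨D, hD, hDC⟩ | ⟨e, he⟩ | ⟨e, l, hl, he⟩
          · left
            refine ⟨_, hF g D hD, ?_⟩
            rw [hCC, hDC, Set.image_image, Set.image_image]
            rfl
          · right
            left
            refine ⟨(g, e), ?_⟩
            rw [hCC, he, Set.image_insert_eq]
            rfl
          · right
            right
            refine ⟨(g, e), Cl_tau π g l, ⟨l, hl, rfl⟩, ?_⟩
            rw [hCC, he, Set.image_pair]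
            rfl
        · right
          refine ⟨Cl_tau π g '' A, ⟨g, A, hA, rfl⟩, ?_, ?_⟩
          · rw [← ht]
            exact (htm g A hA).trans_lt hAt
          · rintro l' ⟨l, hlA, rfl⟩ hl'
            have hlC : l ∉ C := by
              intro h
              apply hl'
              rw [hCC]
              exact ⟨l, h, rfl⟩
            obtain ⟨h1, h2⟩ := hl l hlA hlC
            have h3 : insert (ng (Cl_tau π g l)) C' = Cl_tau π g '' insert (ng l) C := by
              rw [Set.image_insert_eq, hCC]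
              rfl
            rw [h3]
            refine ⟨⟨g, _, h1, rfl⟩, ?_⟩
            rw [← ht]
            exact (htm g _ h1).trans_lt h2
      empty_mem := ⟨1, ∅, p.empty_mem, (Set.image_empty _).symm⟩ }
  refine ⟨q, ?_, ?_⟩
  · intro h
    let r : Perm (H × p.E) := (Equiv.mulLeft h).prodCongr (Equiv.refl _)
    have hcomp : ∀ (g : H) (l : (V ⊕ p.E) × Bool), ren (π h) r (Cl_tau π g l) = Cl_tau π (h * g) l := by
      rintro g ⟨a, s⟩
      rcases a with v | e
      · show ((Sum.inl (π h (π g v)) : V ⊕ (H × p.E)), s) = (Sum.inl (π (h * g) v), s)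
        rw [hπ]
        rfl
      · rfl
    have himg : ∀ (g : H) (A : Set ((V ⊕ p.E) × Bool)), ren (π h) r '' (Cl_tau π g '' A) = Cl_tau π (h * g) '' A := by
      intro g A
      rw [Set.image_image]
      exact Set.image_congr fun l _ => hcomp g l
    refine ⟨r, ?_, ?_⟩
    · rintro ⟨g, e⟩
      exact (himg g (p.dfn e)).symm
    · rintro C' ⟨g, C, hC, rfl⟩
      exact ⟨h * g, C, hC, himg g C⟩
  · have h1 : Nat.card (H × p.E) = Nat.card H * Nat.card p.E := Nat.card_prod _ _
    have h2 : L.ncard ≤ Nat.card H * p.lines.ncard := by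
      rw [hL]
      refine (Set.ncard_image_le hfinP).trans ?_
      rw [Set.ncard_prod, Set.ncard_univ]
    show Nat.card (H × p.E) + L.ncard ≤ Nat.card H * (Nat.card p.E + p.lines.ncard)
    rw [h1, mul_add]
    exact Nat.add_le_add_left h2 _

theorem orbit_closure {R X : Type} {ar : R → ℕ} {P : List (Schema ar)} (G : Subgroup (Perm X)) [Finite G]
    (p : Refutation (ground P X)) :
    ∃ q : Refutation (ground P X), (∀ g ∈ G, q.Sym (Atom.perm ar g)) ∧ q.size ≤ Nat.card G * p.size := by
  obtain ⟨q, h1, h2⟩ := Cl_general (H := G) (fun g => Atom.perm ar (g : Perm X))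
    (fun g h => Atom.perm_mul (ar := ar) (g : Perm X) (h : Perm X)) (fun g D hD => ground_perm P X (g : Perm X) D hD) p
  exact ⟨q, fun g hg => h1 ⟨g, hg⟩, h2⟩

end Pool.Agent.SymEF
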