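import Mathlib

/-!
# Symmetric extended Frege refutations of first-order principles: definitions

Propositional literals are pairs `(x, s)` of a variable and a sign; clauses are sets of literals. First-order
principles are finite lists of sentences `∀ x₀ ... x_{k-1} (⋁ literals ∨ ∃ y ⋁ literals)`.
-/

set_option autoImplicit false

namespace Pool.Agent.SymEF

/-- The negation of a literal; `(x, true)` is the variable `x`, `(x, false)` is its negation. -/
def ng {W : Type} (l : W × Bool) : W × Bool := (l.1, !l.2)

/-- The renaming of literals over the variables `V` and the extension variables `E`, given by a permutation of `V` and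
a permutation of `E`. -/
def ren {V E : Type} (g : Equiv.Perm V) (r : Equiv.Perm E) (l : (V ⊕ E) × Bool) : (V ⊕ E) × Bool :=
  (Sum.map g r l.1, l.2)

/-- The axioms of a refutation of the set `F` of clauses: the clauses of `F`, and for each extension variable `e`, defined
as the disjunction of the literals in `dfn e`, the clauses `not e or (the literals of dfn e)` and `e or not l` for the
literals `l` of `dfn e`. -/
def IsAxiom {V E : Type} (F : Set (Set (V × Bool))) (dfn : E → Set ((V ⊕ E) × Bool)) (C : Set ((V ⊕ E) × Bool)) : Prop :=
  (∃ D ∈ F, C = (fun l : V × Bool => ((Sum.inl l.1 : V ⊕ E), l.2)) '' D) ∨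
  (∃ e, C = insert ((Sum.inr e : V ⊕ E), false) (dfn e)) ∨
  (∃ e, ∃ l ∈ dfn e, C = {((Sum.inr e : V ⊕ E), true), ng l})

/-- An extended Frege refutation (extended resolution with connectives of unbounded arity) of the set `F` of clauses over
the variables `V`. -/
structure Refutation {V : Type} (F : Set (Set (V × Bool))) where
  /-- the extension variables -/
  E : Type
  finE : Finite E
  /-- the extension variable `e` is defined as the disjunction of the literals in `dfn e` -/
  dfn : E → Set ((V ⊕ E) × Bool)
  /-- the definitions are not circular -/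
  rank : E → ℕ
  rank_lt : ∀ e e' s, ((Sum.inr e' : V ⊕ E), s) ∈ dfn e → rank e' < rank e
  /-- the lines of the refutation, a finite set of clauses -/
  lines : Set (Set ((V ⊕ E) × Bool))
  finL : lines.Finite
  /-- the order of derivation -/
  time : Set ((V ⊕ E) × Bool) → ℕ
  /-- every line `C` is an axiom, or it is derived by cuts from an earlier line `A` and, for every literal `l` of `A`
  which does not occur in `C`, the earlier line `C or not l` -/
  ok : ∀ C ∈ lines, IsAxiom F dfn C ∨
    ∃ A ∈ lines, time A < time C ∧ ∀ l ∈ A, l ∉ C → insert (ng l) C ∈ lines ∧ time (insert (ng l) C) < time C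
  /-- the empty clause is derived -/
  empty_mem : ∅ ∈ lines

/-- The size of a refutation: the number of its lines and extension variables. -/
noncomputable def Refutation.size {V : Type} {F : Set (Set (V × Bool))} (p : Refutation F) : ℕ :=
  Nat.card p.E + p.lines.ncard

/-- The refutation is symmetric under the permutation `g` of the variables: `g` extends to the extension variables such
that definitions and lines are mapped to definitions and lines. -/
def Refutation.Sym {V : Type} {F : Set (Set (V × Bool))} (p : Refutation F) (g : Equiv.Perm V) : Prop :=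
  ∃ r : Equiv.Perm p.E, (∀ e, p.dfn (r e) = ren g r '' p.dfn e) ∧ ∀ C ∈ p.lines, ren g r '' C ∈ p.lines

variable {R : Type} {ar : R → ℕ}

/-- The atoms over the universe `X`: a relation symbol `r` of arity `ar r` and its arguments. -/
def Atom (ar : R → ℕ) (X : Type) : Type := Σ r : R, (Fin (ar r) → X)

/-- The literals of first-order logic in `k` variables: relations and equalities with a sign. -/
inductive FLit (ar : R → ℕ) (k : ℕ) : Type
  | rel (s : Bool) (r : R) (args : Fin (ar r) → Fin k)
  | eq (s : Bool) (i j : Fin k)

/-- The truth of a literal in the structure `I` on `M` for the values `v` of the variables. -/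
def FLit.Holds {k : ℕ} {M : Type} (I : Atom ar M → Prop) (v : Fin k → M) : FLit ar k → Prop
  | .rel s r args => (I ⟨r, v ∘ args⟩ ↔ s = true)
  | .eq s i j => (v i = v j ↔ s = true)

/-- The sentence `∀ x₀ ... x_{k-1} (⋁ nar ∨ ∃ y ⋁ wid)`; in `wid` the variable `y` has the number `k`. -/
structure Schema (ar : R → ℕ) : Type where
  k : ℕ
  nar : List (FLit ar k)
  wid : List (FLit ar (k + 1))

/-- The values `v` of `x₀, ..., x_{k-1}` and `y` of the last variable. -/
def ext {k : ℕ} {M : Type} (v : Fin k → M) (y : M) : Fin (k + 1) → M := Fin.snoc (α := fun _ => M) v y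

/-- The sentence is true in the structure `I` on `M`. -/
def Schema.Holds {M : Type} (I : Atom ar M → Prop) (S : Schema ar) : Prop :=
  ∀ v : Fin S.k → M, (∃ l ∈ S.nar, l.Holds I v) ∨ ∃ y : M, ∃ l ∈ S.wid, l.Holds I (ext v y)

/-- The list `P` of sentences has an infinite model. -/
def HasInfiniteModel (P : List (Schema ar)) : Prop :=
  ∃ (M : Type) (_ : Infinite M) (I : Atom ar M → Prop), ∀ S ∈ P, S.Holds I

/-- The propositional clause which says that the sentence holds over the universe `X` at `v`: the literals of `nar` and the
literals of `wid` for all values of `y` (the equalities, which have a truth value, are left out). -/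
def Schema.clause {X : Type} (S : Schema ar) (v : Fin S.k → X) : Set (Atom ar X × Bool) :=
  {l | ∃ s r args, FLit.rel s r args ∈ S.nar ∧ l = (⟨r, v ∘ args⟩, s)} ∪
  {l | ∃ y s r args, FLit.rel s r args ∈ S.wid ∧ l = (⟨r, ext v y ∘ args⟩, s)}

/-- One of the equalities in the sentence is true over the universe `X` at `v`. -/
def Schema.Trivial {X : Type} (S : Schema ar) (v : Fin S.k → X) : Prop :=
  (∃ s i j, FLit.eq s i j ∈ S.nar ∧ (v i = v j ↔ s = true)) ∨
  (∃ y s i j, FLit.eq s i j ∈ S.wid ∧ (ext v y i = ext v y j ↔ s = true))

/-- The set of clauses `P_X`, which says that `P` has a model with universe `X`. -/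
def ground (P : List (Schema ar)) (X : Type) : Set (Set (Atom ar X × Bool)) :=
  {C | ∃ S ∈ P, ∃ v : Fin S.k → X, ¬ S.Trivial v ∧ C = S.clause v}

/-- The permutation of the atoms given by a permutation of the universe. -/
def Atom.perm {X : Type} (ar : R → ℕ) (g : Equiv.Perm X) : Equiv.Perm (Atom ar X) where
  toFun a := ⟨a.1, g ∘ a.2⟩
  invFun a := ⟨a.1, g.symm ∘ a.2⟩
  left_inv a := Sigma.ext rfl (heq_of_eq (funext fun i => g.symm_apply_apply (a.2 i)))
  right_inv a := Sigma.ext rfl (heq_of_eq (funext fun i => g.apply_symm_apply (a.2 i)))

end Pool.Agent.SymEF
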