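import Pool.Agent.SY.EVDefs

/-!
# TASK EV1 (existence of the evaluation; easy)

PROOF. Define by recursion on `n` functions `val n : V ⊕ E → (X ↪ M) → Prop`:
`val n (inl v) f := b v f`, `val 0 (inr e) f := False`, `val (n+1) (inr e) f := ∃ l ∈ dfn e, ∃ g, AgreeOn A (Δ e) g f ∧
LitTrue (val n) l g`. By induction on `n`: for `rank e < n` and `n ≤ m`: `val n (inr e) f ↔ val m (inr e) f` (the literals of `dfn e`
are `inl v`, or `inr e'` with `rank e' < rank e`). Put `val w f := val (rank + 1) w f`, i.e. `val (inl v) f := b v f`,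
`val (inr e) f := val (rank e + 1) (inr e) f`. (Or use `WellFounded.fix` for the relation `rank e' < rank e`.)
-/

set_option autoImplicit false

namespace Pool.Agent.SymEF

open Equiv

/-- one step of the recursion -/
private def EV1_step {X M V E : Type} (A : Finset X) (dfn : E → Set ((V ⊕ E) × Bool))
    (b : V → (X ↪ M) → Prop) (Δ : E → Finset X) (W : V ⊕ E → (X ↪ M) → Prop) :
    V ⊕ E → (X ↪ M) → Prop
  | Sum.inl v, f => b v f
  | Sum.inr e, f => ∃ l ∈ dfn e, ∃ g, AgreeOn A (Δ e) g f ∧ LitTrue W l g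

/-- the approximations -/
private def EV1_val {X M V E : Type} (A : Finset X) (dfn : E → Set ((V ⊕ E) × Bool))
    (b : V → (X ↪ M) → Prop) (Δ : E → Finset X) : ℕ → V ⊕ E → (X ↪ M) → Prop
  | 0 => EV1_step A (fun _ => ∅) b Δ (fun _ _ => False)
  | n + 1 => EV1_step A dfn b Δ (EV1_val A dfn b Δ n)

private theorem EV1_inl {X M V E : Type} (A : Finset X) (dfn : E → Set ((V ⊕ E) × Bool))
    (b : V → (X ↪ M) → Prop) (Δ : E → Finset X) (n : ℕ) (v : V) (f : X ↪ M) :
    EV1_val A dfn b Δ n (Sum.inl v) f ↔ b v f := by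
  cases n <;> exact Iff.rfl

private theorem EV1_stable {X M V E : Type} (A : Finset X) (dfn : E → Set ((V ⊕ E) × Bool))
    (rank : E → ℕ) (hr : ∀ e e' s, ((Sum.inr e' : V ⊕ E), s) ∈ dfn e → rank e' < rank e)
    (b : V → (X ↪ M) → Prop) (Δ : E → Finset X) (n : ℕ) :
    ∀ m, n ≤ m → ∀ e, rank e < n → ∀ f,
      (EV1_val A dfn b Δ n (Sum.inr e) f ↔ EV1_val A dfn b Δ m (Sum.inr e) f) := by
  induction n with
  | zero => intro m _ e he; exact absurd he (Nat.not_lt_zero _)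
  | succ n ih =>
    intro m hm e he f
    obtain ⟨m, rfl⟩ : ∃ m', m = m' + 1 := ⟨m - 1, by omega⟩
    have key : ∀ l ∈ dfn e, ∀ g, (LitTrue (EV1_val A dfn b Δ n) l g ↔
        LitTrue (EV1_val A dfn b Δ m) l g) := by
      rintro ⟨v | e', s⟩ hl g
      · show (EV1_val A dfn b Δ n (Sum.inl v) g ↔ s = true) ↔
          (EV1_val A dfn b Δ m (Sum.inl v) g ↔ s = true)
        rw [EV1_inl, EV1_inl]
      · show (EV1_val A dfn b Δ n (Sum.inr e') g ↔ s = true) ↔
          (EV1_val A dfn b Δ m (Sum.inr e') g ↔ s = true)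
        rw [ih m (by omega) e' (by have := hr e e' s hl; omega) g]
    constructor
    · rintro ⟨l, hl, g, hg, ht⟩
      exact ⟨l, hl, g, hg, (key l hl g).1 ht⟩
    · rintro ⟨l, hl, g, hg, ht⟩
      exact ⟨l, hl, g, hg, (key l hl g).2 ht⟩

theorem exists_val {X M V E : Type} (A : Finset X) (dfn : E → Set ((V ⊕ E) × Bool)) (rank : E → ℕ)
    (hr : ∀ e e' s, ((Sum.inr e' : V ⊕ E), s) ∈ dfn e → rank e' < rank e) (b : V → (X ↪ M) → Prop)
    (Δ : E → Finset X) : ∃ val : V ⊕ E → (X ↪ M) → Prop, IsVal A dfn b Δ val := by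
  let val : V ⊕ E → (X ↪ M) → Prop :=
    Sum.elim b (fun e => EV1_val A dfn b Δ (rank e + 1) (Sum.inr e))
  have key : ∀ e, ∀ l ∈ dfn e, ∀ g, (LitTrue (EV1_val A dfn b Δ (rank e)) l g ↔ LitTrue val l g) := by
    rintro e ⟨v | e', s⟩ hl g
    · show (EV1_val A dfn b Δ (rank e) (Sum.inl v) g ↔ s = true) ↔ (b v g ↔ s = true)
      rw [EV1_inl]
    · show (EV1_val A dfn b Δ (rank e) (Sum.inr e') g ↔ s = true) ↔
        (EV1_val A dfn b Δ (rank e' + 1) (Sum.inr e') g ↔ s = true)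
      rw [EV1_stable A dfn rank hr b Δ (rank e' + 1) (rank e) (hr e e' s hl) e' (Nat.lt_succ_self _) g]
  refine ⟨val, fun v f => Iff.rfl, fun e f => ?_⟩
  constructor
  · rintro ⟨l, hl, g, hg, ht⟩
    exact ⟨l, hl, g, hg, (key e l hl g).1 ht⟩
  · rintro ⟨l, hl, g, hg, ht⟩
    exact ⟨l, hl, g, hg, (key e l hl g).2 ht⟩

end Pool.Agent.SymEF
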