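import Mathlib

/-!
# TASK EV2 (extension of partial injections and partial permutations; easy)

PROOF of `exists_embedding`. `S ⊆ X` finite, `f` injective on `S`. `M \ f(S)` is infinite (`Set.Finite.infinite_compl`), so there is
an injection `j` of the finite type `X` into it (`Infinite.natEmbedding` composed with `X ≃ Fin n`, or
`Function.Embedding` from a finite into an infinite type: `Function.Embedding.nonempty_of_card_le`-like,
`Set.Infinite.exists_...`). Put `g x = f x` for `x ∈ S`, `g x = j x` otherwise.

PROOF of `exists_even_perm`. `t₀` is injective on `S ⊆ A` with `t₀ '' S ⊆ A`, `|S| + 2 ≤ |A|`. The sets `A \ S` and `A \ t₀(S)` have the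
same number `≥ 2` of elements, so there is a bijection between them (`Finset.equivOfCardEq`), and together with `t₀` on `S`
and the identity outside of `A` we get a permutation `t` of `X` (an injective map of a finite set to itself) with `t x = t₀ x` on
`S` and `t x = x` outside of `A`. If `t` is even, done. If it is odd, take two different `u, v ∈ A \ S` and replace `t` by
`t * swap u v` (it is even, agrees with `t` on `S` and outside of `A`).
-/

set_option autoImplicit false

namespace Pool.Agent.SymEF

open Equiv

theorem exists_embedding {X M : Type} [Fintype X] [DecidableEq X] [Infinite M] (S : Finset X) (f : X → M)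
    (hf : Set.InjOn f S) : ∃ g : X ↪ M, ∀ x ∈ S, g x = f x := by
  classical
  have hinf : Infinite {y : M // y ∉ (S.image f : Finset M)} := by
    have h1 : (((S.image f : Finset M) : Set M)ᶜ).Infinite :=
      (Finset.finite_toSet _).infinite_compl
    exact h1.to_subtype
  let j : X → {y : M // y ∉ (S.image f : Finset M)} := fun x =>
    Infinite.natEmbedding _ ((Fintype.equivFin X x : Fin _) : ℕ)
  have hj : Function.Injective j := by
    intro x y hxy
    have h1 := (Infinite.natEmbedding {y : M // y ∉ (S.image f : Finset M)}).injective hxy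
    exact (Fintype.equivFin X).injective (Fin.ext h1)
  have hj2 : ∀ x y, y ∈ S → ((j x : M)) ≠ f y := by
    intro x y hy he
    apply (j x).2
    rw [he]
    exact Finset.mem_image_of_mem f hy
  refine ⟨⟨fun x => if x ∈ S then f x else (j x : M), ?_⟩, ?_⟩
  · intro x y hxy
    simp only at hxy
    by_cases hx : x ∈ S
    · by_cases hy : y ∈ S
      · rw [if_pos hx, if_pos hy] at hxy
        exact hf hx hy hxy
      · rw [if_pos hx, if_neg hy] at hxy
        exact absurd hxy.symm (hj2 y x hx)
    · by_cases hy : y ∈ S
      · rw [if_neg hx, if_pos hy] at hxy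
        exact absurd hxy (hj2 x y hy)
      · rw [if_neg hx, if_neg hy] at hxy
        exact hj (Subtype.ext hxy)
  · intro x hx
    show (if x ∈ S then f x else (j x : M)) = f x
    rw [if_pos hx]

theorem exists_even_perm {X : Type} [Fintype X] [DecidableEq X] (A S : Finset X) (hS : S ⊆ A) (hc : S.card + 2 ≤ A.card)
    (t₀ : X → X) (ht : Set.InjOn t₀ S) (hA : ∀ x ∈ S, t₀ x ∈ A) :
    ∃ t ∈ alternatingGroup X, (∀ x, x ∉ A → t x = x) ∧ ∀ x ∈ S, t x = t₀ x := by
  classical
  obtain ⟨g, hg⟩ := Finset.exists_equiv_extend_of_card_eq (α := {x // x ∈ A}) (t := A)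
    (by simp) (s := Finset.univ.filter fun a : {x // x ∈ A} => (a : X) ∈ S)
    (f := fun a => t₀ (a : X))
    (by
      intro y hy
      obtain ⟨a, ha, rfl⟩ := Finset.mem_image.1 hy
      exact hA a (Finset.mem_filter.1 ha).2)
    (by
      intro a ha b hb hab
      have ha' : (a : X) ∈ S := by simpa using ha
      have hb' : (b : X) ∈ S := by simpa using hb
      exact Subtype.ext (ht ha' hb' hab))
  let t : Equiv.Perm X := Equiv.Perm.ofSubtype (p := fun x => x ∈ A) g
  have ht1 : ∀ x, x ∉ A → t x = x := fun x hx =>
    Equiv.Perm.ofSubtype_apply_of_not_mem g hx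
  have ht2 : ∀ x ∈ S, t x = t₀ x := by
    intro x hx
    have h1 : t x = ((g ⟨x, hS hx⟩ : {x // x ∈ A}) : X) :=
      Equiv.Perm.ofSubtype_apply_of_mem g (hS hx)
    rw [h1]
    exact hg ⟨x, hS hx⟩ (by simpa using hx)
  rcases Int.units_eq_one_or (Equiv.Perm.sign t) with h1 | h1
  · exact ⟨t, Equiv.Perm.mem_alternatingGroup.2 h1, ht1, ht2⟩
  · have hcard : 1 < (A \ S).card := by
      rw [Finset.card_sdiff_of_subset hS]
      omega
    obtain ⟨u, hu, v, hv, huv⟩ := Finset.one_lt_card.1 hcard
    rw [Finset.mem_sdiff] at hu hv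
    refine ⟨t * Equiv.swap u v, ?_, ?_, ?_⟩
    · rw [Equiv.Perm.mem_alternatingGroup, map_mul, h1, Equiv.Perm.sign_swap huv]
      rfl
    · intro x hx
      have h2 : x ≠ u := by rintro rfl; exact hx hu.1
      have h3 : x ≠ v := by rintro rfl; exact hx hv.1
      rw [Equiv.Perm.mul_apply, Equiv.swap_apply_of_ne_of_ne h2 h3, ht1 x hx]
    · intro x hx
      have h2 : x ≠ u := by rintro rfl; exact hu.2 hx
      have h3 : x ≠ v := by rintro rfl; exact hv.2 hx
      rw [Equiv.Perm.mul_apply, Equiv.swap_apply_of_ne_of_ne h2 h3, ht2 x hx]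

end Pool.Agent.SymEF
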