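import Pool.Agent.SY.EV2
import Pool.Agent.SY.EVDefs

/-!
# TASK EV3 (the move lemma; a little longer)

`g` and `h` are worlds which agree outside of `A` and on `D`. There are an even permutation `t` which fixes the points outside
of `A` and those of `D`, and a world `g'` which agrees with `h` outside of `A` and on `D'`, such that `g' ∘ t` agrees with `g`
outside of `A` and on `T`.

PROOF. Define `t₀` on `T ∪ D`: for `x ∈ D`: `t₀ x = x`; for `x ∈ T \ D` with `g x = h y` for some `y ∈ D'`: `t₀ x = y` (`y` is unique);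
for the other `x ∈ T \ D` (call this set `T₂`, so `g x ∉ h '' D'`): `t₀ x = j x` for an injection `j` of `T₂` into `A \ D'`; it exists since
`|A \ D'| = |A| - |D'| ≥ |T|`. (For `x ∈ D`: `x ∈ D'` and `g x = h x`, so also here `g x = h (t₀ x)`, `t₀ x ∈ D'`.)
`t₀` is injective on `T ∪ D`: for `x, x' ∈ (T ∪ D) \ T₂` with `t₀ x = t₀ x'`: `g x = h (t₀ x) = h (t₀ x') = g x'`, so `x = x'`; on `T₂` it is
`j`; and `t₀` maps `(T ∪ D) \ T₂` into `D'`, `T₂` outside of `D'`. All values are in `A`. `|T ∪ D| + 2 ≤ |D'| + |T| + 2 ≤ |A|`, so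
`exists_even_perm` gives an even `t` with `t = t₀` on `T ∪ D`, `t x = x` outside of `A`. So `Fixes A D t`.
Define `k` on the set `S = {x | x ∉ A} ∪ D' ∪ t₀ '' T₂` by `k x = h x` for `x ∉ A` or `x ∈ D'`, and `k (j x) = g x` for `x ∈ T₂`
(i.e. for the other `y ∈ S`: `k y = g (t⁻¹ y)`). It is injective on `S`: `h` is injective; `g` is injective; and for `x ∈ T₂`, `g x ∉ h '' D'`
by definition and `g x ≠ h y` for `y ∉ A` as `h y = g y` and `x ≠ y` (`x ∈ T ⊆ A`). So `exists_embedding` gives a world `g'` with `g' = k` on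
`S`. `AgreeOn A D' g' h` is clear. For `x ∉ A`: `g' (t x) = g' x = h x = g x`. For `x ∈ T` not in `T₂`: `t x = t₀ x ∈ D'` and
`g' (t x) = h (t₀ x) = g x`. For `x ∈ T₂`: `g' (t x) = k (j x) = g x`.
-/

set_option autoImplicit false

namespace Pool.Agent.SymEF

open Equiv

theorem move {X M : Type} [Fintype X] [DecidableEq X] [Infinite M] (A D D' T : Finset X) (hD : D ⊆ D') (hD' : D' ⊆ A)
    (hT : T ⊆ A) (hc : D'.card + 2 * T.card + 2 ≤ A.card) (g h : X ↪ M) (hgh : AgreeOn A D g h) :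
    ∃ t ∈ alternatingGroup X, Fixes A D t ∧ ∃ g' : X ↪ M, AgreeOn A D' g' h ∧ AgreeOn A T (comp g' t) g := by
  classical
  obtain ⟨T₂, hT₂⟩ : ∃ T₂ : Finset X, ∀ x, x ∈ T₂ ↔ x ∈ T ∧ ¬ ∃ y ∈ D', h y = g x :=
    ⟨T.filter (fun x => ¬ ∃ y ∈ D', h y = g x), fun x => by rw [Finset.mem_filter]⟩
  have hcard : T₂.card ≤ (A \ D').card := by
    have h1 : T₂.card ≤ T.card := Finset.card_le_card fun x hx => ((hT₂ x).1 hx).1
    have h2 : (A \ D').card = A.card - D'.card := Finset.card_sdiff_of_subset hD'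
    omega
  obtain ⟨j⟩ : Nonempty ({x // x ∈ T₂} ↪ {x // x ∈ A \ D'}) :=
    Function.Embedding.nonempty_of_card_le (by rw [Fintype.card_coe, Fintype.card_coe]; exact hcard)
  obtain ⟨t₀, ht₀⟩ : ∃ t₀ : X → X, ∀ x, (∀ y ∈ D', h y = g x → t₀ x = y) ∧
      (∀ hx : x ∈ T₂, t₀ x = (j ⟨x, hx⟩ : X)) := by
    refine ⟨fun x => if hx : ∃ y ∈ D', h y = g x then hx.choose else
      if hx2 : x ∈ T₂ then (j ⟨x, hx2⟩ : X) else x, fun x => ⟨fun y hy hyx => ?_, fun hx => ?_⟩⟩
    · have hex : ∃ y ∈ D', h y = g x := ⟨y, hy, hyx⟩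
      simp only [dif_pos hex]
      exact h.injective (hex.choose_spec.2.trans hyx.symm)
    · have hex : ¬ ∃ y ∈ D', h y = g x := ((hT₂ x).1 hx).2
      simp only [dif_neg hex, dif_pos hx]
  have hcase : ∀ x ∈ T ∪ D, (∃ y ∈ D', h y = g x ∧ t₀ x = y) ∨ ∃ hx : x ∈ T₂, t₀ x = (j ⟨x, hx⟩ : X) := by
    intro x hx
    by_cases hex : ∃ y ∈ D', h y = g x
    · obtain ⟨y, hy, hyx⟩ := hex
      exact Or.inl ⟨y, hy, hyx, (ht₀ x).1 y hy hyx⟩
    · rcases Finset.mem_union.1 hx with hx | hx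
      · have hx2 : x ∈ T₂ := (hT₂ x).2 ⟨hx, hex⟩
        exact Or.inr ⟨hx2, (ht₀ x).2 hx2⟩
      · exact absurd ⟨x, hD hx, (hgh x (Or.inr hx)).symm⟩ hex
  have hjA : ∀ x (hx : x ∈ T₂), (j ⟨x, hx⟩ : X) ∈ A ∧ (j ⟨x, hx⟩ : X) ∉ D' := fun x hx =>
    Finset.mem_sdiff.1 (j ⟨x, hx⟩).2
  have hinj : Set.InjOn t₀ (T ∪ D : Finset X) := by
    intro x hx x' hx' hxx
    rcases hcase x hx with ⟨y, hy, hyx, hty⟩ | ⟨h2, hty⟩ <;>
      rcases hcase x' hx' with ⟨y', hy', hyx', hty'⟩ | ⟨h2', hty'⟩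
    · rw [hty, hty'] at hxx
      subst hxx
      exact g.injective (hyx.symm.trans hyx')
    · rw [hty, hty'] at hxx
      exact absurd (hxx ▸ hy) (hjA x' h2').2
    · rw [hty, hty'] at hxx
      exact absurd (hxx ▸ hy') (hjA x h2).2
    · rw [hty, hty'] at hxx
      have := j.injective (Subtype.ext hxx)
      exact congrArg Subtype.val this
  have hS : T ∪ D ⊆ A := Finset.union_subset hT (hD.trans hD')
  have hSc : (T ∪ D).card + 2 ≤ A.card := by
    have h1 := Finset.card_union_le T D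
    have h2 := Finset.card_le_card hD
    omega
  obtain ⟨t, htA, htout, htS⟩ := exists_even_perm A (T ∪ D) hS hSc t₀ hinj (by
    intro x hx
    rcases hcase x hx with ⟨y, hy, hyx, hty⟩ | ⟨h2, hty⟩
    · rw [hty]; exact hD' hy
    · rw [hty]; exact (hjA x h2).1)
  have hinv : ∀ z, t⁻¹ (t z) = z := fun z => t.symm_apply_apply z
  have htT₂ : ∀ x (hx : x ∈ T₂), t x = (j ⟨x, hx⟩ : X) := fun x hx => by
    rw [htS x (Finset.mem_union_left _ ((hT₂ x).1 hx).1), (ht₀ x).2 hx]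
  refine ⟨t, htA, ?_, ?_⟩
  · rintro x (hx | hx)
    · exact htout x hx
    · rw [htS x (Finset.mem_union_right _ hx)]
      exact (ht₀ x).1 x (hD hx) (hgh x (Or.inr hx)).symm
  · obtain ⟨g', hg'⟩ := exists_embedding (M := M) (Aᶜ ∪ D' ∪ T₂.image t)
      (fun y => if y ∉ A ∨ y ∈ D' then h y else g (t⁻¹ y)) (by
      have hk : ∀ y ∈ Aᶜ ∪ D' ∪ T₂.image t, (y ∉ A ∨ y ∈ D') ∨ ∃ x ∈ T₂, t x = y ∧ y ∈ A ∧ y ∉ D' := by
        intro y hy
        rcases Finset.mem_union.1 hy with hy | hy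
        · rcases Finset.mem_union.1 hy with hy | hy
          · exact Or.inl (Or.inl (Finset.mem_compl.1 hy))
          · exact Or.inl (Or.inr hy)
        · obtain ⟨x, hx, rfl⟩ := Finset.mem_image.1 hy
          refine Or.inr ⟨x, hx, rfl, ?_⟩
          rw [htT₂ x hx]
          exact hjA x hx
      have hmix : ∀ y y' : X, (y ∉ A ∨ y ∈ D') → ∀ x ∈ T₂, t x = y' → h y ≠ g x := by
        rintro y y' (hy | hy) x hx - heq
        · rw [← hgh y (Or.inl hy)] at heq
          exact hy (g.injective heq ▸ hT ((hT₂ x).1 hx).1)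
        · exact ((hT₂ x).1 hx).2 ⟨y, hy, heq⟩
      intro y hy y' hy' hyy
      simp only at hyy
      rcases hk y hy with h1 | ⟨x, hx, hxy, hyA, hyD⟩ <;>
        rcases hk y' hy' with h1' | ⟨x', hx', hxy', hyA', hyD'⟩
      · rw [if_pos h1, if_pos h1'] at hyy
        exact h.injective hyy
      · have h2' : ¬ (y' ∉ A ∨ y' ∈ D') := by tauto
        rw [if_pos h1, if_neg h2', ← hxy', hinv] at hyy
        exact absurd hyy (hmix y y' h1 x' hx' hxy')
      · have h2 : ¬ (y ∉ A ∨ y ∈ D') := by tauto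
        rw [if_neg h2, if_pos h1', ← hxy, hinv] at hyy
        exact absurd hyy.symm (hmix y' y h1' x hx hxy)
      · have h2 : ¬ (y ∉ A ∨ y ∈ D') := by tauto
        have h2' : ¬ (y' ∉ A ∨ y' ∈ D') := by tauto
        rw [if_neg h2, if_neg h2'] at hyy
        exact t⁻¹.injective (g.injective hyy))
    have hg1 : ∀ y, (y ∉ A ∨ y ∈ D') → g' y = h y := by
      intro y hy
      rw [hg' y (by
        rcases hy with hy | hy
        · exact Finset.mem_union_left _ (Finset.mem_union_left _ (Finset.mem_compl.2 hy))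
        · exact Finset.mem_union_left _ (Finset.mem_union_right _ hy)), if_pos hy]
    refine ⟨g', hg1, ?_⟩
    rintro x (hx | hx)
    · rw [comp_apply, htout x hx, hg1 x (Or.inl hx)]
      exact (hgh x (Or.inl hx)).symm
    · rw [comp_apply]
      rcases hcase x (Finset.mem_union_left _ hx) with ⟨y, hy, hyx, hty⟩ | ⟨h2, hty⟩
      · rw [htS x (Finset.mem_union_left _ hx), hty, hg1 y (Or.inr hy), hyx]
      · have hn : ¬ (t x ∉ A ∨ t x ∈ D') := by
          rw [htT₂ x h2]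
          have := hjA x h2
          tauto
        rw [hg' (t x) (Finset.mem_union_right _ (Finset.mem_image_of_mem t h2)), if_neg hn,
          hinv]

end Pool.Agent.SymEF
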