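import Pool.Agent.SY.EV3

/-!
# TASK EV4 (transfer; easy)

`C` is a set of literals with support `D` (`hC`: every even permutation `t` which fixes the points outside of `A` and those of
`D` is realised by a map `r` of literals which preserves `C` and which is compatible with the evaluation).

PROOF. Let `l ∈ C` be true in `g`, `g` agrees with `f` outside of `A` and on `D`. Let `T` be as in `hT` for `l`. The move lemma
(`move` with `D`, `D ∪ D'`, `T`, `g`, `h := f`) gives an even `t` with `Fixes A D t` and `g'` with `AgreeOn A (D ∪ D') g' f` and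
`AgreeOn A T (comp g' t) g`. Let `r` be as in `hC`. Then `r l ∈ C`, and `r l` is true in `g'` iff `l` is true in `comp g' t` iff (by `hT`)
`l` is true in `g`.
-/

set_option autoImplicit false

namespace Pool.Agent.SymEF

open Equiv

theorem transfer {X M W : Type} [Fintype X] [DecidableEq X] [Infinite M] (A D D' : Finset X) (k : ℕ) (hD : D ⊆ A)
    (hD' : D' ⊆ A) (hc : (D ∪ D').card + 2 * k + 2 ≤ A.card) (val : W → (X ↪ M) → Prop) (C : Set (W × Bool))
    (hT : ∀ l ∈ C, ∃ T ⊆ A, T.card ≤ k ∧ ∀ f g, AgreeOn A T f g → (val l.1 f ↔ val l.1 g))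
    (hC : Compat A D val C)
    (f : X ↪ M) (h : ∃ l ∈ C, ∃ g, AgreeOn A D g f ∧ LitTrue val l g) :
    ∃ l ∈ C, ∃ g, AgreeOn A (D ∪ D') g f ∧ LitTrue val l g := by
  obtain ⟨l, hl, g, hg, hlg⟩ := h
  obtain ⟨T, hTA, hTk, hTv⟩ := hT l hl
  obtain ⟨t, ht, hfix, g', hg', hgT⟩ := move A D (D ∪ D') T Finset.subset_union_left
    (Finset.union_subset hD hD') hTA (by omega) g f hg
  obtain ⟨r, hr⟩ := hC t ht hfix
  refine ⟨r l, (hr l hl).1, g', hg', ((hr l hl).2 g').2 ?_⟩
  unfold LitTrue at hlg ⊢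
  rw [hTv _ _ hgT]
  exact hlg

end Pool.Agent.SymEF
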