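import Pool.Agent.SY.EV4

/-!
# TASK EV6a (soundness for the axioms; easy)

PROOF of `sound_input`. Let `f` be a world. `S` holds in the structure `I` at `f ∘ v`. First case: a literal of `S.nar` holds. If it is
`rel s r args`: the literal `(⟨r, v ∘ args⟩, s)` is in the clause and it is true in `f` (`base I ⟨r, v ∘ args⟩ f` is
`I ⟨r, f ∘ (v ∘ args)⟩`); take `g = f`. If it is `eq s i j`: `f (v i) = f (v j) ↔ s = true`, so `v i = v j ↔ s = true` since `f` is injective,
contradiction to `¬ S.Trivial v`. Second case: there is `y : M` and a literal of `S.wid` which holds at `ext (f ∘ v) y`. Choose `g` and `b : X`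
with `AgreeOn A D g f`, `g b = y`, `g (v i) = f (v i)` for all `i`: if `y = f b` for some `b`, take `g = f`. If `y` is not a value of `f`: choose `b ∈ A`
not in `D` and not of the form `v i` (possible as `|D| + S.k ≤ |D| + k < |A|`), and `g = f` except `g b = y` (injective;
`Function.Embedding` from `Function.update f b y`, or `f.setValue`-like). Then `ext (f ∘ v) y = g ∘ ext v b` (`Fin.lastCases` or
`Fin.snoc_comp..`), and as in the first case the literal is a literal of the clause, true in `g`, or an equality which makes `S` trivial at `v`.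

PROOF of `sound_def`. Let `f` be a world. If `val (inr e) f` is false, the literal `(inr e, false)` is true in `f`. Otherwise by
`hval.inr` there are `l ∈ dfn e` and `g`, `AgreeOn A (Δ e) g f`, `l` true in `g`; `transfer` (with `C := dfn e`, `D := Δ e`, `D' := D`) and
`AgreeOn.mono` give a literal of `dfn e` true in a world `g'` with `AgreeOn A D g' f`.

PROOF of `sound_def'`. `l ∈ dfn e`. If `l` is true in `f` then `val (inr e) f` is true (by `hval.inr` with `g = f`), so `(inr e, true)` is true in
`f`; otherwise `ng l` is true in `f`.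
-/

set_option autoImplicit false

namespace Pool.Agent.SymEF

open Equiv

/-- Precomposition with the values of the variables commutes with the extension. -/
private theorem ext_comp {X M : Type} {k : ℕ} (g : X ↪ M) (f : X ↪ M) (v : Fin k → X) (b : X) (y : M)
    (h1 : ∀ i, g (v i) = f (v i)) (h2 : g b = y) : ext (f ∘ v) y = g ∘ ext v b := by
  funext i
  refine Fin.lastCases ?_ (fun j => ?_) i
  · simp [ext, h2]
  · simp [ext, h1]

/-- A world which takes the value `y` and agrees with `f` outside of `A`, on `D` and at the `v i`. -/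
private theorem exists_world {X M : Type} [Fintype X] [DecidableEq X] (A D : Finset X) {k : ℕ} (hc : D.card + k < A.card)
    (v : Fin k → X) (f : X ↪ M) (y : M) :
    ∃ (g : X ↪ M) (b : X), AgreeOn A D g f ∧ g b = y ∧ ∀ i, g (v i) = f (v i) := by
  classical
  by_cases hy : ∃ b, f b = y
  · obtain ⟨b, hb⟩ := hy
    exact ⟨f, b, AgreeOn.refl A D f, hb, fun _ => rfl⟩
  · have hcard : (D ∪ Finset.univ.image v).card < A.card := by
      refine lt_of_le_of_lt (Finset.card_union_le _ _) (lt_of_le_of_lt ?_ hc)
      have h := Finset.card_image_le (s := (Finset.univ : Finset (Fin k))) (f := v)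
      rw [Finset.card_univ, Fintype.card_fin] at h
      exact Nat.add_le_add_left h _
    obtain ⟨b, hbA, hb⟩ := Finset.exists_mem_notMem_of_card_lt_card hcard
    rw [Finset.mem_union, not_or] at hb
    have hne : ∀ x, f x ≠ y := fun x hx => hy ⟨x, hx⟩
    have hinj : Function.Injective (Function.update f b y) := by
      intro x x' hxx
      by_cases hx : x = b
      · by_cases hx' : x' = b
        · rw [hx, hx']
        · rw [hx, Function.update_self, Function.update_of_ne hx'] at hxx
          exact absurd hxx.symm (hne x')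
      · by_cases hx' : x' = b
        · rw [hx', Function.update_self, Function.update_of_ne hx] at hxx
          exact absurd hxx (hne x)
        · rw [Function.update_of_ne hx, Function.update_of_ne hx'] at hxx
          exact f.injective hxx
    refine ⟨⟨Function.update f b y, hinj⟩, b, ?_, ?_, ?_⟩
    · intro x hx
      have hxb : x ≠ b := by
        rintro rfl
        rcases hx with hx | hx
        · exact hx hbA
        · exact hb.1 hx
      exact Function.update_of_ne hxb y f
    · exact Function.update_self b y f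
    · intro i
      have hxb : v i ≠ b := by
        intro h
        exact hb.2 (Finset.mem_image.2 ⟨i, Finset.mem_univ i, h⟩)
      exact Function.update_of_ne hxb y f

theorem sound_input {R X M : Type} {ar : R → ℕ} [Fintype X] [DecidableEq X] (I : Atom ar M → Prop) (S : Schema ar)
    (hS : S.Holds I) (A D : Finset X) (hc : D.card + S.k < A.card) (v : Fin S.k → X) (hv : ¬ S.Trivial v)
    {E : Type} (val : Atom ar X ⊕ E → (X ↪ M) → Prop) (hval : ∀ a f, val (Sum.inl a) f ↔ base I a f) :
    Tr A D val ((fun l : Atom ar X × Bool => ((Sum.inl l.1 : Atom ar X ⊕ E), l.2)) '' S.clause v) := by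
  intro f
  rcases hS (f ∘ v) with ⟨l, hl, hol⟩ | ⟨y, l, hl, hol⟩
  · cases l with
    | rel s r args =>
      refine ⟨(Sum.inl ⟨r, v ∘ args⟩, s), ⟨(⟨r, v ∘ args⟩, s), Or.inl ⟨s, r, args, hl, rfl⟩, rfl⟩, f,
        AgreeOn.refl A D f, ?_⟩
      show val (Sum.inl ⟨r, v ∘ args⟩) f ↔ s = true
      rw [hval]
      exact hol
    | eq s i j =>
      exfalso
      refine hv (Or.inl ⟨s, i, j, hl, ?_⟩)
      have h : (f (v i) = f (v j) ↔ s = true) := hol
      rw [f.injective.eq_iff] at h
      exact h
  · obtain ⟨g, b, hgf, hgb, hgv⟩ := exists_world A D hc v f y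
    rw [ext_comp g f v b y hgv hgb] at hol
    cases l with
    | rel s r args =>
      refine ⟨(Sum.inl ⟨r, ext v b ∘ args⟩, s), ⟨(⟨r, ext v b ∘ args⟩, s), Or.inr ⟨b, s, r, args, hl, rfl⟩, rfl⟩, g,
        hgf, ?_⟩
      show val (Sum.inl ⟨r, ext v b ∘ args⟩) g ↔ s = true
      rw [hval]
      exact hol
    | eq s i j =>
      exfalso
      refine hv (Or.inr ⟨b, s, i, j, hl, ?_⟩)
      have h : (g (ext v b i) = g (ext v b j) ↔ s = true) := hol
      rw [g.injective.eq_iff] at h
      exact h

theorem sound_def {X M V E : Type} [Fintype X] [DecidableEq X] [Infinite M] (A D : Finset X) (k : ℕ) (hD : D ⊆ A)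
    (hDk : D.card ≤ k) (hc : 4 * k + 2 ≤ A.card) (dfn : E → Set ((V ⊕ E) × Bool)) (b : V → (X ↪ M) → Prop)
    (Δ : E → Finset X) (val : V ⊕ E → (X ↪ M) → Prop) (hval : IsVal A dfn b Δ val) (e : E) (hΔA : Δ e ⊆ A)
    (hΔ : (Δ e).card ≤ k) (hT : ∀ w, ∃ T ⊆ A, T.card ≤ k ∧ ∀ f g, AgreeOn A T f g → (val w f ↔ val w g))
    (hC : Compat A (Δ e) val (dfn e)) : Tr A D val (insert ((Sum.inr e : V ⊕ E), false) (dfn e)) := by
  intro f
  by_cases h : val (Sum.inr e) f
  · have h' := (hval.inr e f).1 h
    have hcard : (Δ e ∪ D).card + 2 * k + 2 ≤ A.card := by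
      have := Finset.card_union_le (Δ e) D
      omega
    obtain ⟨l, hl, g, hg, hlg⟩ := transfer A (Δ e) D k hΔA hD hcard val (dfn e) (fun l _ => hT l.1) hC f h'
    exact ⟨l, Set.mem_insert_of_mem _ hl, g, AgreeOn.mono Finset.subset_union_right hg, hlg⟩
  · refine ⟨((Sum.inr e : V ⊕ E), false), Set.mem_insert _ _, f, AgreeOn.refl A D f, ?_⟩
    show val (Sum.inr e) f ↔ false = true
    simp [h]

theorem sound_def' {X M V E : Type} (A D : Finset X) (dfn : E → Set ((V ⊕ E) × Bool))
    (b : V → (X ↪ M) → Prop) (Δ : E → Finset X) (val : V ⊕ E → (X ↪ M) → Prop) (hval : IsVal A dfn b Δ val) (e : E)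
    (l : (V ⊕ E) × Bool) (hl : l ∈ dfn e) : Tr A D val {((Sum.inr e : V ⊕ E), true), ng l} := by
  intro f
  by_cases h : LitTrue val l f
  · refine ⟨((Sum.inr e : V ⊕ E), true), Set.mem_insert _ _, f, AgreeOn.refl A D f, ?_⟩
    show val (Sum.inr e) f ↔ true = true
    have h' := (hval.inr e f).2 ⟨l, hl, f, AgreeOn.refl A (Δ e) f, h⟩
    simp [h']
  · refine ⟨ng l, Set.mem_insert_of_mem _ rfl, f, AgreeOn.refl A D f, ?_⟩
    show val l.1 f ↔ (!l.2) = true
    have h' : ¬ (val l.1 f ↔ l.2 = true) := h
    cases hl2 : l.2 <;> rw [hl2] at h' <;> simp at h' ⊢ <;> exact h'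

end Pool.Agent.SymEF
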