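import Pool.Agent.SY.EV4

/-!
# TASK EV6b (soundness of the cut rule; easy)

PROOF. Let `f` be a world. `hB` at `f` and `transfer` (for the set `B` with support `DB`, `D' := D`, `C := B`) give `l ∈ B` and a world `g`,
`AgreeOn A (DB ∪ D) g f`, `l` true in `g`. If `l ∈ C` we are done (`AgreeOn.mono`). Otherwise let `D'` be as in `hprem` for `l`, and `T` as in `hT`
for `l.1`. `Tr A D' val (insert (ng l) C)` at `g` and `transfer` (for the set `insert (ng l) C`, support `D'`, and `D ∪ T` in the place of `D'`;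
`(D' ∪ (D ∪ T)).card ≤ 3k`, `5 k + 2 ≤ |A|`) give `l' ∈ insert (ng l) C` and a world `g'`, `AgreeOn A (D' ∪ (D ∪ T)) g' g`, `l'` true in `g'`. If
`l' = ng l`: `val l.1 g' ↔ val l.1 g` by `hT`, but `l` is true in `g` and `ng l` is true in `g'`: contradiction. So `l' ∈ C`, and `AgreeOn A D g' f` by
`AgreeOn.trans` and `AgreeOn.mono`.
-/

set_option autoImplicit false

namespace Pool.Agent.SymEF

open Equiv

theorem sound_cut {X M W : Type} [Fintype X] [DecidableEq X] [Infinite M] (A : Finset X) (k : ℕ)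
    (hk : 5 * k + 2 ≤ A.card) (val : W → (X ↪ M) → Prop)
    (hT : ∀ w, ∃ T ⊆ A, T.card ≤ k ∧ ∀ f g, AgreeOn A T f g → (val w f ↔ val w g))
    (B C : Set (W × Bool)) (DB : Finset X) (hDB : DB ⊆ A) (hDBk : DB.card ≤ k) (hBc : Compat A DB val B)
    (hB : Tr A DB val B)
    (hprem : ∀ l ∈ B, l ∉ C → ∃ D' ⊆ A, D'.card ≤ k ∧ Compat A D' val (insert (ng l) C) ∧
      Tr A D' val (insert (ng l) C))
    (D : Finset X) (hD : D ⊆ A) (hDk : D.card ≤ k) : Tr A D val C := by
  intro f
  have hc1 : (DB ∪ D).card + 2 * k + 2 ≤ A.card := by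
    have h1 := Finset.card_union_le DB D
    omega
  obtain ⟨l, hlB, g, hg, hlg⟩ :=
    transfer A DB D k hDB hD hc1 val B (fun l _ => hT l.1) hBc f (hB f)
  by_cases hlC : l ∈ C
  · exact ⟨l, hlC, g, hg.mono Finset.subset_union_right, hlg⟩
  obtain ⟨D', hD', hD'k, hcomp, htr⟩ := hprem l hlB hlC
  obtain ⟨T, hTA, hTk, hTv⟩ := hT l.1
  have hc2 : (D' ∪ (D ∪ T)).card + 2 * k + 2 ≤ A.card := by
    have h1 := Finset.card_union_le D' (D ∪ T)
    have h2 := Finset.card_union_le D T
    omega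
  obtain ⟨l', hl', g', hg', hlg'⟩ :=
    transfer A D' (D ∪ T) k hD' (Finset.union_subset hD hTA) hc2 val (insert (ng l) C)
      (fun l _ => hT l.1) hcomp g (htr g)
  have hsub : D ∪ T ⊆ D' ∪ (D ∪ T) := Finset.subset_union_right
  rcases hl' with hl' | hl'
  · exfalso
    have h1 : val l.1 g' ↔ val l.1 g := hTv g' g (hg'.mono (Finset.subset_union_right.trans hsub))
    rw [hl'] at hlg'
    have h2 : val l.1 g' ↔ (!l.2) = true := hlg'
    have h3 : val l.1 g ↔ l.2 = true := hlg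
    rw [h1, h3] at h2
    cases h4 : l.2 <;> simp [h4] at h2
  · exact ⟨l', hl', g', (hg'.mono (Finset.subset_union_left.trans hsub)).trans
      (hg.mono Finset.subset_union_right), hlg'⟩

end Pool.Agent.SymEF
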