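import Pool.Agent.SY.EWDefs

/-!
# TASK EW1 (bisimulations compose; easy)

PROOF. `match_one`: `Match id Eq l l`. `match_comp`: if `Match g ρ l l'` and `Match g' ρ' l' l''` then `Match (g' ∘ g) (ρ ; ρ') l l''` where `(ρ ; ρ') e e'' :=
∃ e', ρ e e' ∧ ρ' e' e''`. `match_symm`: if `g'` is a left inverse of `g` (`∀ v, g' (g v) = v`) then `Match g ρ l l' → Match g' (fun e' e => ρ e e') l' l`. The
statements for `MatchSet` and `Bisim` follow directly (unfold).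
`inv_one`: `ρ := Eq`. `inv_mul`: `ρ` and `ρ'` composed. `inv_inv`: the transposed relation.
`stab`: the elements `g` of `Perm X` with `g x = x` for `x ∉ A` and `p.Inv (Atom.perm ar g) C` form a subgroup (`Atom.perm_mul`, `Atom.perm_one`, `Atom.perm_inv`);
define it and prove `mem_stab` (`Iff.rfl`).
-/

set_option autoImplicit false

namespace Pool.Agent.SymEF

open Equiv

variable {V E : Type}

private theorem EW1_match_one (l : (V ⊕ E) × Bool) : Match id Eq l l := by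
  refine ⟨rfl, ?_⟩
  rcases h : l.1 with v | e
  · exact Or.inl ⟨v, rfl, rfl⟩
  · exact Or.inr ⟨e, e, rfl, rfl, rfl⟩

private theorem EW1_match_comp {g g' : V → V} {ρ ρ' : E → E → Prop} {l l' l'' : (V ⊕ E) × Bool}
    (h : Match g ρ l l') (h' : Match g' ρ' l' l'') :
    Match (g' ∘ g) (fun e e'' => ∃ e', ρ e e' ∧ ρ' e' e'') l l'' := by
  refine ⟨h.1.trans h'.1, ?_⟩
  rcases h.2 with ⟨v, h1, h2⟩ | ⟨e, e', h1, h2, h3⟩
  · rcases h'.2 with ⟨v', h4, h5⟩ | ⟨e1, e1', h4, h5, h6⟩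
    · rw [h2] at h4
      have h7 := Sum.inl_injective h4
      left
      refine ⟨v, h1, ?_⟩
      rw [h5, ← h7]
      rfl
    · rw [h2] at h4
      exact absurd h4 Sum.inl_ne_inr
  · rcases h'.2 with ⟨v', h4, h5⟩ | ⟨e1, e1', h4, h5, h6⟩
    · rw [h2] at h4
      exact absurd h4 Sum.inr_ne_inl
    · rw [h2] at h4
      have h7 := Sum.inr_injective h4
      right
      refine ⟨e, e1', h1, h5, e', h3, ?_⟩
      rw [h7]
      exact h6

private theorem EW1_match_symm {g g' : V → V} (hg : ∀ v, g' (g v) = v) {ρ : E → E → Prop}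
    {l l' : (V ⊕ E) × Bool} (h : Match g ρ l l') : Match g' (fun e' e => ρ e e') l' l := by
  refine ⟨h.1.symm, ?_⟩
  rcases h.2 with ⟨v, h1, h2⟩ | ⟨e, e', h1, h2, h3⟩
  · exact Or.inl ⟨g v, h2, by rw [hg, h1]⟩
  · exact Or.inr ⟨e', e, h2, h1, h3⟩

theorem matchSet_one (C : Set ((V ⊕ E) × Bool)) : MatchSet id Eq C C :=
  ⟨fun l hl => ⟨l, hl, EW1_match_one l⟩, fun l hl => ⟨l, hl, EW1_match_one l⟩⟩

theorem matchSet_comp (g g' : V → V) (ρ ρ' : E → E → Prop) (C C' C'' : Set ((V ⊕ E) × Bool))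
    (h : MatchSet g ρ C C') (h' : MatchSet g' ρ' C' C'') :
    MatchSet (g' ∘ g) (fun e e'' => ∃ e', ρ e e' ∧ ρ' e' e'') C C'' := by
  refine ⟨fun l hl => ?_, fun l'' hl'' => ?_⟩
  · obtain ⟨l', hl', h1⟩ := h.1 l hl
    obtain ⟨l'', hl'', h2⟩ := h'.1 l' hl'
    exact ⟨l'', hl'', EW1_match_comp h1 h2⟩
  · obtain ⟨l', hl', h1⟩ := h'.2 l'' hl''
    obtain ⟨l, hl, h2⟩ := h.2 l' hl'
    exact ⟨l, hl, EW1_match_comp h2 h1⟩

theorem matchSet_symm (g g' : V → V) (hg : ∀ v, g' (g v) = v) (ρ : E → E → Prop) (C C' : Set ((V ⊕ E) × Bool))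
    (h : MatchSet g ρ C C') : MatchSet g' (fun e' e => ρ e e') C' C := by
  refine ⟨fun l' hl' => ?_, fun l hl => ?_⟩
  · obtain ⟨l, hl, h1⟩ := h.2 l' hl'
    exact ⟨l, hl, EW1_match_symm hg h1⟩
  · obtain ⟨l', hl', h1⟩ := h.1 l hl
    exact ⟨l', hl', EW1_match_symm hg h1⟩

theorem bisim_one (dfn : E → Set ((V ⊕ E) × Bool)) : Bisim dfn id Eq := by
  rintro e _ rfl
  exact matchSet_one _

theorem bisim_comp (dfn : E → Set ((V ⊕ E) × Bool)) (g g' : V → V) (ρ ρ' : E → E → Prop) (h : Bisim dfn g ρ)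
    (h' : Bisim dfn g' ρ') : Bisim dfn (g' ∘ g) (fun e e'' => ∃ e', ρ e e' ∧ ρ' e' e'') := by
  rintro e e'' ⟨e', h1, h2⟩
  exact matchSet_comp g g' ρ ρ' _ _ _ (h e e' h1) (h' e' e'' h2)

theorem bisim_symm (dfn : E → Set ((V ⊕ E) × Bool)) (g g' : V → V) (hg : ∀ v, g' (g v) = v) (ρ : E → E → Prop)
    (h : Bisim dfn g ρ) : Bisim dfn g' (fun e' e => ρ e e') := by
  intro e' e h1
  exact matchSet_symm g g' hg ρ _ _ (h e e' h1)

theorem matchSet_of_image (g : Perm V) (r : Perm E) (C : Set ((V ⊕ E) × Bool)) :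
    MatchSet g (fun e e' => r e = e') C (ren g r '' C) := by
  have hm : ∀ l : (V ⊕ E) × Bool, Match g (fun e e' => r e = e') l (ren g r l) := by
    rintro ⟨v | e, s⟩
    · exact ⟨rfl, Or.inl ⟨v, rfl, rfl⟩⟩
    · exact ⟨rfl, Or.inr ⟨e, r e, rfl, rfl, rfl⟩⟩
  refine ⟨fun l hl => ⟨ren g r l, ⟨l, hl, rfl⟩, hm l⟩, ?_⟩
  rintro _ ⟨l, hl, rfl⟩
  exact ⟨l, hl, hm l⟩

/-- A symmetry given by a permutation of the extension variables is a bisimulation. -/
theorem bisim_of_perm (dfn : E → Set ((V ⊕ E) × Bool)) (g : Perm V) (r : Perm E)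
    (h : ∀ e, dfn (r e) = ren g r '' dfn e) : Bisim dfn g (fun e e' => r e = e') := by
  rintro e _ rfl
  rw [h e]
  exact matchSet_of_image g r (dfn e)

/-- The stabilizer of `C` in the symmetric group of `A`. -/
def stab {R X : Type} {ar : R → ℕ} {P : List (Schema ar)} (p : Refutation (ground P X)) (A : Finset X)
    (C : Set ((Atom ar X ⊕ p.E) × Bool)) : Subgroup (Perm X) where
  carrier := {g | (∀ x, x ∉ A → g x = x) ∧ p.Inv (Atom.perm ar g) C}
  mul_mem' := by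
    rintro a b ⟨ha, ρ, h1, h2⟩ ⟨hb, ρ', h3, h4⟩
    refine ⟨fun x hx => ?_, fun e e'' => ∃ e', ρ' e e' ∧ ρ e' e'', ?_, ?_⟩
    · rw [Perm.mul_apply, hb x hx, ha x hx]
    · exact bisim_comp p.dfn (Atom.perm ar b) (Atom.perm ar a) ρ' ρ h3 h1
    · exact matchSet_comp (Atom.perm ar b) (Atom.perm ar a) ρ' ρ _ _ _ h4 h2
  one_mem' := ⟨fun _ _ => rfl, Eq, bisim_one p.dfn, matchSet_one C⟩
  inv_mem' := by
    rintro a ⟨ha, ρ, h1, h2⟩
    refine ⟨fun x hx => ?_, fun e' e => ρ e e', ?_, ?_⟩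
    · exact Perm.inv_eq_iff_eq.2 (ha x hx).symm
    · exact bisim_symm p.dfn _ _ (fun v => (Atom.perm ar a).symm_apply_apply v) ρ h1
    · exact matchSet_symm _ _ (fun v => (Atom.perm ar a).symm_apply_apply v) ρ _ _ h2

theorem mem_stab {R X : Type} {ar : R → ℕ} {P : List (Schema ar)} (p : Refutation (ground P X)) (A : Finset X)
    (C : Set ((Atom ar X ⊕ p.E) × Bool)) (g : Perm X) :
    g ∈ stab p A C ↔ (∀ x, x ∉ A → g x = x) ∧ p.Inv (Atom.perm ar g) C := Iff.rfl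

end Pool.Agent.SymEF
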