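import Pool.Agent.SY.EV4
import Pool.Agent.SY.EW1

/-!
# TASK EW5 (invariance of the evaluation)

PROOF. (0) `dependence`: for `w = inr e` take `T = Δ e` (the condition in `hval.inr` only depends on `f` outside of `A` and on `Δ e`: use `AgreeOn.trans`,
`AgreeOn.symm`). For `w = inl a`, take `T =` the set of the entries `a.2 i` which are in `A` (`|T| ≤ ar a.1 ≤ k`; `Finset.univ.image a.2` filtered by `∈ A`): if `f, g`
agree outside of `A` and on `T` then `f ∘ a.2 = g ∘ a.2`.

(1) By strong induction on `n`: for all `e` with `rank e < n`, all `e'`, all `t` which fix the points outside of `A`, all `ρ` with `Bisim p.dfn (perm t) ρ`, `ρ e e'`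
and all `f`: `val (inr e') f ↔ val (inr e) (comp f t)`. Induction step for `e`, `e'`: by the statement for smaller ranks (`p.rank_lt`) and `base_perm`:
(*) for all `l ∈ dfn e`, all `l'`, and all `s, ρ'` (`s` fixing the points outside of `A`, `Bisim p.dfn (perm s) ρ'`) with `Match (perm s) ρ' l l'`:
`LitTrue val l' g ↔ LitTrue val l (comp g s)` for all `g`.
`val (inr e') f` iff `∃ l' ∈ dfn e', ∃ g, AgreeOn A (Δ e') g f ∧ LitTrue val l' g` iff (by the `MatchSet` of `dfn e`, `dfn e'` in both directions, and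
(*)) `∃ l ∈ dfn e, ∃ g, AgreeOn A (Δ e') g f ∧ LitTrue val l (comp g t)` iff (with `g₁ = comp g t`, and conversely `g = comp g₁ t⁻¹`;
`D := (Δ e').image t⁻¹`) `∃ l ∈ dfn e, ∃ g₁, AgreeOn A D g₁ (comp f t) ∧ LitTrue val l g₁` (**).
Here: `comp g t` and `comp f t` agree at `x` iff `g`, `f` agree at `t x`; `t x ∉ A ↔ x ∉ A` as `t` fixes the points outside of `A`; `t x ∈ Δ e' ↔ x ∈ D`.
And `val (inr e) (comp f t)` is the statement (**) with `Δ e` in place of `D`. We show `Compat A (Δ e) val (dfn e)` and `Compat A D val (dfn e)`; `|D| ≤ k`,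
`D ⊆ A` (as `t⁻¹` preserves `A`); then `transfer` with `C := dfn e` in both directions (once with `D, D' := D, Δ e`, once with `Δ e, D`, then `AgreeOn.mono`) gives the
equivalence (`(D ∪ Δ e).card + 2k + 2 ≤ 4k + 2 ≤ |A|`; `hT` is (0)).
`Compat A (Δ e) val (dfn e)`: for `s` even with `Fixes A (Δ e) s`, `hsupp e` gives `ρ'` with `Bisim`, and a `MatchSet` of `{(inr e, true)}` with itself, i.e. `ρ' e e`, so
`MatchSet (perm s) ρ' (dfn e) (dfn e)`; the map of literals: `l ↦` some `l' ∈ dfn e` with `Match (perm s) ρ' l l'` (choice); it is compatible by (*).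
`Compat A D val (dfn e)`: for `s` even with `Fixes A D s` the permutation `t s t⁻¹` is even and `Fixes A (Δ e') (t s t⁻¹)`, so `hsupp e'` gives `ρ'` over `perm (t s t⁻¹)` with
`ρ' e' e'`; the composition of `ρ`, `ρ'` and the transposed relation of `ρ` (`bisim_comp`, `bisim_symm`, over `perm t⁻¹ ∘ perm (t s t⁻¹) ∘ perm t = perm s`; rewrite
with `Atom.perm_mul`, `Atom.perm_inv`) relates `e` to `e`. Continue as before.
`compat_of_supp` is the same argument: for `t` even with `Fixes A D t` (so `t` fixes the points outside of `A`), `ρ` from `Supp`, the map of literals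
`l ↦ l'` with `l' ∈ C`, `Match (perm t) ρ l l'`, compatible by (1) and `base_perm`. `compat_dfn` was shown inside the induction; now with (1).
-/

set_option autoImplicit false

namespace Pool.Agent.SymEF

open Equiv

variable {R X M : Type} {ar : R → ℕ} {P : List (Schema ar)} [Fintype X] [DecidableEq X] [Infinite M]

omit [Fintype X] [DecidableEq X] [Infinite M] in
private theorem EW5_map {W : Type} (val : W → (X ↪ M) → Prop) (C : Set (W × Bool)) (t : Perm X)
    (h : ∀ l ∈ C, ∃ l' ∈ C, ∀ f, LitTrue val l' f ↔ LitTrue val l (comp f t)) :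
    ∃ r : W × Bool → W × Bool, ∀ l ∈ C, r l ∈ C ∧ ∀ f, LitTrue val (r l) f ↔ LitTrue val l (comp f t) := by
  classical
  refine ⟨fun l => if hl : l ∈ C then (h l hl).choose else l, ?_⟩
  intro l hl
  have h1 := (h l hl).choose_spec
  have h2 : (fun l => if hl : l ∈ C then (h l hl).choose else l) l = (h l hl).choose := dif_pos hl
  show (fun l => if hl : l ∈ C then (h l hl).choose else l) l ∈ C ∧
    ∀ f, LitTrue val ((fun l => if hl : l ∈ C then (h l hl).choose else l) l) f ↔ LitTrue val l (comp f t)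
  rw [h2]
  exact h1

private theorem EW5_self (p : Refutation (ground P X)) (A D : Finset X) (e : p.E)
    (h : Supp p A D {((Sum.inr e : Atom ar X ⊕ p.E), true)}) (s : Perm X) (hs : s ∈ alternatingGroup X)
    (hfix : Fixes A D s) : ∃ ρ' : p.E → p.E → Prop, Bisim p.dfn (Atom.perm ar s) ρ' ∧ ρ' e e := by
  obtain ⟨ρ', h1, h2⟩ := h s hs hfix
  refine ⟨ρ', h1, ?_⟩
  obtain ⟨l', hl', hm⟩ := h2.1 _ (Set.mem_singleton _)
  rw [Set.mem_singleton_iff] at hl'
  subst hl'
  rcases hm.2 with ⟨v, hv, _⟩ | ⟨e₁, e₂, h3, h4, h5⟩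
  · exact absurd hv (by simp)
  · have h3' : e = e₁ := Sum.inr.inj h3
    have h4' : e = e₂ := Sum.inr.inj h4
    rw [← h3', ← h4'] at h5
    exact h5

theorem dependence (I : Atom ar M → Prop) (p : Refutation (ground P X)) (A : Finset X) (k : ℕ)
    (har : ∀ r, ar r ≤ k) (Δ : p.E → Finset X) (hΔA : ∀ e, Δ e ⊆ A) (hΔ : ∀ e, (Δ e).card ≤ k)
    (val : Atom ar X ⊕ p.E → (X ↪ M) → Prop) (hval : IsVal A p.dfn (base I) Δ val) (w : Atom ar X ⊕ p.E) :
    ∃ T ⊆ A, T.card ≤ k ∧ ∀ f g, AgreeOn A T f g → (val w f ↔ val w g) := by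
  classical
  cases w with
  | inr e =>
    refine ⟨Δ e, hΔA e, hΔ e, ?_⟩
    intro f g hfg
    rw [hval.inr, hval.inr]
    constructor
    · rintro ⟨l, hl, h, hh, ht⟩
      exact ⟨l, hl, h, hh.trans hfg, ht⟩
    · rintro ⟨l, hl, h, hh, ht⟩
      exact ⟨l, hl, h, hh.trans hfg.symm, ht⟩
  | inl a =>
    refine ⟨(Finset.univ.image a.2).filter (fun x => x ∈ A), ?_, ?_, ?_⟩
    · intro x hx
      exact (Finset.mem_filter.mp hx).2
    · calc ((Finset.univ.image a.2).filter (fun x => x ∈ A)).card ≤ (Finset.univ.image a.2).card :=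
            Finset.card_filter_le _ _
        _ ≤ (Finset.univ : Finset (Fin (ar a.1))).card := Finset.card_image_le
        _ = ar a.1 := Finset.card_fin _
        _ ≤ k := har a.1
    · intro f g hfg
      rw [hval.inl, hval.inl]
      have h1 : f ∘ a.2 = g ∘ a.2 := by
        funext i
        show f (a.2 i) = g (a.2 i)
        apply hfg
        by_cases hA : a.2 i ∈ A
        · exact Or.inr (Finset.mem_filter.mpr ⟨Finset.mem_image_of_mem _ (Finset.mem_univ i), hA⟩)
        · exact Or.inl hA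
      unfold base
      rw [h1]

theorem invariance (I : Atom ar M → Prop) (p : Refutation (ground P X)) (A : Finset X) (k : ℕ) (hk : 4 * k + 2 ≤ A.card)
    (har : ∀ r, ar r ≤ k) (Δ : p.E → Finset X) (hΔA : ∀ e, Δ e ⊆ A) (hΔ : ∀ e, (Δ e).card ≤ k)
    (hsupp : ∀ e, Supp p A (Δ e) {((Sum.inr e : Atom ar X ⊕ p.E), true)}) (val : Atom ar X ⊕ p.E → (X ↪ M) → Prop)
    (hval : IsVal A p.dfn (base I) Δ val) (t : Perm X) (ht : ∀ x, x ∉ A → t x = x) (ρ : p.E → p.E → Prop)
    (hρ : Bisim p.dfn (Atom.perm ar t) ρ) (e e' : p.E) (he : ρ e e') (f : X ↪ M) :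
    val (Sum.inr e') f ↔ val (Sum.inr e) (comp f t) := by
  have key : ∀ (n : ℕ) (e : p.E), p.rank e < n → ∀ (e' : p.E) (t : Perm X), (∀ x, x ∉ A → t x = x) →
      ∀ (ρ : p.E → p.E → Prop), Bisim p.dfn (Atom.perm ar t) ρ → ρ e e' →
      ∀ f : X ↪ M, (val (Sum.inr e') f ↔ val (Sum.inr e) (comp f t)) := by
    intro n
    induction n with
    | zero => intro e he; exact absurd he (Nat.not_lt_zero _)
    | succ n ih =>
      intro e he e' t ht ρ hρ hee f
      have hts : ∀ x, t (t⁻¹ x) = x := fun x => t.apply_symm_apply x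
      have hst : ∀ x, t⁻¹ (t x) = x := fun x => t.symm_apply_apply x
      have star : ∀ (t : Perm X), (∀ x, x ∉ A → t x = x) → ∀ (ρ : p.E → p.E → Prop),
          Bisim p.dfn (Atom.perm ar t) ρ → ∀ l ∈ p.dfn e, ∀ l', Match (Atom.perm ar t) ρ l l' → ∀ g : X ↪ M,
          (LitTrue val l' g ↔ LitTrue val l (comp g t)) := by
        rintro t ht ρ hρ ⟨w, s⟩ hl ⟨w', s'⟩ ⟨hs, hm⟩ g
        have hs' : s = s' := hs
        subst hs'
        rcases hm with ⟨v, hv, hv'⟩ | ⟨e₁, e₂, h1, h2, h3⟩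
        · have hv1 : w = Sum.inl v := hv
          have hv2 : w' = Sum.inl (Atom.perm ar t v) := hv'
          subst hv1 hv2
          show (val (Sum.inl (Atom.perm ar t v)) g ↔ s = true) ↔ (val (Sum.inl v) (comp g t) ↔ s = true)
          rw [hval.inl, hval.inl, base_perm]
        · have h1' : w = Sum.inr e₁ := h1
          have h2' : w' = Sum.inr e₂ := h2
          subst h1' h2'
          show (val (Sum.inr e₂) g ↔ s = true) ↔ (val (Sum.inr e₁) (comp g t) ↔ s = true)
          have h4 := p.rank_lt e e₁ s hl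
          rw [ih e₁ (by omega) e₂ t ht ρ hρ h3 g]
      have hcompat : ∀ D₀ : Finset X, (∀ s ∈ alternatingGroup X, Fixes A D₀ s →
          ∃ ρ' : p.E → p.E → Prop, Bisim p.dfn (Atom.perm ar s) ρ' ∧ ρ' e e) → Compat A D₀ val (p.dfn e) := by
        intro D₀ hD₀ s hs hfix
        obtain ⟨ρ', hp', hr'⟩ := hD₀ s hs hfix
        apply EW5_map
        intro l hl
        obtain ⟨l', hl', hm⟩ := (hp' e e hr').1 l hl
        exact ⟨l', hl', star s (fun x hx => hfix x (Or.inl hx)) ρ' hp' l hl l' hm⟩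
      have hdep : ∀ l ∈ p.dfn e, ∃ T ⊆ A, T.card ≤ k ∧ ∀ f g, AgreeOn A T f g → (val l.1 f ↔ val l.1 g) :=
        fun l _ => dependence I p A k har Δ hΔA hΔ val hval l.1
      have hinvA : ∀ x, x ∉ A → t⁻¹ x = x := by
        intro x hx
        have h2 := ht x hx
        calc t⁻¹ x = t⁻¹ (t x) := by rw [h2]
          _ = x := hst x
      have hDA : (Δ e').image (fun x => t⁻¹ x) ⊆ A := by
        intro x hx
        obtain ⟨y, hy, rfl⟩ := Finset.mem_image.mp hx
        by_contra hc
        have h1 := ht _ hc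
        rw [hts] at h1
        rw [← h1] at hc
        exact hc (hΔA _ hy)
      have hDk : ((Δ e').image (fun x => t⁻¹ x)).card ≤ k := Finset.card_image_le.trans (hΔ _)
      have hDs : ∀ s ∈ alternatingGroup X, Fixes A ((Δ e').image (fun x => t⁻¹ x)) s →
          ∃ ρ' : p.E → p.E → Prop, Bisim p.dfn (Atom.perm ar s) ρ' ∧ ρ' e e := by
        intro s hs hfix
        have hu : t * s * t⁻¹ ∈ alternatingGroup X := by
          rw [Perm.mem_alternatingGroup] at hs ⊢
          rw [map_mul, map_mul, hs, map_inv, mul_one, mul_inv_cancel]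
        have hfu : Fixes A (Δ e') (t * s * t⁻¹) := by
          intro x hx
          show t (s (t⁻¹ x)) = x
          rw [hfix (t⁻¹ x) ?_, hts]
          rcases hx with hx | hx
          · left
            rw [hinvA x hx]
            exact hx
          · right
            exact Finset.mem_image_of_mem _ hx
        obtain ⟨ρ', hp', hr'⟩ := EW5_self p A (Δ e') e' (hsupp e') _ hu hfu
        have b1 := bisim_comp p.dfn _ _ ρ ρ' hρ hp'
        have b2 := bisim_symm p.dfn (Atom.perm ar t) (Atom.perm ar t⁻¹) (fun v => by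
          rw [Atom.perm_inv]
          exact (Atom.perm ar t).symm_apply_apply v) ρ hρ
        have b3 := bisim_comp p.dfn _ _ _ _ b1 b2
        refine ⟨fun a d => ∃ c, (∃ b, ρ a b ∧ ρ' b c) ∧ ρ d c, ?_, ⟨e', ⟨e', hee, hr'⟩, hee⟩⟩
        have hfun : (⇑(Atom.perm ar t⁻¹) ∘ ⇑(Atom.perm ar (t * s * t⁻¹)) ∘ ⇑(Atom.perm ar t) : Atom ar X → Atom ar X) =
            ⇑(Atom.perm ar s) := by
          funext a
          show (⟨a.1, fun i => t⁻¹ (t (s (t⁻¹ (t (a.2 i)))))⟩ : Atom ar X) = ⟨a.1, fun i => s (a.2 i)⟩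
          have h1 : (fun i => t⁻¹ (t (s (t⁻¹ (t (a.2 i)))))) = fun i => s (a.2 i) := by
            funext i
            rw [hst, hst]
          rw [h1]
        rw [← hfun]
        exact b3
      have hcard : (((Δ e').image (fun x => t⁻¹ x)) ∪ Δ e).card + 2 * k + 2 ≤ A.card := by
        have h1 := Finset.card_union_le ((Δ e').image (fun x => t⁻¹ x)) (Δ e)
        have h2 := hΔ e
        omega
      have hcard' : (Δ e ∪ ((Δ e').image (fun x => t⁻¹ x))).card + 2 * k + 2 ≤ A.card := by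
        rw [Finset.union_comm]
        exact hcard
      have hMS := hρ e e' hee
      have hstep : val (Sum.inr e') f ↔ ∃ l ∈ p.dfn e, ∃ g,
          AgreeOn A ((Δ e').image (fun x => t⁻¹ x)) g (comp f t) ∧ LitTrue val l g := by
        rw [hval.inr]
        constructor
        · rintro ⟨l', hl', g, hg, hlt⟩
          obtain ⟨l, hl, hm⟩ := hMS.2 l' hl'
          refine ⟨l, hl, comp g t, ?_, (star t ht ρ hρ l hl l' hm g).mp hlt⟩
          rintro x hx
          rw [comp_apply, comp_apply]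
          apply hg
          rcases hx with hx | hx
          · left
            rw [ht x hx]
            exact hx
          · right
            obtain ⟨y, hy, rfl⟩ := Finset.mem_image.mp hx
            rw [hts]
            exact hy
        · rintro ⟨l, hl, g₁, hg₁, hlt⟩
          have hback : comp (comp g₁ t⁻¹) t = g₁ := by
            ext x
            rw [comp_apply, comp_apply, hst]
          obtain ⟨l', hl', hm⟩ := hMS.1 l hl
          refine ⟨l', hl', comp g₁ t⁻¹, ?_, ?_⟩
          · intro x hx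
            rw [comp_apply]
            have h1 : g₁ (t⁻¹ x) = comp f t (t⁻¹ x) := by
              apply hg₁
              rcases hx with hx | hx
              · left
                rw [hinvA x hx]
                exact hx
              · right
                exact Finset.mem_image_of_mem _ hx
            rw [h1, comp_apply, hts]
          · rw [star t ht ρ hρ l hl l' hm, hback]
            exact hlt
      rw [hstep, hval.inr]
      constructor
      · intro h
        obtain ⟨l, hl, g, hg, hlt⟩ := transfer A _ (Δ e) k hDA (hΔA e) hcard val (p.dfn e) hdep (hcompat _ hDs) (comp f t) h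
        exact ⟨l, hl, g, hg.mono Finset.subset_union_right, hlt⟩
      · intro h
        obtain ⟨l, hl, g, hg, hlt⟩ := transfer A (Δ e) _ k (hΔA e) hDA hcard' val (p.dfn e) hdep
          (hcompat _ (fun s hs hfix => EW5_self p A (Δ e) e (hsupp e) s hs hfix)) (comp f t) h
        exact ⟨l, hl, g, hg.mono Finset.subset_union_right, hlt⟩
  exact key (p.rank e + 1) e (Nat.lt_succ_self _) e' t ht ρ hρ he f

private theorem EW5_star (I : Atom ar M → Prop) (p : Refutation (ground P X)) (A : Finset X) (k : ℕ) (hk : 4 * k + 2 ≤ A.card)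
    (har : ∀ r, ar r ≤ k) (Δ : p.E → Finset X) (hΔA : ∀ e, Δ e ⊆ A) (hΔ : ∀ e, (Δ e).card ≤ k)
    (hsupp : ∀ e, Supp p A (Δ e) {((Sum.inr e : Atom ar X ⊕ p.E), true)}) (val : Atom ar X ⊕ p.E → (X ↪ M) → Prop)
    (hval : IsVal A p.dfn (base I) Δ val) (t : Perm X) (ht : ∀ x, x ∉ A → t x = x) (ρ : p.E → p.E → Prop)
    (hρ : Bisim p.dfn (Atom.perm ar t) ρ) (l l' : (Atom ar X ⊕ p.E) × Bool) (hm : Match (Atom.perm ar t) ρ l l')
    (g : X ↪ M) : LitTrue val l' g ↔ LitTrue val l (comp g t) := by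
  obtain ⟨w, s⟩ := l
  obtain ⟨w', s'⟩ := l'
  obtain ⟨hs, hm⟩ := hm
  have hs' : s = s' := hs
  subst hs'
  rcases hm with ⟨v, hv, hv'⟩ | ⟨e₁, e₂, h1, h2, h3⟩
  · have hv1 : w = Sum.inl v := hv
    have hv2 : w' = Sum.inl (Atom.perm ar t v) := hv'
    subst hv1 hv2
    show (val (Sum.inl (Atom.perm ar t v)) g ↔ s = true) ↔ (val (Sum.inl v) (comp g t) ↔ s = true)
    rw [hval.inl, hval.inl, base_perm]
  · have h1' : w = Sum.inr e₁ := h1
    have h2' : w' = Sum.inr e₂ := h2
    subst h1' h2'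
    show (val (Sum.inr e₂) g ↔ s = true) ↔ (val (Sum.inr e₁) (comp g t) ↔ s = true)
    rw [invariance I p A k hk har Δ hΔA hΔ hsupp val hval t ht ρ hρ e₁ e₂ h3 g]

theorem compat_of_supp (I : Atom ar M → Prop) (p : Refutation (ground P X)) (A : Finset X) (k : ℕ)
    (hk : 4 * k + 2 ≤ A.card) (har : ∀ r, ar r ≤ k) (Δ : p.E → Finset X) (hΔA : ∀ e, Δ e ⊆ A)
    (hΔ : ∀ e, (Δ e).card ≤ k) (hsupp : ∀ e, Supp p A (Δ e) {((Sum.inr e : Atom ar X ⊕ p.E), true)})
    (val : Atom ar X ⊕ p.E → (X ↪ M) → Prop) (hval : IsVal A p.dfn (base I) Δ val) (D : Finset X)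
    (C : Set ((Atom ar X ⊕ p.E) × Bool)) (hC : Supp p A D C) : Compat A D val C := by
  intro t ht hfix
  obtain ⟨ρ, hρ, hMS⟩ := hC t ht hfix
  apply EW5_map
  intro l hl
  obtain ⟨l', hl', hm⟩ := hMS.1 l hl
  exact ⟨l', hl', EW5_star I p A k hk har Δ hΔA hΔ hsupp val hval t (fun x hx => hfix x (Or.inl hx)) ρ hρ l l' hm⟩

theorem compat_dfn (I : Atom ar M → Prop) (p : Refutation (ground P X)) (A : Finset X) (k : ℕ)
    (hk : 4 * k + 2 ≤ A.card) (har : ∀ r, ar r ≤ k) (Δ : p.E → Finset X) (hΔA : ∀ e, Δ e ⊆ A)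
    (hΔ : ∀ e, (Δ e).card ≤ k) (hsupp : ∀ e, Supp p A (Δ e) {((Sum.inr e : Atom ar X ⊕ p.E), true)})
    (val : Atom ar X ⊕ p.E → (X ↪ M) → Prop) (hval : IsVal A p.dfn (base I) Δ val) (e : p.E) :
    Compat A (Δ e) val (p.dfn e) := by
  intro t ht hfix
  obtain ⟨ρ, hρ, hee⟩ := EW5_self p A (Δ e) e (hsupp e) t ht hfix
  have hMS := hρ e e hee
  apply EW5_map
  intro l hl
  obtain ⟨l', hl', hm⟩ := hMS.1 l hl
  exact ⟨l', hl', EW5_star I p A k hk har Δ hΔA hΔ hsupp val hval t (fun x hx => hfix x (Or.inl hx)) ρ hρ l l' hm⟩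

end Pool.Agent.SymEF
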