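import Pool.Agent.SY.EV1
import Pool.Agent.SY.EW5
import Pool.Agent.SY.EV6a
import Pool.Agent.SY.EV6b

/-!
# TASK EW6 (a refutation with small supports is impossible; assembly, easy)

PROOF. Choose `Δ e` from `hsupp` for `C = {(inr e, true)}` (a `Part`), and `val` from `exists_val` for `dfn`, `rank`, `base I`. `dependence` gives the hypothesis `hT` of the
soundness lemmas, `compat_dfn` and `compat_of_supp` the compatibilities.
By strong induction on `n`: for all lines `C` with `time C = n` and all `D ⊆ A` with `|D| ≤ k`: `Tr A D val C`. `p.ok C`: if `C` is an axiom, use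
`sound_input` (for `D' ∈ ground P X`, i.e. `D' = S.clause v`), `sound_def`, `sound_def'`. Otherwise `C` comes from a line `B` by cuts; let `DB` be the
support of the line `B` (`hsupp`), `hB := Tr A DB val B` by induction, and for `l ∈ B`, `l ∉ C` the line `insert (ng l) C` has a support `D'` (`hsupp`),
is `Compat` by `compat_of_supp` and `Tr` by induction; `sound_cut`.
For the line `∅` and `D = ∅`: `Tr` at any world (`exists_embedding` with `S = ∅`; `M` is infinite, `X` finite) gives a literal in `∅`. Contradiction.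
-/

set_option autoImplicit false

namespace Pool.Agent.SymEF

open Equiv

theorem no_small_supports {R X M : Type} {ar : R → ℕ} {P : List (Schema ar)} [Fintype X] [DecidableEq X] [Infinite M]
    (I : Atom ar M → Prop) (hI : ∀ S ∈ P, S.Holds I) (p : Refutation (ground P X)) (A : Finset X) (k : ℕ)
    (hk : 5 * k + 2 ≤ A.card) (har : ∀ r, ar r ≤ k) (hSk : ∀ S ∈ P, S.k ≤ k)
    (hsupp : ∀ C, p.Part C → ∃ D ⊆ A, D.card ≤ k ∧ Supp p A D C) : False := by
  have hE : ∀ e : p.E, ∃ D ⊆ A, D.card ≤ k ∧ Supp p A D {((Sum.inr e : Atom ar X ⊕ p.E), true)} :=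
    fun e => hsupp _ (Or.inr ⟨e, rfl⟩)
  choose Δ hΔA hΔ hΔs using hE
  obtain ⟨val, hval⟩ := exists_val A p.dfn p.rank p.rank_lt (base I) Δ
  have hk4 : 4 * k + 2 ≤ A.card := by omega
  have hT := dependence I p A k har Δ hΔA hΔ val hval
  have hcomp : ∀ D C, Supp p A D C → Compat A D val C := fun D C hC =>
    compat_of_supp I p A k hk4 har Δ hΔA hΔ hΔs val hval D C hC
  have hcd : ∀ e, Compat A (Δ e) val (p.dfn e) :=
    compat_dfn I p A k hk4 har Δ hΔA hΔ hΔs val hval
  have key : ∀ n, ∀ C ∈ p.lines, p.time C = n → ∀ D ⊆ A, D.card ≤ k → Tr A D val C := by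
    intro n
    induction n using Nat.strong_induction_on with
    | _ n ih =>
      intro C hC hCn D hD hDk
      rcases p.ok C hC with hax | ⟨B, hB, hBt, hprem⟩
      · rcases hax with ⟨D', hD', rfl⟩ | ⟨e, rfl⟩ | ⟨e, l, hl, rfl⟩
        · obtain ⟨S, hS, v, hv, rfl⟩ := hD'
          exact sound_input I S (hI S hS) A D (by have := hSk S hS; omega) v hv val hval.inl
        · exact sound_def A D k hD hDk hk4 p.dfn (base I) Δ val hval e (hΔA e) (hΔ e) hT (hcd e)
        · exact sound_def' A D p.dfn (base I) Δ val hval e l hl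
      · obtain ⟨DB, hDBA, hDBk, hDBs⟩ := hsupp B (Or.inl hB)
        refine sound_cut A k hk val hT B C DB hDBA hDBk (hcomp _ _ hDBs)
          (ih (p.time B) (hCn ▸ hBt) B hB rfl DB hDBA hDBk) ?_ D hD hDk
        intro l hl hlC
        obtain ⟨h1, h2⟩ := hprem l hl hlC
        obtain ⟨D', hD'A, hD'k, hD's⟩ := hsupp _ (Or.inl h1)
        exact ⟨D', hD'A, hD'k, hcomp _ _ hD's, ih _ (hCn ▸ h2) _ h1 rfl D' hD'A hD'k⟩
  obtain ⟨g, _⟩ := exists_embedding (∅ : Finset X) (fun _ => Classical.arbitrary M) (by simp)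
  obtain ⟨l, hl, _⟩ := key _ ∅ p.empty_mem rfl ∅ (by simp) (by simp) g
  exact hl

end Pool.Agent.SymEF
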