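import Pool.Agent.SY.SI7
import Pool.Agent.SY.EW6

/-!
# TASK EW8 (the lower bound for all refutations, and for symmetric refutations)

PROOF of `orbit_bound`. `P` has an infinite model `M, I`. `R` is finite, so the arities are bounded, and the numbers `S.k`, `S ∈ P`, are bounded: let `K` be a common
bound, and `a₀ = 16 (K + 1) + 64`, `a = |A| ≥ a₀`. Suppose that every `Part` `C` has `a! < C(a, a/16) * |stab p A C|`. `small_index_on` for the group
`stab p A C` (its elements fix the points outside of `A`) gives `D ⊆ A`, `|D| < a/16`, such that every even `t` with `Fixes A D t` is in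
`stab p A C`, so `p.Inv (perm t) C`: `Supp p A D C`. `no_small_supports` with `k = a/16 ≥ K` (`5 (a/16) + 2 ≤ a`) gives `False`.

PROOF of `card_le_of_fibre`. `Γ` is finite. The fibre of `y` (on `G`) through `g₀ ∈ G` is contained in the coset `g₀ H`, so it has at most `|H|`
elements; the values of `y` on `G` are in `K`. So `|G| ≤ |K| * |H|` (e.g. `Finset.card_le_mul_card_image`).

PROOF of `lower_bound`. Take `a₀` and `C` from `orbit_bound`: `C(a, a/16) * |stab p A C| ≤ a!`. It suffices that `|G| ≤ size * |stab p A C|`: then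
`C(a, a/16) * |G| ≤ size * C(a, a/16) * |stab| ≤ size * a!`. For `g ∈ G` choose `r_g : Perm p.E` with `dfn (r_g e) = ren (perm g) r_g '' dfn e` and lines mapped to lines
(`hs`, `Refutation.Sym`). Case `C ∈ p.lines`: `y g := ren (perm g) r_g '' C ∈ p.lines`, `K := p.lines`, `|K| ≤ size`. If `y g = y g'` then `g⁻¹ g' ∈ stab p A C`: by
`bisim_of_perm` and `matchSet_of_image`, `C` matches `y g' = y g` over `(perm g', r_g')`, and (by `matchSet_symm`, `bisim_symm`) `y g` matches `C` over `(perm g)⁻¹` and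
the transposed graph of `r_g`; compose (`matchSet_comp`, `bisim_comp`): `C` matches `C` over `(perm g)⁻¹ ∘ perm g' = perm (g⁻¹ g')`. Case `C = {(inr e, true)}`: `y g := r_g e`,
`K := univ : Set p.E` (`|K| = Nat.card p.E ≤ size`); if `r_g e = r_g' e` then `{(inr e, true)}` matches `{(inr (r_g e), true)}` over both, and again compose.
(Note `ren (perm g) r_g '' {(inr e, true)} = {(inr (r_g e), true)}`, so the second case is like the first with `y g` this singleton and `K` the set of the
singletons.)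
-/

set_option autoImplicit false

namespace Pool.Agent.SymEF

open Equiv

theorem orbit_bound {R : Type} [Finite R] {ar : R → ℕ} (P : List (Schema ar)) (hP : HasInfiniteModel P) :
    ∃ a₀ : ℕ, ∀ (X : Type) [Fintype X] [DecidableEq X] (A : Finset X), a₀ ≤ A.card →
      ∀ p : Refutation (ground P X), ∃ C, p.Part C ∧
        A.card.choose (A.card / 16) * Nat.card (stab p A C) ≤ A.card.factorial := by
  classical
  obtain ⟨M, hM, I, hI⟩ := hP
  obtain ⟨K1, hK1⟩ := (Set.finite_range ar).bddAbove
  obtain ⟨K2, hK2⟩ := ((List.finite_toSet P).image Schema.k).bddAbove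
  refine ⟨16 * (K1 + K2 + 1) + 64, ?_⟩
  intro X _ _ A hA p
  by_contra hcon
  have hcon' : ∀ C, p.Part C →
      A.card.factorial < Nat.card (stab p A C) * A.card.choose (A.card / 16) := by
    intro C hC
    by_contra h
    rw [not_lt, mul_comm] at h
    exact hcon ⟨C, hC, h⟩
  refine no_small_supports I hI p A (A.card / 16) (by omega) ?_ ?_ ?_
  · intro r
    have h3 : ar r ≤ K1 := hK1 (Set.mem_range_self r)
    omega
  · intro S hS
    have h3 : S.k ≤ K2 := hK2 (Set.mem_image_of_mem Schema.k hS)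
    omega
  · intro C hC
    obtain ⟨D, hD, hc, hsp⟩ := small_index_on A (stab p A C)
      (fun g hg x hx => (mem_stab p A C g).1 hg |>.1 x hx) (by omega) (hcon' C hC)
    exact ⟨D, hD, hc.le, fun t ht hf => ((mem_stab p A C t).1 (hsp t ht hf)).2⟩

theorem card_le_of_fibre {Γ Y : Type} [Group Γ] [Finite Γ] (G H : Subgroup Γ) (K : Set Y) (hK : K.Finite) (y : Γ → Y)
    (hy : ∀ g ∈ G, y g ∈ K) (h : ∀ g ∈ G, ∀ g' ∈ G, y g = y g' → g⁻¹ * g' ∈ H) :
    Nat.card G ≤ K.ncard * Nat.card H := by
  classical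
  have hcG : Nat.card G = ((G : Set Γ).toFinite.toFinset).card := by
    rw [← Set.ncard_eq_toFinset_card (G : Set Γ) (Set.toFinite _), Set.ncard_def]
    rfl
  have hcH : Nat.card H = ((H : Set Γ).toFinite.toFinset).card := by
    rw [← Set.ncard_eq_toFinset_card (H : Set Γ) (Set.toFinite _), Set.ncard_def]
    rfl
  have hcK : K.ncard = hK.toFinset.card := Set.ncard_eq_toFinset_card K hK
  rw [hcG, hcK, mul_comm, hcH]
  refine Finset.card_le_mul_card_image_of_maps_to (f := y) ?_ _ ?_
  · intro g hg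
    rw [Set.Finite.mem_toFinset] at hg ⊢
    exact hy g hg
  · intro b _
    rcases Finset.eq_empty_or_nonempty
      (Finset.filter (fun a => y a = b) ((G : Set Γ).toFinite.toFinset)) with h0 | ⟨g0, h0⟩
    · rw [h0, Finset.card_empty]
      exact Nat.zero_le _
    · rw [Finset.mem_filter, Set.Finite.mem_toFinset] at h0
      refine Finset.card_le_card_of_injOn (fun a => g0⁻¹ * a) ?_ ?_
      · intro a ha
        rw [Finset.mem_coe, Finset.mem_filter, Set.Finite.mem_toFinset] at ha
        rw [Finset.mem_coe, Set.Finite.mem_toFinset]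
        exact h g0 h0.1 a ha.1 (by rw [h0.2, ha.2])
      · intro a _ a' _ haa
        exact mul_left_cancel haa

/-- The composition of the two symmetries. -/
theorem EW8_stab {R X : Type} [Fintype X] {ar : R → ℕ} {P : List (Schema ar)} (A : Finset X)
    (G : Subgroup (Perm X)) (hG : ∀ g ∈ G, ∀ x, x ∉ A → g x = x) (p : Refutation (ground P X))
    (r : Perm X → Perm p.E)
    (hr : ∀ g ∈ G, ∀ e, p.dfn (r g e) = ren (Atom.perm ar g) (r g) '' p.dfn e)
    (C : Set ((Atom ar X ⊕ p.E) × Bool)) (g g' : Perm X) (hg : g ∈ G) (hg' : g' ∈ G)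
    (he : ren (Atom.perm ar g) (r g) '' C = ren (Atom.perm ar g') (r g') '' C) :
    g⁻¹ * g' ∈ stab p A C := by
  rw [mem_stab]
  refine ⟨hG _ (G.mul_mem (G.inv_mem hg) hg'), ?_⟩
  have hinv : ∀ v, (Atom.perm ar g)⁻¹ (Atom.perm ar g v) = v := fun v =>
    (Atom.perm ar g).symm_apply_apply v
  have h1 := matchSet_of_image (Atom.perm ar g') (r g') C
  have h2 := matchSet_symm (Atom.perm ar g) ((Atom.perm ar g)⁻¹ : Perm (Atom ar X)) hinv
    _ _ _ (matchSet_of_image (Atom.perm ar g) (r g) C)
  rw [he] at h2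
  have h3 := matchSet_comp _ _ _ _ _ _ _ h1 h2
  have b1 := bisim_of_perm p.dfn (Atom.perm ar g') (r g') (hr g' hg')
  have b2 := bisim_symm p.dfn (Atom.perm ar g) ((Atom.perm ar g)⁻¹ : Perm (Atom ar X)) hinv _
    (bisim_of_perm p.dfn (Atom.perm ar g) (r g) (hr g hg))
  have b3 := bisim_comp p.dfn _ _ _ _ b1 b2
  have e : (Atom.perm ar (g⁻¹ * g') : Atom ar X → Atom ar X) =
      ((Atom.perm ar g)⁻¹ : Perm (Atom ar X)) ∘ (Atom.perm ar g') := by
    rw [Atom.perm_mul, Atom.perm_inv]
    rfl
  rw [e]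
  exact ⟨_, b3, h3⟩

theorem card_le_size {R X : Type} [Fintype X] {ar : R → ℕ} {P : List (Schema ar)} (A : Finset X)
    (G : Subgroup (Perm X)) (hG : ∀ g ∈ G, ∀ x, x ∉ A → g x = x) (p : Refutation (ground P X))
    (hs : ∀ g ∈ G, p.Sym (Atom.perm ar g)) (C : Set ((Atom ar X ⊕ p.E) × Bool)) (hC : p.Part C) :
    Nat.card G ≤ p.size * Nat.card (stab p A C) := by
  classical
  choose! r hr using hs
  have hfin : Finite p.E := p.finE
  have key : ∀ K : Set (Set ((Atom ar X ⊕ p.E) × Bool)), K.Finite → K.ncard ≤ p.size →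
      (∀ g ∈ G, ren (Atom.perm ar g) (r g) '' C ∈ K) →
      Nat.card G ≤ p.size * Nat.card (stab p A C) := by
    intro K hK hKc hy
    refine (card_le_of_fibre G (stab p A C) K hK
      (fun g => ren (Atom.perm ar g) (r g) '' C) hy ?_).trans (Nat.mul_le_mul hKc le_rfl)
    intro g hg g' hg' he
    exact EW8_stab A G hG p r (fun g hg => (hr g hg).1) C g g' hg hg' he
  rcases hC with hC | ⟨e, rfl⟩
  · refine key p.lines p.finL ?_ fun g hg => (hr g hg).2 C hC
    unfold Refutation.size
    exact Nat.le_add_left _ _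
  · refine key (Set.range fun e : p.E => {((Sum.inr e : Atom ar X ⊕ p.E), true)})
      (Set.finite_range _) ?_ ?_
    · unfold Refutation.size
      refine le_trans ?_ (Nat.le_add_right _ _)
      rw [← Set.image_univ, ← Set.ncard_univ]
      exact Set.ncard_image_le Set.finite_univ
    · intro g _
      refine ⟨r g e, ?_⟩
      rw [Set.image_singleton]
      rfl

theorem lower_bound {R : Type} [Finite R] {ar : R → ℕ} (P : List (Schema ar)) (hP : HasInfiniteModel P) :
    ∃ a₀ : ℕ, ∀ (X : Type) [Fintype X] [DecidableEq X] (A : Finset X) (G : Subgroup (Perm X)),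
      (∀ g ∈ G, ∀ x, x ∉ A → g x = x) → a₀ ≤ A.card → ∀ p : Refutation (ground P X),
      (∀ g ∈ G, p.Sym (Atom.perm ar g)) →
      A.card.choose (A.card / 16) * Nat.card G ≤ p.size * A.card.factorial := by
  obtain ⟨a₀, h⟩ := orbit_bound P hP
  refine ⟨a₀, ?_⟩
  intro X _ _ A G hG hA p hs
  obtain ⟨C, hC, hle⟩ := h X A hA p
  have h1 := card_le_size A G hG p hs C hC
  calc A.card.choose (A.card / 16) * Nat.card G
      ≤ A.card.choose (A.card / 16) * (p.size * Nat.card (stab p A C)) :=
        Nat.mul_le_mul le_rfl h1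
    _ = p.size * (A.card.choose (A.card / 16) * Nat.card (stab p A C)) := by ring
    _ ≤ p.size * A.card.factorial := Nat.mul_le_mul le_rfl hle

end Pool.Agent.SymEF
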