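import Pool.Agent.SY.EVDefs

/-!
# Definitions for the block EW: circuits up to the names of the extension variables

Every extension variable `e` of a refutation stands for a circuit (unfold the definitions). A renaming `g` of the variables maps
circuits to circuits; that the image of the circuit `e` is the circuit `e'` is expressed by a relation `ρ` with `ρ e e'` which
is compatible with the definitions (a bisimulation).
-/

set_option autoImplicit false

namespace Pool.Agent.SymEF

open Equiv

variable {X M : Type}

/-- The literal `l'` is the image of the literal `l` under the renaming `g` of the variables, for the relation `ρ` on the extension variables. -/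
def Match {V E : Type} (g : V → V) (ρ : E → E → Prop) (l l' : (V ⊕ E) × Bool) : Prop :=
  l.2 = l'.2 ∧ ((∃ v, l.1 = Sum.inl v ∧ l'.1 = Sum.inl (g v)) ∨ ∃ e e', l.1 = Sum.inr e ∧ l'.1 = Sum.inr e' ∧ ρ e e')

/-- The set `C'` of literals is the image of the set `C`. -/
def MatchSet {V E : Type} (g : V → V) (ρ : E → E → Prop) (C C' : Set ((V ⊕ E) × Bool)) : Prop :=
  (∀ l ∈ C, ∃ l' ∈ C', Match g ρ l l') ∧ ∀ l' ∈ C', ∃ l ∈ C, Match g ρ l l'

/-- `ρ e e'` implies that the definition of `e'` is the image of the definition of `e`. -/
def Bisim {V E : Type} (dfn : E → Set ((V ⊕ E) × Bool)) (g : V → V) (ρ : E → E → Prop) : Prop :=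
  ∀ e e', ρ e e' → MatchSet g ρ (dfn e) (dfn e')

/-- The renaming `g` of the variables maps the clause `C` of the refutation to itself: here the extension variables
are regarded as circuits, i.e. unfolded, and clauses as sets of circuits. -/
def Refutation.Inv {V : Type} {F : Set (Set (V × Bool))} (p : Refutation F) (g : V → V)
    (C : Set ((V ⊕ p.E) × Bool)) : Prop :=
  ∃ ρ : p.E → p.E → Prop, Bisim p.dfn g ρ ∧ MatchSet g ρ C C

/-- `C` is a line of the refutation or one of its circuits, i.e. the set which consists of an extension variable. -/
def Refutation.Part {V : Type} {F : Set (Set (V × Bool))} (p : Refutation F) (C : Set ((V ⊕ p.E) × Bool)) : Prop :=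
  C ∈ p.lines ∨ ∃ e, C = {((Sum.inr e : V ⊕ p.E), true)}

/-- `D` supports `C`: all even permutations which fix the points outside of `A` and those of `D` map `C` to itself. -/
def Supp {R : Type} {ar : R → ℕ} {P : List (Schema ar)} [Fintype X] [DecidableEq X] (p : Refutation (ground P X))
    (A D : Finset X) (C : Set ((Atom ar X ⊕ p.E) × Bool)) : Prop :=
  ∀ t ∈ alternatingGroup X, Fixes A D t → p.Inv (Atom.perm ar t) C

end Pool.Agent.SymEF
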