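import Pool.Agent.SY.FOb

/-!
# TASK FO (every first-order sentence is a principle; assembly, easy)

PROOF. By induction on the formula, `HasName L ψ` for all `ψ : L.BoundedFormula Empty k` (`hasName_falsum`, `hasName_equal`, `hasName_rel`, `hasName_imp`,
`hasName_all`). For the sentence `φ` (a `BoundedFormula Empty 0`) take the data `Q, aq, P, N, hN`; `R = (Σ n, L.Relations n) ⊕ Q`, `ar = Sum.elim (arL L) aq`, and the list
`⟨0, [rel true (inr N) (fun i => Fin.cast hN i)], []⟩ :: P`. If `I` is a model of it then `structOf L (a ↦ I ⟨inl a.1, a.2⟩)` satisfies `φ`. Conversely let `M` be an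
`L`-structure with `M ⊨ φ`, `I₀ a := RelMap a.1.2 a.2`; then `structOf L I₀` is the given structure (`Language.Structure.ext`; the function symbols are from an
empty type), take the expansion `I`. (`Sentence.Realize φ = Formula.Realize φ default = BoundedFormula.Realize φ default default`; the functions
`Empty → M` and `Fin 0 → M` are unique: `Subsingleton.elim`.)
-/

set_option autoImplicit false

namespace Pool.Agent.SymEF

open FirstOrder

private theorem FO_name (L : FirstOrder.Language.{0, 0}) [L.IsRelational] {k : ℕ} (ψ : L.BoundedFormula Empty k) :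
    HasName L ψ := by
  induction ψ with
  | falsum => exact hasName_falsum L _
  | equal t₁ t₂ => exact hasName_equal L _ t₁ t₂
  | rel r ts => exact hasName_rel L _ _ r ts
  | imp ψ₁ ψ₂ h₁ h₂ => exact hasName_imp L _ ψ₁ ψ₂ h₁ h₂
  | all ψ h => exact hasName_all L _ ψ h

theorem first_order (L : FirstOrder.Language.{0, 0}) [L.IsRelational] [Finite (Σ n, L.Relations n)] (φ : L.Sentence) :
    ∃ (R : Type) (_ : Finite R) (ar : R → ℕ) (P : List (Schema ar)), ∀ M : Type,
      (∃ I : Atom ar M → Prop, ∀ S ∈ P, S.Holds I) ↔ ∃ _ : L.Structure M, M ⊨ φ := by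
  obtain ⟨Q, fQ, aq, P, N, hN, E, U⟩ := FO_name L (k := 0) φ
  refine ⟨(Σ n, L.Relations n) ⊕ Q, inferInstance, Sum.elim (arL L) aq,
    ⟨0, [.rel true (Sum.inr N) (fun i => Fin.cast hN i)], []⟩ :: P, ?_⟩
  intro M
  have hS : ∀ I : Atom (Sum.elim (arL L) aq) M → Prop,
      Schema.Holds I ⟨0, [.rel true (Sum.inr N) (fun i => Fin.cast hN i)], []⟩ ↔
        ∀ v : Fin 0 → M, I ⟨Sum.inr N, fun i => v (Fin.cast hN i)⟩ := by
    intro I
    unfold Schema.Holds
    refine forall_congr' fun v => ?_
    simp only [List.exists_mem_cons_iff, List.not_mem_nil, false_and, exists_false, or_false]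
    show (I ⟨Sum.inr N, fun i => v (Fin.cast hN i)⟩ ↔ true = true) ↔ _
    simp
  constructor
  · rintro ⟨I, hI⟩
    refine ⟨structOf L fun a : Atom (arL L) M => I ⟨Sum.inl a.1, a.2⟩, ?_⟩
    have h1 := (hS I).1 (hI _ List.mem_cons_self) default
    have h2 := (U M I (fun S hS => hI S (List.mem_cons_of_mem _ hS)) default).1 h1
    have e1 : (Empty.elim : Empty → M) = default := Subsingleton.elim _ _
    rw [e1] at h2
    exact h2
  · rintro ⟨st, hst⟩
    obtain ⟨I, hI, hP⟩ := E M (fun a : Atom (arL L) M => st.RelMap a.1.2 a.2)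
    refine ⟨I, ?_⟩
    have e0 : (fun a : Atom (arL L) M => I ⟨Sum.inl a.1, a.2⟩) = fun a : Atom (arL L) M => st.RelMap a.1.2 a.2 := by
      funext a
      exact propext (hI a)
    have e2 : (structOf L fun a : Atom (arL L) M => st.RelMap a.1.2 a.2) = st := by
      refine FirstOrder.Language.Structure.ext ?_ ?_
      · funext n f
        exact isEmptyElim (α := L.Functions n) f
      · rfl
    intro S hS'
    rcases List.mem_cons.1 hS' with rfl | h
    · rw [hS]
      intro v
      refine (U M I hP v).2 ?_
      rw [e0, e2]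
      have e1 : (Empty.elim : Empty → M) = default := Subsingleton.elim _ _
      have e3 : v = default := Subsingleton.elim _ _
      rw [e1, e3]
      exact hst
    · exact hP S h

end Pool.Agent.SymEF
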