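import Pool.Agent.SY.Defs

/-!
# Definitions for the block FO (first-order sentences as principles)
-/

set_option autoImplicit false

namespace Pool.Agent.SymEF

open FirstOrder

variable {R R' : Type} {ar : R → ℕ} {ar' : R' → ℕ}

/-- The literal with the relation symbols replaced along `j`. -/
def FLit.map (j : R → R') (h : ∀ r, ar' (j r) = ar r) {k : ℕ} : FLit ar k → FLit ar' k
  | .rel s r args => .rel s (j r) (fun i => args (Fin.cast (h r) i))
  | .eq s i i' => .eq s i i'

/-- The sentence with the relation symbols replaced along `j`. -/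
def Schema.map (j : R → R') (h : ∀ r, ar' (j r) = ar r) (S : Schema ar) : Schema ar' :=
  ⟨S.k, S.nar.map (FLit.map j h), S.wid.map (FLit.map j h)⟩

/-- The arities of the relation symbols of the language `L`. -/
def arL (L : FirstOrder.Language.{0, 0}) (r : Σ n, L.Relations n) : ℕ := r.1

/-- The `L`-structure on `M` given by the truth of the atoms. -/
@[reducible] def structOf (L : FirstOrder.Language.{0, 0}) [L.IsRelational] {M : Type} (I : Atom (arL L) M → Prop) : L.Structure M where
  funMap := fun {n} f => isEmptyElim (α := L.Functions n) f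
  RelMap := fun {n} r v => I ⟨⟨n, r⟩, v⟩

/-- There is a finite set `P` of sentences in the symbols of `L` and finitely many new symbols, among them `N`, such that every
structure for the symbols of `L` has an expansion to a model of `P`, and in all models of `P`, `N` is equivalent to `ψ`. -/
def HasName (L : FirstOrder.Language.{0, 0}) [L.IsRelational] {k : ℕ} (ψ : L.BoundedFormula Empty k) : Prop :=
  ∃ (Q : Type) (_ : Finite Q) (aq : Q → ℕ) (P : List (Schema (Sum.elim (arL L) aq))) (N : Q) (hN : aq N = k),
    (∀ (M : Type) (I₀ : Atom (arL L) M → Prop), ∃ I : Atom (Sum.elim (arL L) aq) M → Prop,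
      (∀ a : Atom (arL L) M, I ⟨Sum.inl a.1, a.2⟩ ↔ I₀ a) ∧ ∀ S ∈ P, S.Holds I) ∧
    ∀ (M : Type) (I : Atom (Sum.elim (arL L) aq) M → Prop), (∀ S ∈ P, S.Holds I) → ∀ v : Fin k → M,
      (I ⟨Sum.inr N, fun i => v (Fin.cast hN i)⟩ ↔
        @Language.BoundedFormula.Realize L M (structOf L fun a : Atom (arL L) M => I ⟨Sum.inl a.1, a.2⟩) Empty k ψ
          Empty.elim v)

end Pool.Agent.SymEF
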