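import Pool.Agent.SY.FODefs

/-!
# TASK FOa (names for falsum, equality and atomic formulas; easy)

PROOF of `map_holds`. Unfold: the literals of the mapped lists are `FLit.map j h l`; `(FLit.map j h l).Holds I v ↔ l.Holds I' v` with
`I' a := I ⟨j a.1, fun i => a.2 (Fin.cast (h a.1) i)⟩`, by cases on `l` (definitional; `v ∘ (args ∘ cast) = (v ∘ args) ∘ cast`).

PROOF of the names: `Q = Unit`, `aq _ = k`, `N = ()`, `hN = rfl`; write `N(x)` for the literal `rel true (Sum.inr ()) id`, `¬N(x)` for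
`rel false (Sum.inr ()) id`.
Falsum: `P = [⟨k, [¬N(x)], []⟩]`. The expansion: `N` everywhere false.
Equality `t₁ = t₂` (`BoundedFormula.equal`): the terms of a relational language over `Empty ⊕ Fin k` are variables `var (inr i)` (cases on the term:
`Term.var (Sum.inl e)` - `e : Empty`; `Term.func f _`: `f` in an empty type). `P = [⟨k, [¬N(x), eq true i j], []⟩, ⟨k, [N(x), eq false i j], []⟩]`.
The expansion: `N(v) := v i = v j`.
Relation `rel r ts` (`BoundedFormula.rel`, `r : L.Relations n`): `ts l = var (inr (u l))` for a function `u : Fin n → Fin k`.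
`P = [⟨k, [¬N(x), rel true (Sum.inl ⟨n, r⟩) u], []⟩, ⟨k, [N(x), rel false (Sum.inl ⟨n, r⟩) u], []⟩]`. The expansion: `N(v) := I₀ ⟨⟨n, r⟩, v ∘ u⟩`.
The `Realize` of these formulas: by `rfl`/`Iff.rfl` or `simp [BoundedFormula.Realize, Term.realize]`.
-/

set_option autoImplicit false

namespace Pool.Agent.SymEF

open FirstOrder

theorem FOa_lit {R R' M : Type} {ar : R → ℕ} {ar' : R' → ℕ} (j : R → R') (h : ∀ r, ar' (j r) = ar r)
    (I : Atom ar' M → Prop) {k : ℕ} (l : FLit ar k) (v : Fin k → M) :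
    (FLit.map j h l).Holds I v ↔
      l.Holds (fun a : Atom ar M => I ⟨j a.1, fun i => a.2 (Fin.cast (h a.1) i)⟩) v := by
  cases l with
  | rel s r args => exact Iff.rfl
  | eq s i i' => exact Iff.rfl

theorem Schema.map_holds {R R' M : Type} {ar : R → ℕ} {ar' : R' → ℕ} (j : R → R') (h : ∀ r, ar' (j r) = ar r)
    (S : Schema ar) (I : Atom ar' M → Prop) :
    (S.map j h).Holds I ↔ S.Holds (fun a : Atom ar M => I ⟨j a.1, fun i => a.2 (Fin.cast (h a.1) i)⟩) := by
  have h1 : ∀ (k : ℕ) (ls : List (FLit ar k)) (v : Fin k → M),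
      (∃ l ∈ ls.map (FLit.map j h), l.Holds I v) ↔
        ∃ l ∈ ls, l.Holds (fun a : Atom ar M => I ⟨j a.1, fun i => a.2 (Fin.cast (h a.1) i)⟩) v := by
    intro k ls v
    constructor
    · rintro ⟨l, hl, hv⟩
      obtain ⟨l', hl', rfl⟩ := List.mem_map.1 hl
      exact ⟨l', hl', (FOa_lit j h I l' v).1 hv⟩
    · rintro ⟨l, hl, hv⟩
      exact ⟨FLit.map j h l, List.mem_map_of_mem hl, (FOa_lit j h I l v).2 hv⟩
  have h2 : ∀ v : Fin S.k → M,
      ((∃ l ∈ S.nar.map (FLit.map j h), l.Holds I v) ∨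
        ∃ y : M, ∃ l ∈ S.wid.map (FLit.map j h), l.Holds I (ext v y)) ↔
      ((∃ l ∈ S.nar, l.Holds (fun a : Atom ar M => I ⟨j a.1, fun i => a.2 (Fin.cast (h a.1) i)⟩) v) ∨
        ∃ y : M, ∃ l ∈ S.wid,
          l.Holds (fun a : Atom ar M => I ⟨j a.1, fun i => a.2 (Fin.cast (h a.1) i)⟩) (ext v y)) := by
    intro v
    exact or_congr (h1 _ _ _) (exists_congr fun y => h1 _ _ _)
  exact forall_congr' h2

/-- The expansion by one symbol. -/
def FOa_exp {L : FirstOrder.Language.{0, 0}} {M : Type} {k : ℕ} (I₀ : Atom (arL L) M → Prop)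
    (N : (Fin k → M) → Prop) : Atom (Sum.elim (arL L) (fun _ : Unit => k)) M → Prop
  | ⟨Sum.inl r, v⟩ => I₀ ⟨r, v⟩
  | ⟨Sum.inr _, v⟩ => N v

/-- The literals for the new symbol. -/
def FOa_N (L : FirstOrder.Language.{0, 0}) (k : ℕ) (s : Bool) :
    FLit (Sum.elim (arL L) (fun _ : Unit => k)) k :=
  FLit.rel s (Sum.inr ()) (fun i => i)

/-- The general form: a name from a list of sentences. -/
theorem FOa_hasName (L : FirstOrder.Language.{0, 0}) [L.IsRelational] {k : ℕ}
    (ψ : L.BoundedFormula Empty k) (P : List (Schema (Sum.elim (arL L) (fun _ : Unit => k))))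
    (h : ∀ (M : Type) (I : Atom (Sum.elim (arL L) (fun _ : Unit => k)) M → Prop),
      (∀ S ∈ P, S.Holds I) ↔ ∀ v : Fin k → M, (I ⟨Sum.inr (), v⟩ ↔
        @Language.BoundedFormula.Realize L M (structOf L fun a : Atom (arL L) M => I ⟨Sum.inl a.1, a.2⟩) Empty k ψ
          Empty.elim v)) : HasName L ψ := by
  refine ⟨Unit, inferInstance, fun _ => k, P, (), rfl, ?_, ?_⟩
  · intro M I₀
    refine ⟨FOa_exp I₀ (fun v => @Language.BoundedFormula.Realize L M (structOf L I₀) Empty k ψ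
      Empty.elim v), fun a => Iff.rfl, ?_⟩
    rw [h]
    intro v
    exact Iff.rfl
  · intro M I hI v
    exact (h M I).1 hI v

theorem hasName_falsum (L : FirstOrder.Language.{0, 0}) [L.IsRelational] (k : ℕ) :
    HasName L (Language.BoundedFormula.falsum : L.BoundedFormula Empty k) := by
  refine FOa_hasName L _ [⟨k, [FOa_N L k false], []⟩] ?_
  intro M I
  rw [List.forall_mem_singleton]
  refine forall_congr' fun v => ?_
  change ((∃ l ∈ [FOa_N L k false], l.Holds I v) ∨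
    ∃ y : M, ∃ l ∈ ([] : List (FLit (Sum.elim (arL L) (fun _ : Unit => k)) (k + 1))),
      l.Holds I (ext v y)) ↔ (I ⟨Sum.inr (), v⟩ ↔ False)
  have e1 : (FOa_N L k false).Holds I v ↔ (I ⟨Sum.inr (), v⟩ ↔ false = true) := Iff.rfl
  simp only [List.mem_singleton, exists_eq_left, List.not_mem_nil, false_and, exists_false,
    or_false, e1, Bool.false_eq_true]

/-- Terms of a relational language. -/
theorem FOa_term (L : FirstOrder.Language.{0, 0}) [L.IsRelational] {k : ℕ}
    (t : L.Term (Empty ⊕ Fin k)) : ∃ i : Fin k, t = Language.Term.var (Sum.inr i) := by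
  cases t with
  | var a =>
    cases a with
    | inl e => exact e.elim
    | inr i => exact ⟨i, rfl⟩
  | func f _ => exact isEmptyElim f

/-- Two sentences which say that the new symbol is equivalent to a literal. -/
theorem FOa_two (L : FirstOrder.Language.{0, 0}) {k : ℕ}
    (lt lf : FLit (Sum.elim (arL L) (fun _ : Unit => k)) k) (M : Type)
    (I : Atom (Sum.elim (arL L) (fun _ : Unit => k)) M → Prop) (B : (Fin k → M) → Prop)
    (ht : ∀ v, lt.Holds I v ↔ B v) (hf : ∀ v, lf.Holds I v ↔ ¬ B v) :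
    (∀ S ∈ ([⟨k, [FOa_N L k false, lt], []⟩, ⟨k, [FOa_N L k true, lf], []⟩] :
      List (Schema (Sum.elim (arL L) (fun _ : Unit => k)))), S.Holds I) ↔
      ∀ v : Fin k → M, (I ⟨Sum.inr (), v⟩ ↔ B v) := by
  rw [List.forall_mem_cons, List.forall_mem_singleton]
  change ((∀ v : Fin k → M, (∃ l ∈ [FOa_N L k false, lt], l.Holds I v) ∨
    ∃ y : M, ∃ l ∈ ([] : List (FLit (Sum.elim (arL L) (fun _ : Unit => k)) (k + 1))),
      l.Holds I (ext v y)) ∧ (∀ v : Fin k → M, (∃ l ∈ [FOa_N L k true, lf], l.Holds I v) ∨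
    ∃ y : M, ∃ l ∈ ([] : List (FLit (Sum.elim (arL L) (fun _ : Unit => k)) (k + 1))),
      l.Holds I (ext v y))) ↔ _
  rw [← forall_and]
  refine forall_congr' fun v => ?_
  have e1 : (FOa_N L k false).Holds I v ↔ (I ⟨Sum.inr (), v⟩ ↔ false = true) := Iff.rfl
  have e2 : (FOa_N L k true).Holds I v ↔ (I ⟨Sum.inr (), v⟩ ↔ true = true) := Iff.rfl
  simp only [List.mem_cons, exists_eq_or_imp, List.not_mem_nil, false_and, exists_false,
    or_false, e1, e2, Bool.false_eq_true, iff_false, iff_true, exists_eq_left]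
  rw [ht, hf]
  tauto

theorem hasName_equal (L : FirstOrder.Language.{0, 0}) [L.IsRelational] (k : ℕ) (t₁ t₂ : L.Term (Empty ⊕ Fin k)) :
    HasName L (Language.BoundedFormula.equal t₁ t₂) := by
  obtain ⟨i, rfl⟩ := FOa_term L t₁
  obtain ⟨j, rfl⟩ := FOa_term L t₂
  refine FOa_hasName L _ [⟨k, [FOa_N L k false, FLit.eq true i j], []⟩,
    ⟨k, [FOa_N L k true, FLit.eq false i j], []⟩] ?_
  intro M I
  refine FOa_two L (FLit.eq true i j) (FLit.eq false i j) M I _ ?_ ?_
  · intro v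
    change (v i = v j ↔ true = true) ↔ (v i = v j)
    simp
  · intro v
    change (v i = v j ↔ false = true) ↔ ¬ (v i = v j)
    simp

theorem hasName_rel (L : FirstOrder.Language.{0, 0}) [L.IsRelational] (k n : ℕ) (r : L.Relations n)
    (ts : Fin n → L.Term (Empty ⊕ Fin k)) : HasName L (Language.BoundedFormula.rel r ts) := by
  choose u hu using fun l => FOa_term L (ts l)
  obtain rfl : ts = fun l => Language.Term.var (Sum.inr (u l)) := funext hu
  refine FOa_hasName L _ [⟨k, [FOa_N L k false, FLit.rel true (Sum.inl ⟨n, r⟩) u], []⟩,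
    ⟨k, [FOa_N L k true, FLit.rel false (Sum.inl ⟨n, r⟩) u], []⟩] ?_
  intro M I
  refine FOa_two L (FLit.rel true (Sum.inl ⟨n, r⟩) u) (FLit.rel false (Sum.inl ⟨n, r⟩) u) M I _ ?_ ?_
  · intro v
    change (I ⟨Sum.inl ⟨n, r⟩, v ∘ u⟩ ↔ true = true) ↔ I ⟨Sum.inl ⟨n, r⟩, v ∘ u⟩
    simp
  · intro v
    change (I ⟨Sum.inl ⟨n, r⟩, v ∘ u⟩ ↔ false = true) ↔ ¬ I ⟨Sum.inl ⟨n, r⟩, v ∘ u⟩
    simp

end Pool.Agent.SymEF
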