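import Pool.Agent.SY.FOa

/-!
# TASK FOb (names for implications and quantified formulas)

PROOF of `hasName_imp`. Let `Q₁, aq₁, P₁, N₁, h₁` and `Q₂, aq₂, P₂, N₂, h₂` be the data for `ψ₁`, `ψ₂`. `Q = Q₁ ⊕ Q₂ ⊕ Unit`, `aq = Sum.elim aq₁ (Sum.elim aq₂
(fun _ => k))`, `N = inr (inr ())`. `j₁ : Σ.. ⊕ Q₁ → Σ.. ⊕ Q` maps `inl r` to `inl r`, `inr q` to `inr (inl q)`; `j₂` similarly. They preserve the arities
(cases, `rfl`). `P = P₁.map (Schema.map j₁ _) ++ P₂.map (Schema.map j₂ _) ++ [⟨k, [¬N(x), ¬N₁(x), N₂(x)], []⟩, ⟨k, [N(x), N₁(x)], []⟩, ⟨k, [N(x), ¬N₂(x)], []⟩]`, where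
`N₁(x)` is `rel true (inr (inl N₁)) (fun i => Fin.cast h₁ i)` etc.
Expansion: from `I₀` take the expansions `I₁`, `I₂`, and `I` is `I₀` on the symbols of `L`, `I₁` on the symbols of `Q₁`, `I₂` on those of `Q₂`, and `N(v) := (I₁ ⟨N₁, v ∘ cast⟩
→ I₂ ⟨N₂, v ∘ cast⟩)`. By `Schema.map_holds` the mapped sentences hold in `I` since `a ↦ I ⟨j₁ a.1, ..⟩` is the structure `I₁` (on the symbols of `L` use that
`I₁` extends `I₀`; `funext`, `propext`, cases on the symbol).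
Models: if `I` is a model of `P` then `a ↦ I ⟨j₁ a.1, ..⟩` is a model of `P₁` (`Schema.map_holds`) whose restriction to the symbols of `L` is that of `I`, so `N₁` is
equivalent to `ψ₁` in `I`, in the same way for `N₂`; the three last sentences say `N ↔ (N₁ → N₂)`. `Realize` of `imp` is the implication (`BoundedFormula.realize_imp`).

PROOF of `hasName_all`. Data `Q₁, aq₁, P₁, N₁, h₁ : aq₁ N₁ = k + 1` for `ψ`. `Q = Q₁ ⊕ Unit`, `N = inr ()` of arity `k`, `j₁` as before,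
`P = P₁.map (Schema.map j₁ _) ++ [⟨k + 1, [¬N(x₀..x_{k-1}), N₁(x₀..x_k)], []⟩, ⟨k, [N(x)], [¬N₁(x, y)]⟩]`; in the first of them `N` has the arguments
`Fin.castSucc`, in both `N₁` has the arguments `fun i => Fin.cast h₁ i`. Expansion: `N(v) := ∀ a, I₁ ⟨N₁, (Fin.snoc v a) ∘ cast⟩`. Models: the two sentences say
`N(v) ↔ ∀ a, N₁(v, a)` (`ext v a` is `Fin.snoc v a`). `BoundedFormula.realize_all`.
-/

set_option autoImplicit false

namespace Pool.Agent.SymEF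

open FirstOrder

private theorem FOb_h {X Q₁ Q : Type} (a : X → ℕ) (aq₁ : Q₁ → ℕ) (aq : Q → ℕ) (j : Q₁ → Q)
    (hj : ∀ q, aq (j q) = aq₁ q) (r : X ⊕ Q₁) :
    Sum.elim a aq (Sum.map id j r) = Sum.elim a aq₁ r := by
  rcases r with r | q
  · rfl
  · exact hj q

/-- The structure for the smaller set of symbols. -/
private def FOb_res {X Q₁ Q M : Type} (a : X → ℕ) (aq₁ : Q₁ → ℕ) (aq : Q → ℕ) (j : Q₁ → Q)
    (hj : ∀ q, aq (j q) = aq₁ q) (I : Atom (Sum.elim a aq) M → Prop) : Atom (Sum.elim a aq₁) M → Prop :=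
  fun b => I ⟨Sum.map id j b.1, fun i => b.2 (Fin.cast (FOb_h a aq₁ aq j hj b.1) i)⟩

private theorem FOb_eq {X Q₁ Q M : Type} (a : X → ℕ) (aq₁ : Q₁ → ℕ) (aq : Q → ℕ) (j : Q₁ → Q)
    (hj : ∀ q, aq (j q) = aq₁ q) (I : Atom (Sum.elim a aq) M → Prop) (I₁ : Atom (Sum.elim a aq₁) M → Prop)
    (hl : ∀ (r : X) (v : Fin (a r) → M), I ⟨Sum.inl r, v⟩ ↔ I₁ ⟨Sum.inl r, v⟩)
    (hr : ∀ (q : Q₁) (v : Fin (aq₁ q) → M), I ⟨Sum.inr (j q), fun i => v (Fin.cast (hj q) i)⟩ ↔ I₁ ⟨Sum.inr q, v⟩) :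
    FOb_res a aq₁ aq j hj I = I₁ := by
  funext b
  obtain ⟨r | q, v⟩ := b
  · exact propext (hl r v)
  · exact propext (hr q v)

private theorem FOb_map {X Q₁ Q M : Type} (a : X → ℕ) (aq₁ : Q₁ → ℕ) (aq : Q → ℕ) (j : Q₁ → Q)
    (hj : ∀ q, aq (j q) = aq₁ q) (I : Atom (Sum.elim a aq) M → Prop) (S : Schema (Sum.elim a aq₁)) :
    (S.map (Sum.map id j) (FOb_h a aq₁ aq j hj)).Holds I ↔ S.Holds (FOb_res a aq₁ aq j hj I) :=
  Schema.map_holds _ _ S I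

/-- Truth of a sentence without existential part. -/
private theorem FOb_nar {R M : Type} {ar : R → ℕ} (I : Atom ar M → Prop) (k : ℕ) (l : List (FLit ar k)) :
    Schema.Holds I ⟨k, l, []⟩ ↔ ∀ v : Fin k → M, ∃ x ∈ l, x.Holds I v := by
  unfold Schema.Holds
  simp

theorem hasName_imp (L : FirstOrder.Language.{0, 0}) [L.IsRelational] (k : ℕ) (ψ₁ ψ₂ : L.BoundedFormula Empty k)
    (h₁ : HasName L ψ₁) (h₂ : HasName L ψ₂) : HasName L (ψ₁.imp ψ₂) := by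
  obtain ⟨Q₁, fQ₁, aq₁, P₁, N₁, hN₁, E₁, U₁⟩ := h₁
  obtain ⟨Q₂, fQ₂, aq₂, P₂, N₂, hN₂, E₂, U₂⟩ := h₂
  let aq : Q₁ ⊕ (Q₂ ⊕ Unit) → ℕ := Sum.elim aq₁ (Sum.elim aq₂ (fun _ => k))
  let j₁ : Q₁ → Q₁ ⊕ (Q₂ ⊕ Unit) := Sum.inl
  let j₂ : Q₂ → Q₁ ⊕ (Q₂ ⊕ Unit) := fun q => Sum.inr (Sum.inl q)
  have hj₁ : ∀ q, aq (j₁ q) = aq₁ q := fun _ => rfl
  have hj₂ : ∀ q, aq (j₂ q) = aq₂ q := fun _ => rfl
  let lN : Bool → FLit (Sum.elim (arL L) aq) k := fun s => .rel s (Sum.inr (Sum.inr (Sum.inr ()))) (fun i => i)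
  let l₁ : Bool → FLit (Sum.elim (arL L) aq) k := fun s => .rel s (Sum.inr (j₁ N₁)) (fun i => Fin.cast hN₁ i)
  let l₂ : Bool → FLit (Sum.elim (arL L) aq) k := fun s => .rel s (Sum.inr (j₂ N₂)) (fun i => Fin.cast hN₂ i)
  let T : List (Schema (Sum.elim (arL L) aq)) :=
    [⟨k, [lN false, l₁ false, l₂ true], []⟩, ⟨k, [lN true, l₁ true], []⟩, ⟨k, [lN true, l₂ false], []⟩]
  have hT : ∀ (M : Type) (I : Atom (Sum.elim (arL L) aq) M → Prop), (∀ S ∈ T, S.Holds I) ↔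
      ∀ v : Fin k → M, (I ⟨Sum.inr (Sum.inr (Sum.inr ())), v⟩ ↔
        (I ⟨Sum.inr (j₁ N₁), fun i => v (Fin.cast hN₁ i)⟩ → I ⟨Sum.inr (j₂ N₂), fun i => v (Fin.cast hN₂ i)⟩)) := by
    intro M I
    have e1 : ∀ v : Fin k → M, ∀ s, (lN s).Holds I v ↔ (I ⟨Sum.inr (Sum.inr (Sum.inr ())), v⟩ ↔ s = true) :=
      fun _ _ => Iff.rfl
    have e2 : ∀ v : Fin k → M, ∀ s, (l₁ s).Holds I v ↔ (I ⟨Sum.inr (j₁ N₁), fun i => v (Fin.cast hN₁ i)⟩ ↔ s = true) :=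
      fun _ _ => Iff.rfl
    have e3 : ∀ v : Fin k → M, ∀ s, (l₂ s).Holds I v ↔ (I ⟨Sum.inr (j₂ N₂), fun i => v (Fin.cast hN₂ i)⟩ ↔ s = true) :=
      fun _ _ => Iff.rfl
    simp only [T, List.forall_mem_cons, FOb_nar, List.exists_mem_cons_iff, e1, e2, e3]
    simp only [List.not_mem_nil, false_and, exists_false, or_false, Bool.false_eq_true, iff_false, iff_true,
      IsEmpty.forall_iff, implies_true, and_true]
    constructor
    · rintro ⟨h1, h2, h3⟩ v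
      have := h1 v
      have := h2 v
      have := h3 v
      tauto
    · intro h
      refine ⟨fun v => ?_, fun v => ?_, fun v => ?_⟩
      · have := h v
        tauto
      · have := h v
        tauto
      · have := h v
        tauto
  refine ⟨Q₁ ⊕ (Q₂ ⊕ Unit), inferInstance, aq,
    P₁.map (Schema.map (Sum.map id j₁) (FOb_h (arL L) aq₁ aq j₁ hj₁)) ++
      (P₂.map (Schema.map (Sum.map id j₂) (FOb_h (arL L) aq₂ aq j₂ hj₂)) ++ T),
    Sum.inr (Sum.inr ()), rfl, ?_, ?_⟩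
  · intro M I₀
    obtain ⟨I₁, e₁, s₁⟩ := E₁ M I₀
    obtain ⟨I₂, e₂, s₂⟩ := E₂ M I₀
    let I : Atom (Sum.elim (arL L) aq) M → Prop := fun a => match a with
      | ⟨Sum.inl r, v⟩ => I₀ ⟨r, v⟩
      | ⟨Sum.inr (Sum.inl q), v⟩ => I₁ ⟨Sum.inr q, v⟩
      | ⟨Sum.inr (Sum.inr (Sum.inl q)), v⟩ => I₂ ⟨Sum.inr q, v⟩
      | ⟨Sum.inr (Sum.inr (Sum.inr _)), v⟩ => (I₁ ⟨Sum.inr N₁, fun i => v (Fin.cast hN₁ i)⟩ →
          I₂ ⟨Sum.inr N₂, fun i => v (Fin.cast hN₂ i)⟩)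
    refine ⟨I, fun a => Iff.rfl, ?_⟩
    have r₁ : FOb_res (arL L) aq₁ aq j₁ hj₁ I = I₁ :=
      FOb_eq _ _ _ _ _ _ _ (fun r v => (e₁ ⟨r, v⟩).symm) (fun q v => Iff.rfl)
    have r₂ : FOb_res (arL L) aq₂ aq j₂ hj₂ I = I₂ :=
      FOb_eq _ _ _ _ _ _ _ (fun r v => (e₂ ⟨r, v⟩).symm) (fun q v => Iff.rfl)
    intro S hS
    rw [List.mem_append, List.mem_append, List.mem_map, List.mem_map] at hS
    rcases hS with ⟨S', hS', rfl⟩ | ⟨S', hS', rfl⟩ | hS
    · refine (FOb_map (arL L) aq₁ aq j₁ hj₁ I S').2 ?_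
      rw [r₁]
      exact s₁ S' hS'
    · refine (FOb_map (arL L) aq₂ aq j₂ hj₂ I S').2 ?_
      rw [r₂]
      exact s₂ S' hS'
    · exact (hT M I).2 (fun v => Iff.rfl) S hS
  · intro M I hI v
    have s₁ : ∀ S ∈ P₁, S.Holds (FOb_res (arL L) aq₁ aq j₁ hj₁ I) := by
      intro S hS
      rw [← FOb_map]
      exact hI _ (List.mem_append_left _ (List.mem_map_of_mem hS))
    have s₂ : ∀ S ∈ P₂, S.Holds (FOb_res (arL L) aq₂ aq j₂ hj₂ I) := by
      intro S hS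
      rw [← FOb_map]
      exact hI _ (List.mem_append_right _ (List.mem_append_left _ (List.mem_map_of_mem hS)))
    have s₃ := (hT M I).1 (fun S hS => hI S (List.mem_append_right _ (List.mem_append_right _ hS))) v
    have u₁ := U₁ M _ s₁ v
    have u₂ := U₂ M _ s₂ v
    refine s₃.trans ?_
    exact imp_congr u₁ u₂

theorem hasName_all (L : FirstOrder.Language.{0, 0}) [L.IsRelational] (k : ℕ) (ψ : L.BoundedFormula Empty (k + 1))
    (h : HasName L ψ) : HasName L ψ.all := by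
  obtain ⟨Q₁, fQ₁, aq₁, P₁, N₁, hN₁, E₁, U₁⟩ := h
  let aq : Q₁ ⊕ Unit → ℕ := Sum.elim aq₁ (fun _ => k)
  let j₁ : Q₁ → Q₁ ⊕ Unit := Sum.inl
  have hj₁ : ∀ q, aq (j₁ q) = aq₁ q := fun _ => rfl
  let T : List (Schema (Sum.elim (arL L) aq)) :=
    [⟨k + 1, [.rel false (Sum.inr (Sum.inr ())) (fun i => Fin.castSucc i),
        .rel true (Sum.inr (j₁ N₁)) (fun i => Fin.cast hN₁ i)], []⟩,
      ⟨k, [.rel true (Sum.inr (Sum.inr ())) (fun i => i)], [.rel false (Sum.inr (j₁ N₁)) (fun i => Fin.cast hN₁ i)]⟩]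
  have hT : ∀ (M : Type) (I : Atom (Sum.elim (arL L) aq) M → Prop), (∀ S ∈ T, S.Holds I) ↔
      ∀ v : Fin k → M, (I ⟨Sum.inr (Sum.inr ()), v⟩ ↔
        ∀ y : M, I ⟨Sum.inr (j₁ N₁), fun i => ext v y (Fin.cast hN₁ i)⟩) := by
    intro M I
    have e1 : Schema.Holds I ⟨k + 1, [.rel false (Sum.inr (Sum.inr ())) (fun i => Fin.castSucc i),
        .rel true (Sum.inr (j₁ N₁)) (fun i => Fin.cast hN₁ i)], []⟩ ↔ ∀ v : Fin (k + 1) → M,
        (I ⟨Sum.inr (Sum.inr ()), fun i => v (Fin.castSucc i)⟩ → I ⟨Sum.inr (j₁ N₁), fun i => v (Fin.cast hN₁ i)⟩) := by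
      rw [FOb_nar]
      refine forall_congr' fun v => ?_
      simp only [List.exists_mem_cons_iff, List.not_mem_nil, false_and, exists_false, or_false]
      have a1 : (FLit.rel false (Sum.inr (Sum.inr ())) (fun i => Fin.castSucc i) : FLit (Sum.elim (arL L) aq) (k + 1)).Holds I v ↔
          ¬ I ⟨Sum.inr (Sum.inr ()), fun i => v (Fin.castSucc i)⟩ := by
        show (I ⟨Sum.inr (Sum.inr ()), fun i => v (Fin.castSucc i)⟩ ↔ false = true) ↔ _
        simp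
      have a2 : (FLit.rel true (Sum.inr (j₁ N₁)) (fun i => Fin.cast hN₁ i) : FLit (Sum.elim (arL L) aq) (k + 1)).Holds I v ↔
          I ⟨Sum.inr (j₁ N₁), fun i => v (Fin.cast hN₁ i)⟩ := by
        show (I ⟨Sum.inr (j₁ N₁), fun i => v (Fin.cast hN₁ i)⟩ ↔ true = true) ↔ _
        simp
      rw [a1, a2]
      tauto
    have e2 : Schema.Holds I ⟨k, [.rel true (Sum.inr (Sum.inr ())) (fun i => i)],
        [.rel false (Sum.inr (j₁ N₁)) (fun i => Fin.cast hN₁ i)]⟩ ↔ ∀ v : Fin k → M,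
        (I ⟨Sum.inr (Sum.inr ()), v⟩ ∨ ∃ y : M, ¬ I ⟨Sum.inr (j₁ N₁), fun i => ext v y (Fin.cast hN₁ i)⟩) := by
      unfold Schema.Holds
      refine forall_congr' fun v => ?_
      simp only [List.exists_mem_cons_iff, List.not_mem_nil, false_and, exists_false, or_false]
      have a1 : (FLit.rel true (Sum.inr (Sum.inr ())) (fun i => i) : FLit (Sum.elim (arL L) aq) k).Holds I v ↔
          I ⟨Sum.inr (Sum.inr ()), v⟩ := by
        show (I ⟨Sum.inr (Sum.inr ()), fun i => v i⟩ ↔ true = true) ↔ _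
        simp
      have a2 : ∀ w : Fin (k + 1) → M, (FLit.rel false (Sum.inr (j₁ N₁)) (fun i => Fin.cast hN₁ i) :
          FLit (Sum.elim (arL L) aq) (k + 1)).Holds I w ↔
          ¬ I ⟨Sum.inr (j₁ N₁), fun i => w (Fin.cast hN₁ i)⟩ := by
        intro w
        show (I ⟨Sum.inr (j₁ N₁), fun i => w (Fin.cast hN₁ i)⟩ ↔ false = true) ↔ _
        simp
      exact or_congr a1 (exists_congr fun y => a2 _)
    have e3 : (∀ S ∈ T, S.Holds I) ↔ (Schema.Holds I ⟨k + 1, [.rel false (Sum.inr (Sum.inr ())) (fun i => Fin.castSucc i),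
        .rel true (Sum.inr (j₁ N₁)) (fun i => Fin.cast hN₁ i)], []⟩ ∧
        Schema.Holds I ⟨k, [.rel true (Sum.inr (Sum.inr ())) (fun i => i)],
        [.rel false (Sum.inr (j₁ N₁)) (fun i => Fin.cast hN₁ i)]⟩) := by
      simp only [T, List.forall_mem_cons, List.not_mem_nil, false_imp_iff, implies_true, and_true]
    rw [e3, e1, e2]
    constructor
    · rintro ⟨h1, h2⟩ v
      constructor
      · intro h y
        refine h1 (ext v y) ?_
        have e4 : (fun i : Fin k => ext v y (Fin.castSucc i)) = v := by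
          funext i
          exact Fin.snoc_castSucc (α := fun _ => M) y v i
        exact (congrArg (fun w : Fin k → M => I ⟨Sum.inr (Sum.inr ()), w⟩) e4).mpr h
      · intro h
        rcases h2 v with h3 | ⟨y, h3⟩
        · exact h3
        · exact absurd (h y) h3
    · intro h
      constructor
      · intro v h1
        have h2 := (h (fun i => v (Fin.castSucc i))).1 h1 (v (Fin.last k))
        have e4 : ext (fun i => v (Fin.castSucc i)) (v (Fin.last k)) = v := Fin.snoc_init_self v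
        rw [e4] at h2
        exact h2
      · intro v
        by_cases h1 : I ⟨Sum.inr (Sum.inr ()), v⟩
        · exact Or.inl h1
        · right
          by_contra h2
          refine h1 ((h v).2 fun y => ?_)
          by_contra h3
          exact h2 ⟨y, h3⟩
  refine ⟨Q₁ ⊕ Unit, inferInstance, aq,
    P₁.map (Schema.map (Sum.map id j₁) (FOb_h (arL L) aq₁ aq j₁ hj₁)) ++ T, Sum.inr (), rfl, ?_, ?_⟩
  · intro M I₀
    obtain ⟨I₁, e₁, s₁⟩ := E₁ M I₀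
    let I : Atom (Sum.elim (arL L) aq) M → Prop := fun a => match a with
      | ⟨Sum.inl r, v⟩ => I₀ ⟨r, v⟩
      | ⟨Sum.inr (Sum.inl q), v⟩ => I₁ ⟨Sum.inr q, v⟩
      | ⟨Sum.inr (Sum.inr _), v⟩ => ∀ y : M, I₁ ⟨Sum.inr N₁, fun i => ext v y (Fin.cast hN₁ i)⟩
    refine ⟨I, fun a => Iff.rfl, ?_⟩
    have r₁ : FOb_res (arL L) aq₁ aq j₁ hj₁ I = I₁ :=
      FOb_eq _ _ _ _ _ _ _ (fun r v => (e₁ ⟨r, v⟩).symm) (fun q v => Iff.rfl)
    intro S hS
    rw [List.mem_append, List.mem_map] at hS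
    rcases hS with ⟨S', hS', rfl⟩ | hS
    · refine (FOb_map (arL L) aq₁ aq j₁ hj₁ I S').2 ?_
      rw [r₁]
      exact s₁ S' hS'
    · exact (hT M I).2 (fun v => Iff.rfl) S hS
  · intro M I hI v
    have s₁ : ∀ S ∈ P₁, S.Holds (FOb_res (arL L) aq₁ aq j₁ hj₁ I) := by
      intro S hS
      rw [← FOb_map]
      exact hI _ (List.mem_append_left _ (List.mem_map_of_mem hS))
    have s₃ := (hT M I).1 (fun S hS => hI S (List.mem_append_right _ hS)) v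
    refine s₃.trans ?_
    exact forall_congr' fun y => U₁ M _ s₁ (ext v y)

end Pool.Agent.SymEF
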