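import Pool.Agent.SY.Ord1

/-!
# TASK Ord (the ordering principle has an infinite model and resolution refutations of cubic size)

PROOF of `ordP_infinite`: `M = ℕ`, `I a := a.2 0 < a.2 1`.

PROOF of `ordP_refutation`. Write `L(x, y)` for the literal `(⟨(), ![x, y]⟩, true)` over `Fin n` and `¬L(x, y)` for `(⟨(), ![x, y]⟩, false)`. The clauses (indices: `j ≤ n`
natural, `x, y, z : Fin n`):
 `Cl j x := {L(x, y) | y.val < j}`; `Cl n x` is the input clause of the third sentence at `x`.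
 `D z x := insert ¬L(x, z) (Cl z.val x)`; `W z x y := insert ¬L(z, y) (D z x)`, for `y.val ≤ z.val`. If `y = z` it contains the input clause `{¬L(z, z)}`; if `y.val < z.val` it contains
 the input clause `{¬L(x, z), ¬L(z, y), L(x, y)}`. So `W z x y` is a weakening of an input clause.
Let `G = ground ordP (Fin n)` and define for `t : ℕ`
 `T t = G ∪ {C | 1 ≤ t ∧ ∃ z x y, y.val ≤ z.val ∧ C = W z x y} ∪ {C | ∃ z x, 2 * (n - z.val) ≤ t ∧ C = D z x} ∪ {C | ∃ j x, j ≤ n ∧ 2 * (n - j) + 1 ≤ t ∧ C = Cl j x} ∪ {C | 2 * n + 2 ≤ t ∧ C = ∅}`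
(no condition `x < z` is needed). It is increasing, `T 0 = G`(the conditions are false for `t = 0`: `2 (n - z) ≥ 2`). Let `C ∈ T (s+1)`:
 `C ∈ G`: in `F`. `C = W z x y`: `B` = the input clause contained in it (`∈ G ⊆ T s`): there is no `l ∈ B`, `l ∉ C`.
 `C = D z x`, `2 (n - z) ≤ s + 1`: `B := Cl (z+1) z = {L(z, y) | y ≤ z}`, in `T s` as `z + 1 ≤ n` and `2 (n - (z+1)) + 1 = 2 (n - z) - 1 ≤ s`. For `l = L(z, y) ∈ B`: `insert ¬L(z, y) (D z x) = W z x y ∈ T s` since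
 `s ≥ 1` (`2 (n - z) ≥ 2`).
 `C = Cl j x`, `2 (n - j) + 1 ≤ s + 1`: if `j = n` it is in `G` (in `F`). If `j < n` let `z` be the element with the number `j`: `B := Cl (j+1) x`: in `T s` since `2 (n - (j+1)) + 1 ≤ s`. A literal `l = L(x, y)`,
 `y ≤ j`, not in `Cl j x`, has `y = z`, and `insert ¬L(x, z) (Cl j x) = D z x ∈ T s` as `2 (n - z) = 2 (n - j) ≤ s`.
 `C = ∅`, `2 n + 2 ≤ s + 1`: `n ≥ 1`, let `z = 0 : Fin n`, `B := Cl 1 0 = {L(0, 0)}` (`2 (n - 1) + 1 ≤ s`), and `insert ¬L(0, 0) ∅ = {¬L(0, 0)} ∈ G`.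
 `ng` of `L(x, y)` is `¬L(x, y)` (`rfl`).
`refutation_of_stages` with `N = 2 n + 2` gives `p` with `IsEmpty p.E` and `p.size ≤ (T N).ncard`. The number of the clauses: `G`: at most `n + n^3 + n` (range of `v ↦ S.clause v`, `v : Fin 1 → Fin n`, resp.
`Fin 3 → Fin n`), `W`: at most `n^3`, `D`: `n^2`, `Cl`: `(n+1) n`, and `∅`. The sum `2 n^3 + 2 n^2 + 3 n + 1 ≤ 8 n^3` for `n ≥ 1`. (Write each set as the range or image of a map from a finite type, `Set.ncard_image_le`,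
`Set.ncard_union_le`, `Set.ncard_le_ncard`.) For finiteness all is a subset of the finite type `Set (Atom .. × Bool)`.
-/

set_option autoImplicit false

namespace Pool.Agent.SymEF

private theorem Ord_comp {α β : Type} (v : α → β) (a b : α) : v ∘ ![a, b] = ![v a, v b] := by
  funext i
  fin_cases i <;> rfl

theorem ordP_infinite : HasInfiniteModel ordP := by
  refine ⟨ℕ, inferInstance, fun a => a.2 0 < a.2 1, ?_⟩
  intro S hS
  rw [ordP, List.mem_cons, List.mem_cons, List.mem_singleton] at hS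
  rcases hS with rfl | rfl | rfl
  · intro v
    left
    refine ⟨_, List.mem_singleton.2 rfl, ?_⟩
    show (v 0 < v 0 ↔ false = true)
    simp
  · intro v
    left
    change Fin 3 → ℕ at v
    by_cases h1 : v 0 < v 1
    · by_cases h2 : v 1 < v 2
      · refine ⟨.rel true () ![0, 2], by simp, ?_⟩
        show (v 0 < v 2 ↔ true = true)
        simp only [iff_true]
        omega
      · refine ⟨.rel false () ![1, 2], by simp, ?_⟩
        show (v 1 < v 2 ↔ false = true)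
        simp only [Bool.false_eq_true, iff_false]
        exact h2
    · refine ⟨.rel false () ![0, 1], by simp, ?_⟩
      show (v 0 < v 1 ↔ false = true)
      simp only [Bool.false_eq_true, iff_false]
      exact h1
  · intro v
    right
    change Fin 1 → ℕ at v
    refine ⟨v 0 + 1, _, List.mem_singleton.2 rfl, ?_⟩
    show (v 0 < v 0 + 1 ↔ true = true)
    simp

/-- The literals. -/
private def Ord_L {n : ℕ} (s : Bool) (x y : Fin n) : Atom (fun _ : Unit => 2) (Fin n) × Bool := (⟨(), ![x, y]⟩, s)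

private theorem Ord_L_inj {n : ℕ} {s s' : Bool} {x y x' y' : Fin n} (h : Ord_L s x y = Ord_L s' x' y') :
    s = s' ∧ x = x' ∧ y = y' := by
  unfold Ord_L at h
  rw [Prod.mk.injEq] at h
  obtain ⟨h1, h2⟩ := h
  have h3 : (![x, y] : Fin 2 → Fin n) = ![x', y'] := eq_of_heq (Sigma.mk.inj h1).2
  exact ⟨h2, congrFun h3 0, congrFun h3 1⟩

private def Ord_C1 {n : ℕ} (x : Fin n) : Set (Atom (fun _ : Unit => 2) (Fin n) × Bool) := {Ord_L false x x}

private def Ord_C2 {n : ℕ} (x y z : Fin n) : Set (Atom (fun _ : Unit => 2) (Fin n) × Bool) :=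
  {l | l = Ord_L false x y ∨ (l = Ord_L false y z ∨ l = Ord_L true x z)}

private def Ord_C3 {n : ℕ} (x : Fin n) : Set (Atom (fun _ : Unit => 2) (Fin n) × Bool) := {l | ∃ y, l = Ord_L true x y}

private theorem Ord_cl1 {n : ℕ} (v : Fin 1 → Fin n) :
    Schema.clause (ar := fun _ : Unit => 2) ⟨1, [.rel false () ![0, 0]], []⟩ v = Ord_C1 (v 0) := by
  ext l
  constructor
  · rintro (⟨s, r, args, h, rfl⟩ | ⟨y, s, r, args, h, rfl⟩)
    · rw [List.mem_singleton] at h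
      cases h
      show (_, _) = _
      unfold Ord_L
      rw [Ord_comp]
    · exact absurd h (List.not_mem_nil)
  · intro h
    left
    refine ⟨false, (), ![0, 0], List.mem_singleton.2 rfl, ?_⟩
    have h' : l = Ord_L false (v 0) (v 0) := h
    rw [h']
    unfold Ord_L
    rw [Ord_comp]

private theorem Ord_cl2 {n : ℕ} (v : Fin 3 → Fin n) :
    Schema.clause (ar := fun _ : Unit => 2) ⟨3, [.rel false () ![0, 1], .rel false () ![1, 2], .rel true () ![0, 2]], []⟩ v =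
      Ord_C2 (v 0) (v 1) (v 2) := by
  ext l
  constructor
  · rintro (⟨s, r, args, h, rfl⟩ | ⟨y, s, r, args, h, rfl⟩)
    · rw [List.mem_cons, List.mem_cons, List.mem_singleton] at h
      rcases h with h | h | h
      · cases h
        left
        unfold Ord_L
        rw [Ord_comp]
      · cases h
        right
        left
        unfold Ord_L
        rw [Ord_comp]
      · cases h
        right
        right
        unfold Ord_L
        rw [Ord_comp]
    · exact absurd h (List.not_mem_nil)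
  · intro h
    left
    rcases h with h | h | h
    · refine ⟨false, (), ![0, 1], by simp, ?_⟩
      rw [h]
      unfold Ord_L
      rw [Ord_comp]
    · refine ⟨false, (), ![1, 2], by simp, ?_⟩
      rw [h]
      unfold Ord_L
      rw [Ord_comp]
    · refine ⟨true, (), ![0, 2], by simp, ?_⟩
      rw [h]
      unfold Ord_L
      rw [Ord_comp]

private theorem Ord_cl3 {n : ℕ} (v : Fin 1 → Fin n) :
    Schema.clause (ar := fun _ : Unit => 2) ⟨1, [], [.rel true () ![0, 1]]⟩ v = Ord_C3 (v 0) := by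
  ext l
  constructor
  · rintro (⟨s, r, args, h, rfl⟩ | ⟨y, s, r, args, h, rfl⟩)
    · exact absurd h (List.not_mem_nil)
    · rw [List.mem_singleton] at h
      cases h
      refine ⟨y, ?_⟩
      unfold Ord_L
      rw [Ord_comp]
      rfl
  · rintro ⟨y, h⟩
    right
    refine ⟨y, true, (), ![0, 1], List.mem_singleton.2 rfl, ?_⟩
    rw [h]
    unfold Ord_L
    rw [Ord_comp]
    rfl

private theorem Ord_G {n : ℕ} (C : Set (Atom (fun _ : Unit => 2) (Fin n) × Bool)) :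
    C ∈ ground ordP (Fin n) ↔ (∃ x, C = Ord_C1 x) ∨ (∃ x y z, C = Ord_C2 x y z) ∨ ∃ x, C = Ord_C3 x := by
  constructor
  · rintro ⟨S, hS, v, hv, rfl⟩
    rw [ordP, List.mem_cons, List.mem_cons, List.mem_singleton] at hS
    rcases hS with rfl | rfl | rfl
    · exact Or.inl ⟨v 0, Ord_cl1 v⟩
    · exact Or.inr (Or.inl ⟨v 0, v 1, v 2, Ord_cl2 v⟩)
    · exact Or.inr (Or.inr ⟨v 0, Ord_cl3 v⟩)
  · rintro (⟨x, rfl⟩ | ⟨x, y, z, rfl⟩ | ⟨x, rfl⟩)
    · refine ⟨_, List.mem_cons_self, fun _ => x, ?_, (Ord_cl1 (fun _ => x)).symm⟩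
      rintro (⟨s, i, j, h, _⟩ | ⟨y, s, i, j, h, _⟩)
      · simp at h
      · simp at h
    · refine ⟨_, List.mem_cons_of_mem _ List.mem_cons_self, ![x, y, z], ?_, (Ord_cl2 ![x, y, z]).symm⟩
      rintro (⟨s, i, j, h, _⟩ | ⟨y, s, i, j, h, _⟩)
      · simp at h
      · simp at h
    · refine ⟨_, List.mem_cons_of_mem _ (List.mem_cons_of_mem _ List.mem_cons_self), fun _ => x, ?_,
        (Ord_cl3 (fun _ => x)).symm⟩
      rintro (⟨s, i, j, h, _⟩ | ⟨y, s, i, j, h, _⟩)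
      · simp at h
      · simp at h

private def Ord_Cl {n : ℕ} (j : ℕ) (x : Fin n) : Set (Atom (fun _ : Unit => 2) (Fin n) × Bool) :=
  {l | ∃ y : Fin n, y.val < j ∧ l = Ord_L true x y}

private def Ord_D {n : ℕ} (z x : Fin n) : Set (Atom (fun _ : Unit => 2) (Fin n) × Bool) :=
  insert (Ord_L false x z) (Ord_Cl z.val x)

private def Ord_W {n : ℕ} (z x y : Fin n) : Set (Atom (fun _ : Unit => 2) (Fin n) × Bool) :=
  insert (Ord_L false z y) (Ord_D z x)

private def Ord_T (n t : ℕ) : Set (Set (Atom (fun _ : Unit => 2) (Fin n) × Bool)) :=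
  {C | C ∈ ground ordP (Fin n) ∨ ((1 ≤ t ∧ ∃ z x y : Fin n, y.val ≤ z.val ∧ C = Ord_W z x y) ∨
    ((∃ z x : Fin n, 2 * (n - z.val) ≤ t ∧ C = Ord_D z x) ∨
      ((∃ (j : ℕ) (x : Fin n), j ≤ n ∧ 2 * (n - j) + 1 ≤ t ∧ C = Ord_Cl j x) ∨ (2 * n + 2 ≤ t ∧ C = ∅))))}

private theorem Ord_mono {n : ℕ} (s t : ℕ) (h : s ≤ t) : Ord_T n s ⊆ Ord_T n t := by
  rintro C (h1 | ⟨h1, h2⟩ | ⟨z, x, h1, h2⟩ | ⟨j, x, h0, h1, h2⟩ | ⟨h1, h2⟩)
  · exact Or.inl h1
  · exact Or.inr (Or.inl ⟨h1.trans h, h2⟩)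
  · exact Or.inr (Or.inr (Or.inl ⟨z, x, h1.trans h, h2⟩))
  · exact Or.inr (Or.inr (Or.inr (Or.inl ⟨j, x, h0, h1.trans h, h2⟩)))
  · exact Or.inr (Or.inr (Or.inr (Or.inr ⟨h1.trans h, h2⟩)))

private theorem Ord_zero {n : ℕ} : Ord_T n 0 ⊆ ground ordP (Fin n) := by
  rintro C (h1 | ⟨h1, h2⟩ | ⟨z, x, h1, h2⟩ | ⟨j, x, h0, h1, h2⟩ | ⟨h1, h2⟩)
  · exact h1
  · omega
  · have := z.2
    omega
  · omega
  · omega

private theorem Ord_step {n : ℕ} (hn : 1 ≤ n) (s : ℕ) (C : Set (Atom (fun _ : Unit => 2) (Fin n) × Bool))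
    (hC : C ∈ Ord_T n (s + 1)) : C ∈ ground ordP (Fin n) ∨
      ∃ B ∈ Ord_T n s, ∀ l ∈ B, l ∉ C → insert (ng l) C ∈ Ord_T n s := by
  rcases hC with h1 | ⟨h1, z, x, y, h2, rfl⟩ | ⟨z, x, h1, rfl⟩ | ⟨j, x, h0, h1, rfl⟩ | ⟨h1, rfl⟩
  · exact Or.inl h1
  · right
    by_cases hyz : y = z
    · subst hyz
      refine ⟨Ord_C1 y, Or.inl ((Ord_G _).2 (Or.inl ⟨y, rfl⟩)), ?_⟩
      intro l hl hlC
      have hl' : l = Ord_L false y y := hl
      exact absurd (Set.mem_insert_iff.2 (Or.inl hl')) hlC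
    · have hlt : y.val < z.val := lt_of_le_of_ne h2 (fun h => hyz (Fin.ext h))
      refine ⟨Ord_C2 x z y, Or.inl ((Ord_G _).2 (Or.inr (Or.inl ⟨x, z, y, rfl⟩))), ?_⟩
      intro l hl hlC
      refine absurd ?_ hlC
      rcases hl with hl | hl | hl
      · rw [hl]
        exact Set.mem_insert_of_mem _ (Set.mem_insert _ _)
      · rw [hl]
        exact Set.mem_insert _ _
      · rw [hl]
        exact Set.mem_insert_of_mem _ (Set.mem_insert_of_mem _ ⟨y, hlt, rfl⟩)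
  · right
    have hz := z.2
    refine ⟨Ord_Cl (z.val + 1) z, Or.inr (Or.inr (Or.inr (Or.inl ⟨z.val + 1, z, by omega, by omega, rfl⟩))), ?_⟩
    rintro l ⟨y, hy, rfl⟩ _
    exact Or.inr (Or.inl ⟨by omega, z, x, y, by omega, rfl⟩)
  · by_cases hj : j = n
    · left
      rw [Ord_G]
      refine Or.inr (Or.inr ⟨x, ?_⟩)
      ext l
      constructor
      · rintro ⟨y, _, h⟩
        exact ⟨y, h⟩
      · rintro ⟨y, h⟩
        exact ⟨y, by rw [hj]; exact y.2, h⟩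
    · right
      have hjn : j < n := lt_of_le_of_ne h0 hj
      refine ⟨Ord_Cl (j + 1) x, Or.inr (Or.inr (Or.inr (Or.inl ⟨j + 1, x, by omega, by omega, rfl⟩))), ?_⟩
      rintro l ⟨y, hy, rfl⟩ hlC
      have hyj : y.val = j := by
        by_contra hne
        exact hlC ⟨y, by omega, rfl⟩
      refine Or.inr (Or.inr (Or.inl ⟨y, x, by omega, ?_⟩))
      unfold Ord_D
      rw [hyj]
      rfl
  · right
    refine ⟨Ord_Cl 1 ⟨0, hn⟩, Or.inr (Or.inr (Or.inr (Or.inl ⟨1, ⟨0, hn⟩, hn, by omega, rfl⟩))), ?_⟩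
    rintro l ⟨y, hy, rfl⟩ _
    left
    rw [Ord_G]
    have hy0 : y = ⟨0, hn⟩ := Fin.ext (by show y.val = 0; omega)
    subst hy0
    refine Or.inl ⟨⟨0, hn⟩, ?_⟩
    show insert (ng (Ord_L true ⟨0, hn⟩ ⟨0, hn⟩)) ∅ = ({Ord_L false ⟨0, hn⟩ ⟨0, hn⟩} : Set _)
    rw [insert_empty_eq]
    rfl

/-- An enumeration of all clauses. -/
private def Ord_enum (n : ℕ) : Fin n ⊕ (Fin n × Fin n × Fin n) ⊕ Fin n ⊕ (Fin n × Fin n × Fin n) ⊕ (Fin n × Fin n) ⊕
    (Fin (n + 1) × Fin n) ⊕ Unit → Set (Atom (fun _ : Unit => 2) (Fin n) × Bool)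
  | .inl x => Ord_C1 x
  | .inr (.inl (x, y, z)) => Ord_C2 x y z
  | .inr (.inr (.inl x)) => Ord_C3 x
  | .inr (.inr (.inr (.inl (x, y, z)))) => Ord_W x y z
  | .inr (.inr (.inr (.inr (.inl (x, y))))) => Ord_D x y
  | .inr (.inr (.inr (.inr (.inr (.inl (j, y)))))) => Ord_Cl j.val y
  | .inr (.inr (.inr (.inr (.inr (.inr _))))) => ∅

private theorem Ord_sub (n t : ℕ) : Ord_T n t ⊆ Set.range (Ord_enum n) := by
  rintro C (h1 | ⟨h1, z, x, y, h2, rfl⟩ | ⟨z, x, h1, rfl⟩ | ⟨j, x, h0, h1, rfl⟩ | ⟨h1, rfl⟩)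
  · rcases (Ord_G C).1 h1 with ⟨x, rfl⟩ | ⟨x, y, z, rfl⟩ | ⟨x, rfl⟩
    · exact ⟨.inl x, rfl⟩
    · exact ⟨.inr (.inl (x, y, z)), rfl⟩
    · exact ⟨.inr (.inr (.inl x)), rfl⟩
  · exact ⟨.inr (.inr (.inr (.inl (z, x, y)))), rfl⟩
  · exact ⟨.inr (.inr (.inr (.inr (.inl (z, x))))), rfl⟩
  · exact ⟨.inr (.inr (.inr (.inr (.inr (.inl (⟨j, by omega⟩, x)))))), rfl⟩
  · exact ⟨.inr (.inr (.inr (.inr (.inr (.inr ()))))), rfl⟩

theorem ordP_refutation (n : ℕ) (hn : 1 ≤ n) :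
    ∃ p : Refutation (ground ordP (Fin n)), IsEmpty p.E ∧ p.size ≤ 8 * n ^ 3 := by
  have hfin : (Ord_T n (2 * n + 2)).Finite := (Set.finite_range _).subset (Ord_sub n _)
  obtain ⟨p, hp1, hp2⟩ := refutation_of_stages (ground ordP (Fin n)) (Ord_T n) Ord_mono Ord_zero
    (fun s C hC _ => Ord_step hn s C hC) (2 * n + 2) hfin
    (Or.inr (Or.inr (Or.inr (Or.inr ⟨le_rfl, rfl⟩))))
  refine ⟨p, hp1, hp2.trans ((Set.ncard_le_ncard (Ord_sub n _) (Set.finite_range _)).trans ?_)⟩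
  rw [← Set.image_univ]
  refine (Set.ncard_image_le (Set.finite_univ)).trans ?_
  rw [Set.ncard_univ]
  simp only [Nat.card_eq_fintype_card, Fintype.card_sum, Fintype.card_prod, Fintype.card_fin, Fintype.card_unit]
  have h1 : n ≤ n ^ 3 := by
    calc n = n ^ 1 := (pow_one n).symm
      _ ≤ n ^ 3 := Nat.pow_le_pow_right hn (by norm_num)
  have h2 : n ^ 2 ≤ n ^ 3 := Nat.pow_le_pow_right hn (by norm_num)
  have h3 : 1 ≤ n ^ 3 := Nat.one_le_pow _ _ hn
  have e : n + (n * (n * n) + (n + (n * (n * n) + (n * n + ((n + 1) * n + 1))))) =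
      2 * n ^ 3 + 2 * n ^ 2 + 3 * n + 1 := by ring
  rw [e]
  omega

end Pool.Agent.SymEF
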