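import Pool.Agent.SY.OrdDefs

/-!
# TASK Ord1 (a refutation without extension variables from stages; easy)

PROOF. `E = Empty`, `lines = lift Empty '' T N` (finite: image of a finite set), `time C' := sInf {t | ∃ D ∈ T t, C' = lift Empty D}` (`lift` is injective: the image under an
injective map of literals). Let `C' = lift D`, `D ∈ T N`, and let `t ≤ N` be the least number with `D ∈ T t`, so `time C' = t`. `t = 0`: `D ∈ F` (`h0`), an axiom.
`t = s + 1`: `D ∉ T s`, `hs s D` gives `D ∈ F` (axiom) or `B ∈ T s` with `insert (ng l) D ∈ T s` for all `l ∈ B`, `l ∉ D`. `T s ⊆ T N` by `mono`. So `lift B` is a line of time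
`≤ s < t`, and for `l' ∈ lift B`, `l'` the lift of `l ∈ B`, `l' ∉ lift D`: `insert (ng l') (lift D) = lift (insert (ng l) D)`, a line of time `≤ s`.
`size = 0 + lines.ncard ≤ (T N).ncard` (`Set.ncard_image_le`).
-/

set_option autoImplicit false

namespace Pool.Agent.SymEF

private theorem Ord1_inj {V : Type} :
    Function.Injective (lift Empty : Set (V × Bool) → Set ((V ⊕ Empty) × Bool)) := by
  refine Set.image_injective.2 fun a b h => ?_
  have h1 := (Prod.ext_iff.1 h).1
  have h2 := (Prod.ext_iff.1 h).2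
  exact Prod.ext (Sum.inl_injective h1) h2

theorem refutation_of_stages {V : Type} (F : Set (Set (V × Bool))) (T : ℕ → Set (Set (V × Bool)))
    (mono : ∀ s t, s ≤ t → T s ⊆ T t) (h0 : T 0 ⊆ F)
    (hs : ∀ s, ∀ C ∈ T (s + 1), C ∉ T s → C ∈ F ∨ ∃ B ∈ T s, ∀ l ∈ B, l ∉ C → insert (ng l) C ∈ T s)
    (N : ℕ) (hfin : (T N).Finite) (he : ∅ ∈ T N) :
    ∃ p : Refutation F, IsEmpty p.E ∧ p.size ≤ (T N).ncard := by
  classical
  let tm : Set ((V ⊕ Empty) × Bool) → ℕ := fun C' => sInf {t | ∃ D ∈ T t, C' = lift Empty D}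
  have htm : ∀ D t, D ∈ T t → tm (lift Empty D) ≤ t := fun D t h => Nat.sInf_le ⟨D, h, rfl⟩
  have hmem : ∀ D t, D ∈ T t → D ∈ T (tm (lift Empty D)) := by
    intro D t h
    have hne : {t | ∃ D' ∈ T t, lift Empty D = lift Empty D'}.Nonempty := ⟨t, D, h, rfl⟩
    obtain ⟨D', hD', he⟩ := Nat.sInf_mem hne
    rw [← Ord1_inj he] at hD'
    exact hD'
  have hok : ∀ C ∈ lift Empty '' T N, IsAxiom F (fun e : Empty => e.elim) C ∨
      ∃ A ∈ lift Empty '' T N, tm A < tm C ∧ ∀ l ∈ A, l ∉ C →
        insert (ng l) C ∈ lift Empty '' T N ∧ tm (insert (ng l) C) < tm C := by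
    rintro _ ⟨D, hD, rfl⟩
    have hDt := hmem D N hD
    have htN := htm D N hD
    rcases ht : tm (lift Empty D) with _ | s
    · rw [ht] at hDt
      exact Or.inl (Or.inl ⟨D, h0 hDt, rfl⟩)
    · rw [ht] at hDt htN
      have hnot : D ∉ T s := by
        intro h
        have h1 := htm D s h
        omega
      have hsN : T s ⊆ T N := mono s N (by omega)
      rcases hs s D hDt hnot with h | ⟨B, hB, hBl⟩
      · exact Or.inl (Or.inl ⟨D, h, rfl⟩)
      · refine Or.inr ⟨lift Empty B, ⟨B, hsN hB, rfl⟩, Nat.lt_succ_of_le (htm B s hB), ?_⟩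
        rintro _ ⟨l, hl, rfl⟩ hnl
        have hlD : l ∉ D := fun h => hnl ⟨l, h, rfl⟩
        have hins : insert (ng ((Sum.inl l.1 : V ⊕ Empty), l.2)) (lift Empty D) =
            lift Empty (insert (ng l) D) := by
          unfold lift
          rw [Set.image_insert_eq]
          rfl
        have h2 := hBl l hl hlD
        change insert (ng ((Sum.inl l.1 : V ⊕ Empty), l.2)) (lift Empty D) ∈ _ ∧
          tm (insert (ng ((Sum.inl l.1 : V ⊕ Empty), l.2)) (lift Empty D)) < _
        rw [hins]
        exact ⟨⟨_, hsN h2, rfl⟩, Nat.lt_succ_of_le (htm _ s h2)⟩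
  refine ⟨{ E := Empty
            finE := inferInstance
            dfn := fun e => e.elim
            rank := fun e => e.elim
            rank_lt := fun e => e.elim
            lines := lift Empty '' T N
            finL := hfin.image _
            time := tm
            ok := hok
            empty_mem := ⟨∅, he, Set.image_empty _⟩ }, inferInstanceAs (IsEmpty Empty), ?_⟩
  change Nat.card Empty + (lift Empty '' T N).ncard ≤ (T N).ncard
  rw [Nat.card_of_isEmpty, zero_add]
  exact Set.ncard_image_le hfin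

end Pool.Agent.SymEF
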