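import Pool.Agent.SY.UPDefs

/-!
# The ordering principle: a strict order on a finite set has a maximal element
-/

set_option autoImplicit false

namespace Pool.Agent.SymEF

/-- The sentences: `¬ L(x, x)`; `L(x, y) ∧ L(y, z) → L(x, z)`; `∀ x ∃ y L(x, y)`. -/
def ordP : List (Schema (fun _ : Unit => 2)) :=
  [⟨1, [.rel false () ![0, 0]], []⟩,
   ⟨3, [.rel false () ![0, 1], .rel false () ![1, 2], .rel true () ![0, 2]], []⟩,
   ⟨1, [], [.rel true () ![0, 1]]⟩]

end Pool.Agent.SymEF
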