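import Pool.Agent.SY.UPDefs

/-!
# TASK UPd (an infinite model from families of finite structures)

PROOF. For `m : ℕ` and `γ : Atom ar (Fin m) → Bool` let `Lim m γ := ∀ N, ∃ i ≥ N, good i m γ` (good for infinitely many `i`). The type
`Atom ar (Fin m) → Bool` is finite (`R` is finite).

(1) `∃ γ, Lim 0 γ`: pigeonhole for `h0` (if every `γ` of the finitely many is good only for `i < N_γ`, take `i = max N_γ`).
(2) If `Lim m γ` then `∃ γ', Extends γ γ' ∧ Lim (m+1) γ'`; and for `S ∈ P`, `v : Fin S.k → Fin m`, moreover `SatAt S γ' (castSucc ∘ v)`: for the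
infinitely many `i > m` with `good i m γ` there is such a `γ'` with `good i (m+1) γ'` (`h1`, `h2`); pigeonhole.
(3) Bookkeeping: let `T : ℕ → Option (Σ S : {S // S ∈ P}, Fin S.1.k → ℕ)` be a sequence in which every `⟨S, v⟩` occurs infinitely often (the type is
countable: `Encodable`/`Countable` (subtype of a list membership: finite), e.g. compose `Nat.unpair` with an enumeration). Construct by recursion `γ_m` with
`Lim m γ_m`, `Extends γ_m γ_(m+1)`, and: if `T m = some ⟨S, v⟩` and all `v i < m` then `SatAt S γ_(m+1) (castSucc ∘ v_m)`, where `v_m : Fin S.k → Fin m` is `v`.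
(Recursion on the sigma/subtype `{γ : Atom ar (Fin m) → Bool // Lim m γ}` with `Nat.rec`, or use `exists_seq`-like lemmas for the dependent
type `Σ m, {γ // Lim m γ}`.)
(4) The structure `I` on `ℕ`: `I ⟨r, u⟩ := γ_m ⟨r, u'⟩ = true` for the least (or any) `m` with all `u i < m`, `u' i = ⟨u i, _⟩`; by `Extends` the value
does not depend on `m` (induction on `m`). So for every `m` and `a : Atom ar (Fin m)`: `I ⟨a.1, Fin.val ∘ a.2⟩ ↔ γ_m a = true` (**).
(5) `I` is a model: `S ∈ P`, `v : Fin S.k → ℕ`. Take `m` with `T m = some ⟨S, v⟩` and `m > v i` for all `i`. `SatAt S γ_(m+1) (castSucc ∘ v_m)`: a literal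
of `S.nar` holds in `γ_(m+1)` at `castSucc ∘ v_m`, or one of `S.wid` at `ext (castSucc ∘ v_m) y`, `y : Fin (m+1)`. By (**) (and the injectivity of
`Fin.val` for the equalities) it holds in `I` at `v`, respectively at `ext v y.val` (`Fin.val ∘ ext u y = ext (Fin.val ∘ u) y.val`).
`ℕ` is infinite, so `HasInfiniteModel P`.
-/

set_option autoImplicit false

namespace Pool.Agent.SymEF

variable {R : Type} {ar : R → ℕ}

/-- Good for infinitely many `i`. -/
private def Lim (good : ℕ → ∀ m, (Atom ar (Fin m) → Bool) → Prop) (m : ℕ) (γ : Atom ar (Fin m) → Bool) : Prop :=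
  ∀ N, ∃ i ≥ N, good i m γ

private theorem pigeon {α : Type} [Finite α] (Q : ℕ → α → Prop) (h : ∀ N, ∃ i ≥ N, ∃ a, Q i a) :
    ∃ a, ∀ N, ∃ i ≥ N, Q i a := by
  classical
  have := Fintype.ofFinite α
  by_contra hcon
  push Not at hcon
  choose N hN using hcon
  obtain ⟨i, hi, a, ha⟩ := h (Finset.univ.sup N)
  exact hN a i (le_trans (Finset.le_sup (Finset.mem_univ a)) hi) ha

private theorem val_ext {k n : ℕ} (u : Fin k → Fin n) (y : Fin n) :
    Fin.val ∘ ext u y = ext (Fin.val ∘ u) y.val := by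
  funext i
  refine Fin.lastCases ?_ (fun j => ?_) i
  · simp [ext]
  · simp [ext]

theorem model_of_families [Finite R] (P : List (Schema ar)) (good : ℕ → ∀ m, (Atom ar (Fin m) → Bool) → Prop)
    (h0 : ∀ i, ∃ γ, good i 0 γ)
    (h1 : ∀ i m γ, m < i → good i m γ → ∃ γ', Extends γ γ' ∧ good i (m + 1) γ')
    (h2 : ∀ i m γ, m < i → good i m γ → ∀ S ∈ P, ∀ v : Fin S.k → Fin m,
      ∃ γ', Extends γ γ' ∧ good i (m + 1) γ' ∧ SatAt S γ' (Fin.castSucc ∘ v)) : HasInfiniteModel P := by
  classical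
  have hfin : ∀ m, Finite (Atom ar (Fin m) → Bool) := by
    intro m
    have : Finite (Atom ar (Fin m)) := by unfold Atom; infer_instance
    infer_instance
  -- the start
  obtain ⟨γ0, hγ0⟩ : ∃ γ : Atom ar (Fin 0) → Bool, Lim good 0 γ := by
    have := hfin 0
    exact pigeon (fun i γ => good i 0 γ) (fun N => ⟨N, le_rfl, h0 N⟩)
  -- the step
  have step : ∀ (m : ℕ) (γ : {γ : Atom ar (Fin m) → Bool // Lim good m γ})
      (o : Option (Σ S : {S // S ∈ P}, Fin S.1.k → ℕ)),
      ∃ γ' : {γ' : Atom ar (Fin (m + 1)) → Bool // Lim good (m + 1) γ'}, Extends γ.1 γ'.1 ∧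
        ∀ (S : {S // S ∈ P}) (v : Fin S.1.k → ℕ), o = some ⟨S, v⟩ → ∀ h : ∀ i, v i < m,
          SatAt S.1 γ'.1 (Fin.castSucc ∘ fun i => (⟨v i, h i⟩ : Fin m)) := by
    intro m γ o
    have := hfin (m + 1)
    by_cases hcase : ∃ (S : {S // S ∈ P}) (v : Fin S.1.k → ℕ), o = some ⟨S, v⟩ ∧ ∀ i, v i < m
    · obtain ⟨S, v, ho, hv⟩ := hcase
      obtain ⟨γ', hγ'⟩ := pigeon (fun i (γ' : Atom ar (Fin (m + 1)) → Bool) => Extends γ.1 γ' ∧
        good i (m + 1) γ' ∧ SatAt S.1 γ' (Fin.castSucc ∘ fun i => (⟨v i, hv i⟩ : Fin m))) (by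
          intro N
          obtain ⟨i, hi, hg⟩ := γ.2 (max N (m + 1))
          refine ⟨i, le_trans (le_max_left _ _) hi, ?_⟩
          exact h2 i m γ.1 (lt_of_lt_of_le (Nat.lt_succ_self m) (le_trans (le_max_right _ _) hi)) hg S.1 S.2 _)
      obtain ⟨i0, -, hE, -, hS⟩ := hγ' 0
      refine ⟨⟨γ', fun N => ?_⟩, hE, ?_⟩
      · obtain ⟨i, hi, -, hg, -⟩ := hγ' N
        exact ⟨i, hi, hg⟩
      · intro S' v' ho' h'
        rw [ho] at ho'
        have h3 := Option.some.inj ho'
        obtain ⟨h4, h5⟩ := Sigma.mk.inj_iff.1 h3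
        subst h4
        have h6 := eq_of_heq h5
        subst h6
        exact hS
    · obtain ⟨γ', hγ'⟩ := pigeon (fun i (γ' : Atom ar (Fin (m + 1)) → Bool) => Extends γ.1 γ' ∧
        good i (m + 1) γ') (by
          intro N
          obtain ⟨i, hi, hg⟩ := γ.2 (max N (m + 1))
          refine ⟨i, le_trans (le_max_left _ _) hi, ?_⟩
          exact h1 i m γ.1 (lt_of_lt_of_le (Nat.lt_succ_self m) (le_trans (le_max_right _ _) hi)) hg)
      obtain ⟨i0, -, hE, -⟩ := hγ' 0
      refine ⟨⟨γ', fun N => ?_⟩, hE, ?_⟩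
      · obtain ⟨i, hi, -, hg⟩ := hγ' N
        exact ⟨i, hi, hg⟩
      · intro S' v' ho' h'
        exact absurd ⟨S', v', ho', h'⟩ hcase
  choose F hF using step
  -- the tasks
  have hc : Countable (Option (Σ S : {S // S ∈ P}, Fin S.1.k → ℕ)) := by
    have : Finite {S // S ∈ P} := (List.finite_toSet P).to_subtype
    infer_instance
  obtain ⟨f, hf⟩ := exists_surjective_nat (Option (Σ S : {S // S ∈ P}, Fin S.1.k → ℕ))
  -- the sequence
  let seq : ∀ m : ℕ, {γ : Atom ar (Fin m) → Bool // Lim good m γ} := fun m =>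
    Nat.rec (motive := fun m => {γ : Atom ar (Fin m) → Bool // Lim good m γ}) ⟨γ0, hγ0⟩
      (fun m γ => F m γ (f m.unpair.1)) m
  have hseq : ∀ m, seq (m + 1) = F m (seq m) (f m.unpair.1) := fun m => rfl
  have hE : ∀ m, Extends (seq m).1 (seq (m + 1)).1 := fun m => by
    rw [hseq]; exact (hF m (seq m) _).1
  -- consistency
  have hcons : ∀ (n m : ℕ), m ≤ n → ∀ (r : R) (u : Fin (ar r) → Fin m) (u' : Fin (ar r) → Fin n),
      (∀ i, (u i).val = (u' i).val) → (seq m).1 ⟨r, u⟩ = (seq n).1 ⟨r, u'⟩ := by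
    intro n
    induction n with
    | zero =>
      intro m hm r u u' huu
      have h0 : m = 0 := by omega
      subst h0
      have : u = u' := funext fun i => Fin.ext (huu i)
      rw [this]
    | succ n ih =>
      intro m hm r u u' huu
      rcases Nat.lt_or_ge n m with h | h
      · have h0 : m = n + 1 := by omega
        subst h0
        have : u = u' := funext fun i => Fin.ext (huu i)
        rw [this]
      · have hlt : ∀ i, (u' i).val < n := fun i => by
          rw [← huu i]; exact lt_of_lt_of_le (u i).2 h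
        have h3 : u' = Fin.castSucc ∘ fun i => (⟨(u' i).val, hlt i⟩ : Fin n) := by
          funext i; apply Fin.ext; simp
        have h4 := hE n ⟨r, fun i => (⟨(u' i).val, hlt i⟩ : Fin n)⟩
        have h5 : (seq (n + 1)).1 ⟨r, u'⟩ = (seq n).1 ⟨r, fun i => (⟨(u' i).val, hlt i⟩ : Fin n)⟩ := by
          rw [← h4]
          congr 2
        rw [h5]
        exact ih m h r u _ huu
  -- the structure
  let I : Atom ar ℕ → Prop := fun a => ∃ m, ∃ u : Fin (ar a.1) → Fin m, Fin.val ∘ u = a.2 ∧ (seq m).1 ⟨a.1, u⟩ = true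
  have hI : ∀ (n : ℕ) (r : R) (u : Fin (ar r) → Fin n), I ⟨r, Fin.val ∘ u⟩ ↔ (seq n).1 ⟨r, u⟩ = true := by
    intro n r u
    constructor
    · rintro ⟨m, u', hu', h⟩
      have hu'' : ∀ i, (u' i).val = (u i).val := fun i => congrFun hu' i
      rcases le_total m n with hmn | hmn
      · rw [← hcons n m hmn r u' u hu'']; exact h
      · rw [hcons m n hmn r u u' (fun i => (hu'' i).symm)]; exact h
    · intro h
      exact ⟨n, u, rfl, h⟩
  have hlit : ∀ (n k : ℕ) (u : Fin k → Fin n) (l : FLit ar k), l.Holds (fun a => (seq n).1 a = true) u →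
      l.Holds I (Fin.val ∘ u) := by
    intro n k u l h
    cases l with
    | rel s r args =>
      exact (hI n r (u ∘ args)).trans h
    | eq s i j =>
      have h' : (u i = u j ↔ s = true) := h
      show ((u i).val = (u j).val ↔ s = true)
      rw [← h', Fin.ext_iff]
  refine ⟨ℕ, inferInstance, I, fun S hS v => ?_⟩
  obtain ⟨a, ha⟩ := hf (some ⟨⟨S, hS⟩, v⟩)
  let j := (Finset.univ.sup v) + 1
  let m := Nat.pair a j
  have hm : ∀ i, v i < m := fun i => by
    have h1 : v i ≤ Finset.univ.sup v := Finset.le_sup (Finset.mem_univ i)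
    have h2 : j ≤ m := Nat.right_le_pair a j
    omega
  have hT : f m.unpair.1 = some ⟨⟨S, hS⟩, v⟩ := by
    rw [Nat.unpair_pair]; exact ha
  have hsat := (hF m (seq m) (f m.unpair.1)).2 ⟨S, hS⟩ v hT hm
  rw [← hseq] at hsat
  have hv : Fin.val ∘ (Fin.castSucc ∘ fun i => (⟨v i, hm i⟩ : Fin m)) = v := by
    funext i; simp
  rcases hsat with ⟨l, hl, hh⟩ | ⟨y, l, hl, hh⟩
  · left
    refine ⟨l, hl, ?_⟩
    have := hlit (m + 1) _ _ l hh
    rw [hv] at this
    exact this
  · right
    refine ⟨y.val, l, hl, ?_⟩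
    have := hlit (m + 1) _ _ l hh
    rw [val_ext, hv] at this
    exact this

end Pool.Agent.SymEF
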