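import Pool.Agent.SY.UPa

/-!
# TASK UPe (the refutation; easy)

PROOF. `E = Empty`, `dfn`, `rank` trivial, `lines = lift Empty '' Der P X w` (finite: `Der P X w` is a subset of the finite type
`Set (Atom ar X × Bool)`), `time C := sInf {t | ∃ D ∈ Stage P X w t, C = lift Empty D}` (so `time (lift D)` is the least `t` with `D ∈ Stage t`; `lift` is
injective, the image under an injective map). `empty_mem`: `lift Empty ∅ = ∅`. `ok`: let `C = lift D`, `D ∈ Stage t` with `t` least. If `t = 0`: `D ∈ ground P X`, an axiom.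
If `t = s + 1`: `D ∉ Stage s`, so `Thin w D` and there is `B ∈ Stage s` with `insert (ng l) D ∈ Stage s` for all `l ∈ B`, `l ∉ D`. Then the line `lift B`
has time `≤ s < t`, and for `l' ∈ lift B`, `l' = lift-literal of l`, `l' ∉ lift D`: `insert (ng l') (lift D) = lift (insert (ng l) D)`, of time `≤ s`.
`Sym`: `r` the identity of `Empty`; `ren (perm g) r '' lift C = lift (renaming of C)`, `stage_perm`.
The description of the lines: every element of `Der` is in `ground P X` or thin.
-/

set_option autoImplicit false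

namespace Pool.Agent.SymEF

open Equiv

variable {R : Type} {ar : R → ℕ}

private theorem UPe_lift_inj {V : Type} (E : Type) : Function.Injective (lift (V := V) E) := by
  apply Set.image_injective.mpr
  rintro ⟨a, s⟩ ⟨b, t⟩ h
  simpa using h

private theorem UPe_ng {V : Type} (E : Type) (l : V × Bool) (D : Set (V × Bool)) :
    insert (ng ((Sum.inl l.1 : V ⊕ E), l.2)) (lift E D) = lift E (insert (ng l) D) := by
  unfold lift
  rw [Set.image_insert_eq]
  rfl

private theorem UPe_ok (P : List (Schema ar)) (X : Type) (w : ℕ) (D : Set (Atom ar X × Bool)) :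
    ∀ t, D ∈ Stage P X w t → (∀ s, s < t → D ∉ Stage P X w s) →
      D ∈ ground P X ∨ ∃ s, s < t ∧ Thin w D ∧ ∃ B ∈ Stage P X w s, ∀ l ∈ B, l ∉ D → insert (ng l) D ∈ Stage P X w s := by
  intro t h h'
  cases t with
  | zero => exact Or.inl h
  | succ s =>
    right
    rcases h with h | h
    · exact absurd h (h' s (Nat.lt_succ_self s))
    · obtain ⟨h1, B, h2, h3⟩ := h
      exact ⟨s, Nat.lt_succ_self s, h1, B, h2, h3⟩

theorem exists_refutation (P : List (Schema ar)) (X : Type) [Finite R] [Finite X] (w : ℕ) (h : ∅ ∈ Der P X w) :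
    ∃ p : Refutation (ground P X), IsEmpty p.E ∧ p.lines = lift p.E '' Der P X w ∧
      ∀ g : Perm X, p.Sym (Atom.perm ar g) := by
  classical
  have hfa := finite_atom (ar := ar) X
  have hfin : (Der P X w).Finite := Set.toFinite _
  have hinj : Function.Injective (lift (V := Atom ar X) Empty) := UPe_lift_inj Empty
  let time : Set ((Atom ar X ⊕ Empty) × Bool) → ℕ := fun C => sInf {t | ∃ D ∈ Stage P X w t, C = lift Empty D}
  have htime : ∀ D t, D ∈ Stage P X w t → time (lift Empty D) ≤ t := fun D t h => Nat.sInf_le ⟨D, h, rfl⟩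
  have htime' : ∀ D ∈ Der P X w, D ∈ Stage P X w (time (lift Empty D)) := by
    rintro D ⟨t, ht⟩
    obtain ⟨D', h1, h2⟩ := Nat.sInf_mem (s := {t | ∃ D' ∈ Stage P X w t, lift Empty D = lift Empty D'}) ⟨t, D, ht, rfl⟩
    have h3 := hinj h2
    rw [← h3] at h1
    exact h1
  have hok : ∀ C ∈ lift Empty '' Der P X w, IsAxiom (ground P X) (fun e : Empty => e.elim) C ∨
    ∃ A ∈ lift Empty '' Der P X w, time A < time C ∧
      ∀ l ∈ A, l ∉ C → insert (ng l) C ∈ lift Empty '' Der P X w ∧ time (insert (ng l) C) < time C := by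
    rintro C ⟨D, hD, rfl⟩
    rcases UPe_ok P X w D _ (htime' D hD) (fun s hs h4 => absurd (htime D s h4) (not_le.mpr hs)) with h5 | h5
    · exact Or.inl (Or.inl ⟨D, h5, rfl⟩)
    · obtain ⟨s, hs, h6, B, hB, h7⟩ := h5
      right
      refine ⟨lift Empty B, ⟨B, ⟨s, hB⟩, rfl⟩, lt_of_le_of_lt (htime B s hB) hs, ?_⟩
      rintro l' ⟨l, hl, rfl⟩ hn
      have hn' : l ∉ D := fun h8 => hn ⟨l, h8, rfl⟩
      have h9 := h7 l hl hn'
      rw [UPe_ng]
      exact ⟨⟨_, ⟨s, h9⟩, rfl⟩, lt_of_le_of_lt (htime _ s h9) hs⟩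
  refine ⟨{ E := Empty, finE := inferInstance, dfn := fun e => e.elim, rank := fun e => e.elim,
            rank_lt := fun e => e.elim, lines := lift Empty '' Der P X w, finL := hfin.image _, time := time,
            ok := hok, empty_mem := ⟨∅, h, Set.image_empty _⟩ }, ?_, rfl, ?_⟩
  · exact (inferInstance : IsEmpty Empty)
  · intro g
    refine ⟨Equiv.refl Empty, fun e => e.elim, ?_⟩
    rintro C ⟨D, ⟨t, hD⟩, rfl⟩
    refine ⟨_, ⟨t, stage_perm P X w t g D hD⟩, ?_⟩
    unfold lift
    rw [Set.image_image, Set.image_image]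
    rfl

theorem der_cases (P : List (Schema ar)) (X : Type) (w : ℕ) (C : Set (Atom ar X × Bool)) (hC : C ∈ Der P X w) :
    C ∈ ground P X ∨ Thin w C := by
  obtain ⟨t, ht⟩ := hC
  induction t with
  | zero => exact Or.inl ht
  | succ s ih =>
    rcases ht with ht | ht
    · exact ih ht
    · exact Or.inr ht.1

end Pool.Agent.SymEF
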