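import Pool.Agent.SY.UPa

/-!
# TASK UPf (counting; easy)

PROOF of `ncard_thin`. `X` has `n ≥ 1` elements. Every thin clause `C` (with `U`, `|U| ≤ w`) is determined by a pair of a function `ι : Fin w → X` whose range
contains `U` (exists as `|U| ≤ w` and `X` is nonempty) and the set `C' = {(a, s) | (⟨a.1, ι ∘ a.2⟩, s) ∈ C}` of literals over `Fin w`: `C` is the image of `C'` under
`(a, s) ↦ (⟨a.1, ι ∘ a.2⟩, s)`. (A literal `(⟨r, u⟩, s) ∈ C` has all `u i ∈ U`, so `u = ι ∘ u'`.) So the set of the thin clauses is contained in the range of a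
map from `(Fin w → X) × Set (Atom ar (Fin w) × Bool)`, which has `n^w * 2^(2q)` elements, `q = |Atom ar (Fin w)|`.

PROOF of `ncard_of_thin`. `C` is the image of a set of literals over `Fin w` (as before; if `X` is empty the atoms over `X` are those of arity 0,
also the image of the atoms over `Fin w`: then use the map from the literals `(⟨r, u'⟩, s)`... simpler: `C ⊆` the literals over `U`; the map
from the literals over `U` to the literals over `Fin w` given by an injection `j : U → Fin w` is injective), so it has at most `2 q` elements.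

PROOF of `ncard_ground`. `ground P X` is contained in the union over `S ∈ P` of the range of `v ↦ S.clause v`, of cardinality `≤ n^(S.k) ≤ n^K` (`n ≥ 1`). So at
most `|P| * n^K` (induction on the list, or `Finset.card_biUnion_le` with `P.toFinset` classical; or an injection-free bound via
`Set.ncard` of the range of a map from `Fin P.length × (Fin K → X)`: `(i, u) ↦ (P.get i).clause (u ∘ Fin.castLE _)`; for `S.k ≤ K` every `v` is
`u ∘ castLE`).
-/

set_option autoImplicit false

namespace Pool.Agent.SymEF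

variable {R : Type} {ar : R → ℕ}

private theorem UPf_finite_atom (Y : Type) [Finite R] [Finite Y] : Finite (Atom ar Y) :=
  inferInstanceAs (Finite (Σ r : R, (Fin (ar r) → Y)))

private theorem UPf_range {α β : Type} [Finite α] (f : α → β) (s : Set β) (h : s ⊆ Set.range f) :
    s.ncard ≤ Nat.card α := by
  refine (Set.ncard_le_ncard h (Set.finite_range f)).trans ?_
  rw [← Set.image_univ, ← Set.ncard_univ]
  exact Set.ncard_image_le Set.finite_univ

private theorem UPf_enum {X : Type} [Nonempty X] (U : Finset X) {w : ℕ} (h : U.card ≤ w) :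
    ∃ ι : Fin w → X, ∀ x ∈ U, ∃ i, ι i = x := by
  obtain ⟨x0⟩ := ‹Nonempty X›
  refine ⟨fun i => U.toList.getD i.1 x0, fun x hx => ?_⟩
  obtain ⟨n, hn, hx'⟩ := List.getElem_of_mem (Finset.mem_toList.2 hx)
  have hn' : n < w := by
    rw [Finset.length_toList] at hn
    omega
  refine ⟨⟨n, hn'⟩, ?_⟩
  change U.toList.getD n x0 = x
  rw [List.getD_eq_getElem _ _ hn, hx']

private theorem UPf_card (w : ℕ) [Finite R] :
    Nat.card (Atom ar (Fin w) × Bool) = 2 * Nat.card (Atom ar (Fin w)) := by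
  rw [Nat.card_prod, mul_comm]
  congr 1
  rw [Nat.card_eq_fintype_card, Fintype.card_bool]

theorem ncard_thin (X : Type) [Finite R] [Finite X] [Nonempty X] (w : ℕ) :
    {C : Set (Atom ar X × Bool) | Thin w C}.ncard ≤ Nat.card X ^ w * 2 ^ (2 * Nat.card (Atom ar (Fin w))) := by
  have hf : Finite (Atom ar (Fin w)) := UPf_finite_atom _
  have hc : Nat.card ((Fin w → X) × Set (Atom ar (Fin w) × Bool)) =
      Nat.card X ^ w * 2 ^ (2 * Nat.card (Atom ar (Fin w))) := by
    rw [Nat.card_prod, Nat.card_fun, Nat.card_eq_fintype_card (α := Fin w), Fintype.card_fin,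
      ← UPf_card w]
    congr 1
    have : Fintype (Atom ar (Fin w) × Bool) := Fintype.ofFinite _
    rw [Nat.card_eq_fintype_card, Nat.card_eq_fintype_card, Fintype.card_set]
  rw [← hc]
  refine UPf_range (fun q : (Fin w → X) × Set (Atom ar (Fin w) × Bool) =>
    (fun l : Atom ar (Fin w) × Bool => ((⟨l.1.1, q.1 ∘ l.1.2⟩ : Atom ar X), l.2)) '' q.2) _ ?_
  rintro C ⟨U, hU, hC⟩
  obtain ⟨ι, hι⟩ := UPf_enum U hU
  refine ⟨(ι, {l | ((⟨l.1.1, ι ∘ l.1.2⟩ : Atom ar X), l.2) ∈ C}), ?_⟩
  ext l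
  constructor
  · rintro ⟨l', hl', rfl⟩
    exact hl'
  · intro hl
    have h1 : ∀ i, ∃ j, ι j = l.1.2 i := fun i => hι _ (hC l hl i)
    choose u' hu' using h1
    have h2 : ((⟨l.1.1, ι ∘ u'⟩ : Atom ar X), l.2) = l := by
      have h3 : ι ∘ u' = l.1.2 := funext hu'
      rw [h3]
    refine ⟨((⟨l.1.1, u'⟩ : Atom ar (Fin w)), l.2), ?_, h2⟩
    change ((⟨l.1.1, ι ∘ u'⟩ : Atom ar X), l.2) ∈ C
    rw [h2]
    exact hl

theorem ncard_of_thin (X : Type) [Finite R] [Finite X] (w : ℕ) (C : Set (Atom ar X × Bool)) (hC : Thin w C) :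
    C.ncard ≤ 2 * Nat.card (Atom ar (Fin w)) := by
  have hf : Finite (Atom ar (Fin w)) := UPf_finite_atom _
  obtain ⟨U, hU, hCU⟩ := hC
  obtain ⟨j⟩ : Nonempty (U ↪ Fin w) := by
    refine Function.Embedding.nonempty_of_card_le ?_
    rw [Fintype.card_coe, Fintype.card_fin]
    exact hU
  rw [← UPf_card w, ← Nat.card_coe_set_eq]
  refine Nat.card_le_card_of_injective
    (fun l : C => ((⟨l.1.1.1, fun i => j ⟨l.1.1.2 i, hCU l.1 l.2 i⟩⟩ : Atom ar (Fin w)), l.1.2)) ?_
  rintro ⟨⟨⟨r, u⟩, s⟩, hl⟩ ⟨⟨⟨r', u'⟩, s'⟩, hl'⟩ h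
  have h1 := congrArg Prod.fst h
  have h2 : s = s' := congrArg Prod.snd h
  have h3 : r = r' := congrArg Sigma.fst h1
  subst h2 h3
  have h4 : (fun i => j ⟨u i, hCU _ hl i⟩) = fun i => j ⟨u' i, hCU _ hl' i⟩ :=
    eq_of_heq (Sigma.mk.inj h1).2
  have h5 : u = u' := by
    funext i
    have h6 := congrFun h4 i
    exact congrArg Subtype.val (j.injective h6)
  subst h5
  rfl

theorem ncard_ground (P : List (Schema ar)) (X : Type) [Finite X] [Nonempty X] (K : ℕ) (hK : ∀ S ∈ P, S.k ≤ K) :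
    (ground P X).ncard ≤ P.length * Nat.card X ^ K := by
  have hc : Nat.card (Fin P.length × (Fin K → X)) = P.length * Nat.card X ^ K := by
    rw [Nat.card_prod, Nat.card_fun, Nat.card_eq_fintype_card (α := Fin K), Fintype.card_fin,
      Nat.card_eq_fintype_card (α := Fin P.length), Fintype.card_fin]
  rw [← hc]
  refine UPf_range (fun q : Fin P.length × (Fin K → X) =>
    (P.get q.1).clause fun j => q.2 (Fin.castLE (hK _ (List.get_mem P q.1)) j)) _ ?_
  rintro C ⟨S, hS, v, -, rfl⟩
  obtain ⟨x0⟩ := ‹Nonempty X›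
  obtain ⟨i, rfl⟩ := List.mem_iff_get.1 hS
  refine ⟨(i, fun j => if h : j.1 < (P.get i).k then v ⟨j.1, h⟩ else x0), ?_⟩
  have h1 : (fun j : Fin (P.get i).k => (fun j : Fin K => if h : j.1 < (P.get i).k then v ⟨j.1, h⟩ else x0)
      (Fin.castLE (hK _ (List.get_mem P i)) j)) = v := by
    funext j
    exact dif_pos j.2
  change (P.get i).clause (fun j : Fin (P.get i).k => (fun j : Fin K => if h : j.1 < (P.get i).k then v ⟨j.1, h⟩ else x0)
      (Fin.castLE (hK _ (List.get_mem P i)) j)) = _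
  rw [h1]

end Pool.Agent.SymEF
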