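import Pool.Agent.SY.UPc
import Pool.Agent.SY.UPd
import Pool.Agent.SY.UPe
import Pool.Agent.SY.UPf

/-!
# TASK UP (the upper bound; assembly, easy)

PROOF of `exists_width`. Suppose not: for all `w` and `n₀` there is `n ≥ n₀` with `∅ ∉ Der P (Fin n) w`. For every `i` take `w = n₀ = i`, so a number
`n i ≥ i` with `∅ ∉ Der P (Fin (n i)) i`. Let `good i m γ := ∃ ι : Fin m → Fin (n i), Function.Injective ι ∧ Neg ι γ ∉ Der P (Fin (n i)) i`. The hypotheses of
`model_of_families` are `exists_base`, `step_zero`, `step_one` (`m < i` gives `m + 1 ≤ i = w` and `m + 1 ≤ n i = Nat.card (Fin (n i))`). So `HasInfiniteModel P`,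
contradiction.

PROOF of `upper_bound`. Let `w, n₀` be as in `exists_width`, `n ≥ max n₀ 2`. `exists_refutation` gives `p`. Its size: `Nat.card p.E = 0`, and `p.lines.ncard ≤
(Der P (Fin n) w).ncard ≤ (ground).ncard + (thin).ncard` (`der_cases`, `Set.ncard_image_le`, `Set.ncard_union_le`, `Set.ncard_le_ncard`) `≤ |P| n^K + n^w 2^(2q) ≤
n^c` for `c = K + w + |P| + 2 q + 1`, as `n ≥ 2` (`|P| ≤ 2^|P| ≤ n^|P|`, `2^(2q) ≤ n^(2q)`, `n^x + n^y ≤ 2 n^(max) ≤ n^(max+1)`). A line is `lift D`, `D ∈ Der`: if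
`D ∈ ground` it is an axiom (`IsAxiom`, first case); if `D` is thin: `(lift D).ncard ≤ D.ncard ≤ 2 q ≤ c`.
-/

set_option autoImplicit false

namespace Pool.Agent.SymEF

open Equiv

variable {R : Type} {ar : R → ℕ}

theorem exists_width [Finite R] (P : List (Schema ar)) (hP : ¬ HasInfiniteModel P) :
    ∃ w n₀ : ℕ, ∀ n ≥ n₀, ∅ ∈ Der P (Fin n) w := by
  by_contra hcon
  push Not at hcon
  apply hP
  have hn : ∀ i : ℕ, ∃ n : ℕ, i ≤ n ∧ ∅ ∉ Der P (Fin n) i := by
    intro i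
    obtain ⟨n, h1, h2⟩ := hcon i i
    exact ⟨n, h1, h2⟩
  choose n hn1 hn2 using hn
  refine model_of_families P
    (fun i m γ => ∃ ι : Fin m → Fin (n i), Function.Injective ι ∧ Neg ι γ ∉ Der P (Fin (n i)) i) ?_ ?_ ?_
  · intro i
    obtain ⟨ι, γ, h⟩ := exists_base P (Fin (n i)) i (hn2 i)
    exact ⟨γ, ι, fun a => a.elim0, h⟩
  · intro i m γ hm hg
    obtain ⟨ι, hι, h⟩ := hg
    obtain ⟨ι', γ', h1, h2, h3⟩ := step_zero P (Fin (n i)) i m hm
      (by rw [Nat.card_fin]; exact le_trans hm (hn1 i)) ι hι γ h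
    exact ⟨γ', h2, ι', h1, h3⟩
  · intro i m γ hm hg S hS v
    obtain ⟨ι, hι, h⟩ := hg
    obtain ⟨ι', γ', h1, h2, h3, h4⟩ := step_one P (Fin (n i)) i m hm
      (by rw [Nat.card_fin]; exact le_trans hm (hn1 i)) ι hι γ h S hS v
    exact ⟨γ', h2, ⟨ι', h1, h3⟩, h4⟩

private theorem UP_exists_K (P : List (Schema ar)) : ∃ K : ℕ, ∀ S ∈ P, S.k ≤ K := by
  induction P with
  | nil => exact ⟨0, fun S hS => absurd hS (by simp)⟩
  | cons T P ih =>
    obtain ⟨K, hK⟩ := ih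
    refine ⟨max T.k K, fun S hS => ?_⟩
    rcases List.mem_cons.1 hS with h | h
    · rw [h]; exact le_max_left _ _
    · exact le_trans (hK S h) (le_max_right _ _)

private theorem UP_arith (n L K w q : ℕ) (hn : 2 ≤ n) :
    L * n ^ K + n ^ w * 2 ^ (2 * q) ≤ n ^ (K + w + L + 2 * q + 1) := by
  have hn1 : 1 ≤ n := by omega
  have h1 : L * n ^ K ≤ n ^ (K + w + L + 2 * q) := by
    calc L * n ^ K ≤ n ^ L * n ^ K :=
          Nat.mul_le_mul_right _ (le_trans (Nat.lt_two_pow_self).le (Nat.pow_le_pow_left hn L))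
      _ = n ^ (L + K) := (pow_add n L K).symm
      _ ≤ n ^ (K + w + L + 2 * q) := Nat.pow_le_pow_right hn1 (by omega)
  have h2 : n ^ w * 2 ^ (2 * q) ≤ n ^ (K + w + L + 2 * q) := by
    calc n ^ w * 2 ^ (2 * q) ≤ n ^ w * n ^ (2 * q) :=
          Nat.mul_le_mul_left _ (Nat.pow_le_pow_left hn (2 * q))
      _ = n ^ (w + 2 * q) := (pow_add n w (2 * q)).symm
      _ ≤ n ^ (K + w + L + 2 * q) := Nat.pow_le_pow_right hn1 (by omega)
  calc L * n ^ K + n ^ w * 2 ^ (2 * q)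
      ≤ n ^ (K + w + L + 2 * q) + n ^ (K + w + L + 2 * q) := Nat.add_le_add h1 h2
    _ = n ^ (K + w + L + 2 * q) * 2 := by ring
    _ ≤ n ^ (K + w + L + 2 * q) * n := Nat.mul_le_mul_left _ hn
    _ = n ^ (K + w + L + 2 * q + 1) := (pow_succ n _).symm

theorem upper_bound [Finite R] (P : List (Schema ar)) (hP : ¬ HasInfiniteModel P) :
    ∃ c n₀ : ℕ, ∀ n ≥ n₀, ∃ p : Refutation (ground P (Fin n)), IsEmpty p.E ∧
      (∀ C ∈ p.lines, IsAxiom (ground P (Fin n)) p.dfn C ∨ C.ncard ≤ c) ∧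
      (∀ g : Perm (Fin n), p.Sym (Atom.perm ar g)) ∧ p.size ≤ n ^ c := by
  obtain ⟨w, n₀, hw⟩ := exists_width P hP
  obtain ⟨K, hK⟩ := UP_exists_K P
  refine ⟨K + w + P.length + 2 * Nat.card (Atom ar (Fin w)) + 1, max n₀ 2, fun n hn => ?_⟩
  have hn0 : n₀ ≤ n := le_trans (le_max_left _ _) hn
  have hn2 : 2 ≤ n := le_trans (le_max_right _ _) hn
  have : Nonempty (Fin n) := ⟨⟨0, by omega⟩⟩
  obtain ⟨p, hE, hlines, hsym⟩ := exists_refutation P (Fin n) w (hw n hn0)
  have := hE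
  have : Finite (Atom ar (Fin n)) := finite_atom (Fin n)
  have : Finite (Atom ar (Fin n) × Bool) := inferInstance
  refine ⟨p, hE, ?_, hsym, ?_⟩
  · intro C hC
    rw [hlines] at hC
    obtain ⟨D, hD, rfl⟩ := hC
    rcases der_cases P (Fin n) w D hD with h | h
    · exact Or.inl (Or.inl ⟨D, h, rfl⟩)
    · refine Or.inr ?_
      calc (lift p.E D).ncard ≤ D.ncard := Set.ncard_image_le (Set.toFinite D)
        _ ≤ 2 * Nat.card (Atom ar (Fin w)) := ncard_of_thin (Fin n) w D h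
        _ ≤ K + w + P.length + 2 * Nat.card (Atom ar (Fin w)) + 1 := by omega
  · have hsub : Der P (Fin n) w ⊆ ground P (Fin n) ∪ {C | Thin w C} := by
      intro D hD
      exact der_cases P (Fin n) w D hD
    have hfin : (Der P (Fin n) w).Finite := Set.toFinite _
    unfold Refutation.size
    calc Nat.card p.E + p.lines.ncard = p.lines.ncard := by
          rw [Nat.card_of_isEmpty, Nat.zero_add]
      _ = (lift p.E '' Der P (Fin n) w).ncard := by rw [hlines]
      _ ≤ (Der P (Fin n) w).ncard := Set.ncard_image_le hfin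
      _ ≤ (ground P (Fin n) ∪ {C | Thin w C}).ncard := Set.ncard_le_ncard hsub (Set.toFinite _)
      _ ≤ (ground P (Fin n)).ncard + {C : Set (Atom ar (Fin n) × Bool) | Thin w C}.ncard :=
          Set.ncard_union_le _ _
      _ ≤ P.length * Nat.card (Fin n) ^ K +
            Nat.card (Fin n) ^ w * 2 ^ (2 * Nat.card (Atom ar (Fin w))) :=
          Nat.add_le_add (ncard_ground P (Fin n) K hK) (ncard_thin (Fin n) w)
      _ = P.length * n ^ K + n ^ w * 2 ^ (2 * Nat.card (Atom ar (Fin w))) := by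
          rw [Nat.card_fin]
      _ ≤ n ^ (K + w + P.length + 2 * Nat.card (Atom ar (Fin w)) + 1) :=
          UP_arith n P.length K w _ hn2

end Pool.Agent.SymEF
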