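import Pool.Agent.SY.EW8
import Pool.Agent.SY.UP
import Pool.Agent.SY.FO
import Pool.Agent.SY.Cl
import Pool.Agent.SY.Ord

/-!
# Symmetry in extended Frege proofs: a gap theorem

All definitions which the theorem uses are in the files `Defs`, `EWDefs`, `OrdDefs` (and `Part`, `Inv` in `EWDefs`, `stab`
in `EW1`) of `Pool/Agent/SY`.

A principle `P` is a finite list of sentences `∀ x₀ ... x_{k-1} (⋁ literals ∨ ∃ y ⋁ literals)` over finitely many relation
symbols, `P_X` is the set of clauses which says that `P` has a model with the universe `X`. The refutations are those of
extended Frege: extension variables which are defined as disjunctions of literals (so unfolded they are arbitrary circuits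
with negations and disjunctions of unbounded arity), lines which are clauses, and (multiple) cuts.

Lower bound. Let `P` have an infinite model `M`. Let `p` be a refutation of `P_X` in which every line and every circuit has
fewer than `C(a, a/16)` images under the permutations of `A ⊆ X`, `|A| = a`. By the small index theorem for subgroups of
symmetric groups (Bochert, Jordan) each of them has a support of fewer than `a/16` elements: it is fixed by the even
permutations of `A` which fix the support. Circuits are evaluated at injections of `X` into `M`: a circuit with the support
`D` is true if one of its parts is true at some injection which agrees with the given one outside of `A` and on `D`. This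
evaluation commutes with the symmetries, and all lines of `p` are true in it, also the empty one, which is a
contradiction.

Upper bound. If `P` has no infinite model, then the clauses with few elements which are derived by cuts with such
conclusions contain the empty clause for large `n`: otherwise the finite structures which are not refuted can be amalgamated to
an infinite model.
-/

set_option autoImplicit false

namespace Pool.Agent.SymEF.Reserve

open Pool.Agent.SymEF
open Equiv

/-- (1) Gap theorem. For every principle `P` the following are equivalent:
 - `P` has no infinite model;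
 - there are `c, n₀` such that for `n ≥ n₀`, `P_n` has a refutation without extension variables of size at most `n ^ c` in which
   every line is an input clause or has at most `c` literals, and which is symmetric under all permutations of the universe;
 - for infinitely many `n` there is a refutation of `P_n` of size less than `C(n, n/16)` which is symmetric under all
   permutations of the universe;
 - for infinitely many `n` there is a refutation of `P_n`, of any size, in which every line and every circuit has fewer
   than `C(n, n/16)` images under the permutations of the universe (the stabilizer has index less than `C(n, n/16)`).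

(2) If `P` has an infinite model then for all sufficiently large subsets `A` of a finite universe `X`, `a = |A|`, every refutation of
`P_X` contains a line or a circuit with at least `C(a, a/16)` images under the permutations of `A`, and if it is symmetric under the
group `G` of permutations of `A` then its size is at least `C(a, a/16) |G| / a!`.

(3) Every refutation `p` of `P_X` can be made symmetric under any finite group `G` of permutations of `X` at the cost of a
factor `|G|` in the size.

(4) Every first-order sentence in a finite relational language is equivalent to a principle, in the sense that both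
have models with the same universes.

(5) Example: the principle that a strict order has no maximal element has an infinite model and, for `n ≥ 1`,
refutations without extension variables of size at most `8 n ^ 3`. -/
theorem result :
    (∀ (R : Type) [Finite R] (ar : R → ℕ) (P : List (Schema ar)),
      List.TFAE [
        ¬ HasInfiniteModel P,
        ∃ c n₀ : ℕ, ∀ n ≥ n₀, ∃ p : Refutation (ground P (Fin n)), IsEmpty p.E ∧
          (∀ C ∈ p.lines, IsAxiom (ground P (Fin n)) p.dfn C ∨ C.ncard ≤ c) ∧
          (∀ g : Perm (Fin n), p.Sym (Atom.perm ar g)) ∧ p.size ≤ n ^ c,
        ∀ N : ℕ, ∃ n ≥ N, ∃ p : Refutation (ground P (Fin n)),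
          (∀ g : Perm (Fin n), p.Sym (Atom.perm ar g)) ∧ p.size < n.choose (n / 16),
        ∀ N : ℕ, ∃ n ≥ N, ∃ p : Refutation (ground P (Fin n)), ∀ C, p.Part C →
          n.factorial < n.choose (n / 16) * Nat.card (stab p Finset.univ C)]) ∧
    (∀ (R : Type) [Finite R] (ar : R → ℕ) (P : List (Schema ar)), HasInfiniteModel P →
      ∃ a₀ : ℕ, ∀ (X : Type) [Fintype X] [DecidableEq X] (A : Finset X), a₀ ≤ A.card →
        ∀ p : Refutation (ground P X),
          (∃ C, p.Part C ∧
            A.card.choose (A.card / 16) * Nat.card (stab p A C) ≤ A.card.factorial) ∧
          ∀ G : Subgroup (Perm X), (∀ g ∈ G, ∀ x, x ∉ A → g x = x) →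
            (∀ g ∈ G, p.Sym (Atom.perm ar g)) →
            A.card.choose (A.card / 16) * Nat.card G ≤ p.size * A.card.factorial) ∧
    (∀ (R X : Type) (ar : R → ℕ) (P : List (Schema ar)) (G : Subgroup (Perm X)) [Finite G]
      (p : Refutation (ground P X)),
      ∃ q : Refutation (ground P X), (∀ g ∈ G, q.Sym (Atom.perm ar g)) ∧
        q.size ≤ Nat.card G * p.size) ∧
    (∀ (L : FirstOrder.Language.{0, 0}) [L.IsRelational] [Finite (Σ n, L.Relations n)]
      (φ : L.Sentence), ∃ (R : Type) (_ : Finite R) (ar : R → ℕ) (P : List (Schema ar)),
      ∀ M : Type, (∃ I : Atom ar M → Prop, ∀ S ∈ P, S.Holds I) ↔ ∃ _ : L.Structure M, M ⊨ φ) ∧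
    HasInfiniteModel ordP ∧
    ∀ n ≥ 1, ∃ p : Refutation (ground ordP (Fin n)), IsEmpty p.E ∧ p.size ≤ 8 * n ^ 3 := by
  refine ⟨?_, ?_, ?_, ?_, ordP_infinite, fun n hn => ordP_refutation n hn⟩
  · intro R _ ar P
    tfae_have 1 → 2 := upper_bound P
    tfae_have 2 → 3 := by
      rintro ⟨c, n₀, h⟩ N
      obtain ⟨n₁, hn₁⟩ := poly_lt_choose c
      obtain ⟨p, -, -, hp, hs⟩ := h (max N (max n₀ n₁)) (by omega)
      exact ⟨max N (max n₀ n₁), by omega, p, hp, lt_of_le_of_lt hs (hn₁ _ (by omega))⟩
    tfae_have 3 → 4 := by
      intro h N
      obtain ⟨n, hn, p, hp, hs⟩ := h N
      refine ⟨n, hn, p, fun C hC => ?_⟩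
      have h1 := card_le_size Finset.univ ⊤ (by simp) p (fun g _ => hp g) C hC
      rw [Subgroup.card_top, Nat.card_eq_fintype_card, Fintype.card_perm, Fintype.card_fin] at h1
      exact lt_of_le_of_lt h1 (Nat.mul_lt_mul_of_pos_right hs Nat.card_pos)
    tfae_have 4 → 1 := by
      intro h hP
      obtain ⟨a₀, ha₀⟩ := orbit_bound P hP
      obtain ⟨n, hn, p, hp⟩ := h a₀
      obtain ⟨C, hC, hlt⟩ := ha₀ (Fin n) Finset.univ (by simpa using hn) p
      rw [Finset.card_univ, Fintype.card_fin] at hlt
      exact absurd (hp C hC) (not_lt.mpr hlt)
    tfae_finish
  · intro R _ ar P hP
    obtain ⟨a₀, ha₀⟩ := orbit_bound P hP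
    refine ⟨a₀, fun X _ _ A hA p => ?_⟩
    obtain ⟨C, hC, hlt⟩ := ha₀ X A hA p
    refine ⟨⟨C, hC, hlt⟩, fun G hG hs => ?_⟩
    have h1 := card_le_size A G hG p hs C hC
    calc A.card.choose (A.card / 16) * Nat.card G
        ≤ A.card.choose (A.card / 16) * (p.size * Nat.card (stab p A C)) :=
          Nat.mul_le_mul_left _ h1
      _ = p.size * (A.card.choose (A.card / 16) * Nat.card (stab p A C)) := by ring
      _ ≤ p.size * A.card.factorial := Nat.mul_le_mul_left _ hlt
  · intro R X ar P G _ p
    exact orbit_closure G p
  · intro L _ _ φ
    exact first_order L φ

end Pool.Agent.SymEF.Reserve
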