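import Mathlib

/-!
# TASK SI1 (Bochert's theorem)

A primitive permutation group `G` on `Ω`, `m = |Ω|`, which does not contain `Alt(Ω)`, has index at least
`⌊(m+1)/2⌋!`.

PROOF. For a subset `S` of `Ω` write `G_S` for the elements of `G` which fix every point of `S`. Take `S` (a Finset) of
minimal cardinality with `G_S = 1` (`S = univ` has it).

(a) `|S| ≤ m/2` (that is `2 |S| ≤ m`). Suppose `2 |S| > m`, then `|Ω \ S| < |S|`, so by minimality `G_(Ω \ S) ≠ 1`:
there is `x ∈ G`, `x ≠ 1`, which fixes all points outside of `S`. Take `α` with `x α ≠ α`, so `α ∈ S`. By minimality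
`G_(S \ {α}) ≠ 1`: there is `y ∈ G`, `y ≠ 1`, which fixes all points of `S \ {α}`. `y α ≠ α` since otherwise
`y ∈ G_S = 1`. So the supports of `x` and `y` (contained in `S` and in `{α} ∪ (Ω \ S)`) meet exactly in `α`; hence the
commutator `x y x⁻¹ y⁻¹` is a 3-cycle: it is `swap`-product on the three different points `α`, `x α`, `y α`.
(Check: put `β = x α ∈ S \ {α}`, `γ = y α ∉ S`. The commutator `c = x * y * x⁻¹ * y⁻¹` maps `α ↦ x (y (x⁻¹ (y⁻¹ α)))`;
`y⁻¹ α` is in the support of `y` and different from `α`, so outside of `S`, so `x⁻¹` fixes it, `y` maps it to `α`, and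
`x` maps it to `β`. `γ ↦ y⁻¹ γ = α ↦ x⁻¹ α ∈ S \ {α} ↦ (y fixes it) x⁻¹ α ↦ α`. `β ↦ (y⁻¹ fixes β) β ↦ x⁻¹ β = α ↦ y α = γ ↦
(x fixes γ) γ`. Every other point `δ` is fixed: if `y δ ≠ δ` then `δ ∉ S` (as `δ ≠ α`), `y⁻¹ δ ∉ S` (as `δ ≠ γ`, so
`y⁻¹ δ ≠ α`), `x⁻¹` fixes `y⁻¹ δ`, `y` maps it to `δ`, and `x` fixes `δ`. If `y δ = δ`: `y⁻¹ δ = δ`, and `x⁻¹ δ ≠ α` since
`δ ≠ β`; if `x δ = δ` clear; otherwise `δ, x⁻¹ δ ∈ S \ {α}`, so `y` fixes `x⁻¹ δ` and `x` maps it to `δ`.
So `c = swap α β * swap α γ`-like 3-cycle `α → β → γ → α`; in Mathlib: `Equiv.Perm.isThreeCycle_swap_mul_swap_same` or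
`card_support_eq_three_iff`.)
By Jordan's theorem `Equiv.Perm.alternatingGroup_le_of_isPreprimitive_of_isThreeCycle_mem` (file
`Mathlib/GroupTheory/GroupAction/Jordan.lean`; check the name) `Alt(Ω) ≤ G`, contradiction.

(b) The map `G → (S ↪ Ω)`, `g ↦ g|_S`, is injective (`g|_S = h|_S` gives `g⁻¹ h ∈ G_S = 1`). So
`|G| ≤ |S ↪ Ω| = m! / (m - |S|)!` (`Fintype.card_embedding_eq`, `Nat.descFactorial`, `Nat.factorial_mul_descFactorial`),
and `m - |S| ≥ (m+1)/2` by (a), so `|G| * ((m+1)/2)! ≤ |G| * (m - |S|)! ≤ m!`.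
-/

set_option autoImplicit false

namespace Pool.Agent.SymEF

open Equiv

private theorem SI1_ai {Ω : Type} (f : Perm Ω) (s : Ω) : f (f⁻¹ s) = s := f.apply_symm_apply s

private theorem SI1_ia {Ω : Type} (f : Perm Ω) (s : Ω) : f⁻¹ (f s) = s := f.symm_apply_apply s

private theorem SI1_comm {Ω : Type} [DecidableEq Ω] {S : Finset Ω} {x y : Perm Ω} {α : Ω}
    (hx : ∀ s, s ∉ S → x s = s) (hy : ∀ s ∈ S, s ≠ α → y s = s) (hxα : x α ≠ α) (hyα : y α ≠ α)
    (hα : α ∈ S) :
    x * y * x⁻¹ * y⁻¹ = swap α (y α) * swap α (x α) ∧ x α ≠ y α := by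
  have hβS : x α ∈ S := by
    by_contra h
    exact hxα (x.injective (hx _ h))
  have hγS : y α ∉ S := by
    intro h
    exact hyα (y.injective (hy _ h hyα))
  have hβγ : x α ≠ y α := fun h => hγS (h ▸ hβS)
  have hxi : ∀ s, s ∉ S → x⁻¹ s = s := by
    intro s hs
    rw [Perm.inv_eq_iff_eq]
    exact (hx s hs).symm
  have hyi : ∀ s ∈ S, s ≠ α → y⁻¹ s = s := by
    intro s hs hs'
    rw [Perm.inv_eq_iff_eq]
    exact (hy s hs hs').symm
  refine ⟨?_, hβγ⟩
  ext δ
  simp only [Perm.mul_apply]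
  by_cases h1 : δ = α
  · subst h1
    have e1 : y⁻¹ δ ∉ S := by
      intro h
      have h2 : y⁻¹ δ ≠ δ := by
        intro h3
        rw [Perm.inv_eq_iff_eq] at h3
        exact hyα h3.symm
      have h3 := hy _ h h2
      rw [SI1_ai] at h3
      exact h2 h3.symm
    rw [hxi _ e1, SI1_ai, swap_apply_left, swap_apply_of_ne_of_ne hxα hβγ]
  · by_cases h2 : δ = x α
    · subst h2
      rw [hyi _ hβS hxα, SI1_ia, hx _ hγS, swap_apply_right, swap_apply_left]
    · by_cases h3 : δ = y α
      · subst h3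
        have e1 : x⁻¹ α ≠ α := by
          intro h
          rw [Perm.inv_eq_iff_eq] at h
          exact hxα h.symm
        have e2 : x⁻¹ α ∈ S := by
          by_contra h
          have h4 := hx _ h
          rw [SI1_ai] at h4
          exact e1 h4.symm
        rw [SI1_ia, hy _ e2 e1, SI1_ai,
          swap_apply_of_ne_of_ne hyα (Ne.symm hβγ), swap_apply_right]
      · rw [swap_apply_of_ne_of_ne h1 h2, swap_apply_of_ne_of_ne h1 h3]
        by_cases h4 : y δ = δ
        · have e1 : y⁻¹ δ = δ := by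
            rw [Perm.inv_eq_iff_eq]
            exact h4.symm
          rw [e1]
          by_cases h5 : x δ = δ
          · have e2 : x⁻¹ δ = δ := by
              rw [Perm.inv_eq_iff_eq]
              exact h5.symm
            rw [e2, h4, h5]
          · have e2 : x⁻¹ δ ∈ S := by
              by_contra h
              have h6 := hx _ h
              rw [SI1_ai] at h6
              exact h5 (by conv_lhs => rw [h6]
                           rw [SI1_ai])
            have e3 : x⁻¹ δ ≠ α := by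
              intro h
              rw [Perm.inv_eq_iff_eq] at h
              exact h2 h
            rw [hy _ e2 e3, SI1_ai]
        · have e1 : δ ∉ S := fun h => h4 (hy _ h h1)
          have e2 : y⁻¹ δ ∉ S := by
            intro h
            have h5 : y⁻¹ δ ≠ α := by
              intro h6
              rw [Perm.inv_eq_iff_eq] at h6
              exact h3 h6
            have h6 := hy _ h h5
            rw [SI1_ai] at h6
            exact h4 (by conv_lhs => rw [h6]
                         rw [SI1_ai])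
          rw [hxi _ e2, SI1_ai, hx _ e1]

theorem bochert {Ω : Type} [Fintype Ω] [DecidableEq Ω] (G : Subgroup (Perm Ω)) (hG : MulAction.IsPreprimitive G Ω)
    (hA : ¬ alternatingGroup Ω ≤ G) :
    Nat.card G * ((Fintype.card Ω + 1) / 2).factorial ≤ (Fintype.card Ω).factorial := by
  classical
  let Q : Finset Ω → Prop := fun S => ∀ g ∈ G, (∀ s ∈ S, g s = s) → g = 1
  have hne : (Finset.univ.filter Q).Nonempty := ⟨Finset.univ, by
    rw [Finset.mem_filter]
    refine ⟨Finset.mem_univ _, fun g _ h => ?_⟩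
    ext s
    exact h s (Finset.mem_univ s)⟩
  obtain ⟨S, hS, hmin⟩ := Finset.exists_min_image (Finset.univ.filter Q) Finset.card hne
  have hQ : Q S := (Finset.mem_filter.1 hS).2
  have hmin' : ∀ T : Finset Ω, T.card < S.card →
      ∃ g ∈ G, (∀ s ∈ T, g s = s) ∧ g ≠ 1 := by
    intro T hT
    by_contra hcon
    push Not at hcon
    exact absurd (hmin T (Finset.mem_filter.2 ⟨Finset.mem_univ _, hcon⟩)) (not_le.2 hT)
  have hcard : 2 * S.card ≤ Fintype.card Ω := by
    by_contra hcon
    push Not at hcon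
    have h1 : Sᶜ.card < S.card := by
      rw [Finset.card_compl]
      have := Finset.card_le_univ S
      omega
    obtain ⟨x, hxG, hx, hx1⟩ := hmin' _ h1
    obtain ⟨α, hα⟩ : ∃ α, x α ≠ α := by
      by_contra h
      push Not at h
      exact hx1 (by
        ext s
        exact h s)
    have hx' : ∀ s, s ∉ S → x s = s := fun s hs => hx s (Finset.mem_compl.2 hs)
    have hαS : α ∈ S := by
      by_contra h
      exact hα (hx' α h)
    obtain ⟨y, hyG, hy, hy1⟩ := hmin' (S.erase α) (Finset.card_erase_lt_of_mem hαS)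
    have hy' : ∀ s ∈ S, s ≠ α → y s = s := fun s hs hs' => hy s (Finset.mem_erase.2 ⟨hs', hs⟩)
    have hyα : y α ≠ α := by
      intro h
      refine hy1 (hQ y hyG fun s hs => ?_)
      by_cases h2 : s = α
      · rw [h2]
        exact h
      · exact hy' s hs h2
    obtain ⟨hc, hne⟩ := SI1_comm hx' hy' hα hyα hαS
    have h3 : (x * y * x⁻¹ * y⁻¹).IsThreeCycle := by
      rw [hc]
      exact Equiv.Perm.isThreeCycle_swap_mul_swap_same (Ne.symm hyα) (Ne.symm hα) (Ne.symm hne)
    exact hA (Equiv.Perm.alternatingGroup_le_of_isPreprimitive_of_isThreeCycle_mem hG h3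
      (G.mul_mem (G.mul_mem (G.mul_mem hxG hyG) (G.inv_mem hxG)) (G.inv_mem hyG)))
  have hinj : Function.Injective (fun g : G => (⟨fun s : S => (g : Perm Ω) s,
      fun s t h => Subtype.ext ((g : Perm Ω).injective h)⟩ : S ↪ Ω)) := by
    intro g h hgh
    have h1 : ∀ s ∈ S, (g : Perm Ω) s = (h : Perm Ω) s := fun s hs =>
      congrArg (fun f : S ↪ Ω => f ⟨s, hs⟩) hgh
    have h2 : (h : Perm Ω)⁻¹ * (g : Perm Ω) = 1 := by
      refine hQ _ (G.mul_mem (G.inv_mem h.2) g.2) fun s hs => ?_
      rw [Perm.mul_apply, h1 s hs, SI1_ia]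
    exact Subtype.ext (by rw [inv_mul_eq_one] at h2; exact h2.symm)
  have h1 : Nat.card G ≤ (Fintype.card Ω).descFactorial S.card := by
    have h2 := Nat.card_le_card_of_injective _ hinj
    rw [Nat.card_eq_fintype_card (α := S ↪ Ω), Fintype.card_embedding_eq, Fintype.card_coe] at h2
    exact h2
  have hle := Finset.card_le_univ S
  have h2 := Nat.factorial_mul_descFactorial hle
  have h3 : ((Fintype.card Ω + 1) / 2).factorial ≤ (Fintype.card Ω - S.card).factorial :=
    Nat.factorial_le (by omega)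
  calc Nat.card G * ((Fintype.card Ω + 1) / 2).factorial
      ≤ (Fintype.card Ω).descFactorial S.card * (Fintype.card Ω - S.card).factorial :=
        Nat.mul_le_mul h1 h3
    _ = (Fintype.card Ω).factorial := by rw [mul_comm, h2]

end Pool.Agent.SymEF
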