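import Mathlib

/-!
# TASK SI2a (numerics for imprimitive groups, easy)

PROOF. By induction on `a`: (`a = 1`: `b! * 1 * 2^0 ≤ b!`.) For `a → a + 1`:
`((a+1) b)! = (ab)! * C((a+1) b, b) * b!` and `C((a+1) b, b) = (a+1) * C((a+1) b - 1, b - 1)` (from
`Nat.succ_mul_choose_eq` or `Nat.add_one_mul_choose_eq`: `b * C(N, b) = N * C(N - 1, b - 1)` with `N = (a+1) b`), and
`C(N - 1, b - 1) ≥ 2^(b-1)` for `N ≥ 2 b`: e.g. `C(2b - 1, b - 1)` is at least the number `2^(b-1)`: by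
`Nat.choose_le_choose` `C(N-1, b-1) ≥ C(2b-1, b-1)`, and `C(2b-1, b-1) ≥ 2^(b-1)` by induction, or: the sum of
`C(2b-1, i)` over `i = 0 .. 2b-1` is `2^(2b-1)`, each term is at most the middle one `C(2b-1, b-1)`, so
`C(2b-1,b-1) ≥ 2^(2b-1) / (2b) ≥ ...` (induction is easier: `C(2b+1, b) = C(2b-1,b-1) * (2b)(2b+1)/(b(b+1)) ≥ 2 C(2b-1,b-1)`;
or use `Nat.four_pow_lt_mul_centralBinom`, or `Nat.two_pow_le_...`).
So `(b!)^(a+1) (a+1)! 2^(a (b-1)) = [(b!)^a a! 2^((a-1)(b-1))] * b! * (a+1) * 2^(b-1) ≤ (ab)! * b! * (a+1) * C(N-1,b-1)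
= ((a+1) b)!`.

The second statement: `(a-1)(b-1) ≥ ab/2 - 1` (natural numbers, `a, b ≥ 2`): `2(a-1)(b-1) - ab + 2 = ab - 2a - 2b + 4 =
(a-2)(b-2) ≥ 0`.
-/

set_option autoImplicit false

namespace Pool.Agent.SymEF

private theorem SI2a_choose (k : ℕ) : ∀ N, 2 * k ≤ N → 2 ^ k ≤ N.choose k := by
  induction k with
  | zero => intro N _; simp
  | succ k ih =>
    intro N hN
    obtain ⟨n, rfl⟩ : ∃ n, N = n + 1 := ⟨N - 1, by omega⟩
    have h1 := Nat.add_one_mul_choose_eq n k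
    have h2 := ih n (by omega)
    have h3 : 2 ^ (k + 1) * (k + 1) ≤ (n + 1).choose (k + 1) * (k + 1) := by
      rw [← h1]
      calc 2 ^ (k + 1) * (k + 1) = (2 * (k + 1)) * 2 ^ k := by ring
        _ ≤ (n + 1) * n.choose k := Nat.mul_le_mul (by omega) h2
    exact Nat.le_of_mul_le_mul_right h3 (Nat.succ_pos k)

theorem wreath_numeric (a b : ℕ) (ha : 1 ≤ a) (hb : 1 ≤ b) :
    b.factorial ^ a * a.factorial * 2 ^ ((a - 1) * (b - 1)) ≤ (a * b).factorial := by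
  induction a, ha using Nat.le_induction with
  | base => simp
  | succ a ha ih =>
    obtain ⟨c, rfl⟩ : ∃ c, b = c + 1 := ⟨b - 1, by omega⟩
    have h1 : (a + 1) * (c + 1) = (a * (c + 1) + c) + 1 := by ring
    have h2 := Nat.add_one_mul_choose_eq (a * (c + 1) + c) c
    have h3 : ((a + 1) * (c + 1)).choose (c + 1) = (a + 1) * (a * (c + 1) + c).choose c := by
      apply Nat.eq_of_mul_eq_mul_right (Nat.succ_pos c)
      rw [h1, Nat.succ_eq_add_one, ← h2, ← h1]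
      ring
    have h4 : 2 ^ c ≤ (a * (c + 1) + c).choose c :=
      SI2a_choose c _ (by nlinarith)
    have h5 : (c + 1) ≤ (a + 1) * (c + 1) := by nlinarith
    have h6 := Nat.choose_mul_factorial_mul_factorial h5
    have h7 : (a + 1) * (c + 1) - (c + 1) = a * (c + 1) := by
      rw [Nat.add_mul, one_mul, Nat.add_sub_cancel]
    rw [h7, h3] at h6
    rw [← h6]
    have h8 : (a + 1 - 1) * (c + 1 - 1) = (a - 1) * (c + 1 - 1) + c := by
      obtain ⟨d, rfl⟩ : ∃ d, a = d + 1 := ⟨a - 1, by omega⟩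
      simp only [Nat.add_sub_cancel]
      ring
    rw [h8, pow_succ, pow_add, Nat.factorial_succ a]
    calc (c + 1).factorial ^ a * (c + 1).factorial * ((a + 1) * a.factorial) *
          (2 ^ ((a - 1) * (c + 1 - 1)) * 2 ^ c)
        = (a + 1) * 2 ^ c * (c + 1).factorial *
          ((c + 1).factorial ^ a * a.factorial * 2 ^ ((a - 1) * (c + 1 - 1))) := by ring
      _ ≤ (a + 1) * (a * (c + 1) + c).choose c * (c + 1).factorial * (a * (c + 1)).factorial :=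
        Nat.mul_le_mul (Nat.mul_le_mul_right _ (Nat.mul_le_mul_left _ h4)) ih

theorem wreath_numeric' (a b : ℕ) (ha : 2 ≤ a) (hb : 2 ≤ b) :
    b.factorial ^ a * a.factorial * 2 ^ (a * b / 2 - 1) ≤ (a * b).factorial := by
  refine le_trans (Nat.mul_le_mul_left _ (Nat.pow_le_pow_right (by norm_num) ?_))
    (wreath_numeric a b (by omega) (by omega))
  obtain ⟨c, rfl⟩ : ∃ c, a = c + 2 := ⟨a - 2, by omega⟩
  obtain ⟨d, rfl⟩ : ∃ d, b = d + 2 := ⟨b - 2, by omega⟩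
  have h1 : (c + 2) * (d + 2) ≤ 2 * ((c + 2 - 1) * (d + 2 - 1) + 1) := by
    have h2 : c + 2 - 1 = c + 1 := by omega
    have h3 : d + 2 - 1 = d + 1 := by omega
    rw [h2, h3]
    nlinarith [Nat.zero_le (c * d)]
  omega

end Pool.Agent.SymEF
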