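import Mathlib

/-!
# TASK SI2b (the blocks of a transitive imprimitive group)

PROOF. `G` is pretransitive and not preprimitive (`MulAction.IsPreprimitive` has the fields: pretransitive, and every
block is trivial), so there is a block `B` (`MulAction.IsBlock G B`) which is not trivial: `B` is not a subsingleton and
`B ≠ univ`. Let `Q` be the set of translates `g • B`, `g ∈ G` (the orbit of `B` in `Set Ω`, a finite type
`↥(MulAction.orbit G B)`). The translates form a partition of `Ω` (`MulAction.IsBlock.isBlockSystem`), so every point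
`x` is in exactly one translate `π x`. For `g ∈ G`: `π (g x) = g • π x`. So `π x = π y → π (g x) = π (g y)`. The fibre of
`π` over the translate `g • B` is `g • B` itself, of cardinality `b := |B|` (ncard), `2 ≤ b`; the number of translates
`a := |Q|` satisfies `a ≥ 2` since `B ≠ univ`.
-/

set_option autoImplicit false

namespace Pool.Agent.SymEF

open Equiv

open scoped Pointwise in
theorem exists_blocks {Ω : Type} [Fintype Ω] [DecidableEq Ω] (G : Subgroup (Perm Ω)) (hG : MulAction.IsPretransitive G Ω)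
    (hn : ¬ MulAction.IsPreprimitive G Ω) (hne : Nonempty Ω) :
    ∃ (Q : Type) (_ : Fintype Q) (π : Ω → Q) (b : ℕ), 2 ≤ b ∧ 2 ≤ Fintype.card Q ∧
      (∀ q, Nat.card {x // π x = q} = b) ∧ ∀ g ∈ G, ∀ x y, π x = π y → π (g x) = π (g y) := by
  obtain ⟨B, hB, hBt⟩ : ∃ B : Set Ω, MulAction.IsBlock G B ∧ ¬ MulAction.IsTrivialBlock B := by
    by_contra hcon
    apply hn
    constructor
    intro B hB
    by_contra hBt
    exact hcon ⟨B, hB, hBt⟩
  have hB1 : B.Nontrivial := by
    rw [← Set.not_subsingleton_iff]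
    exact fun h => hBt (Or.inl h)
  have hB2 : B ≠ Set.univ := fun h => hBt (Or.inr h)
  obtain ⟨b₀, hb₀⟩ := hB1.nonempty
  have hcov : ∀ x : Ω, ∃ g : G, x ∈ g • B := by
    intro x
    obtain ⟨g, hg⟩ := hG.exists_smul_eq b₀ x
    exact ⟨g, b₀, hb₀, hg⟩
  choose gx hgx using hcov
  have huniq : ∀ (x : Ω) (S S' : Set Ω), (∃ g : G, S = g • B) → (∃ g : G, S' = g • B) → x ∈ S → x ∈ S' → S = S' := by
    rintro x S S' ⟨g, rfl⟩ ⟨g', rfl⟩ hx hx'
    rcases hB.smul_eq_smul_or_disjoint g g' with h | h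
    · exact h
    · exact absurd (Set.disjoint_left.mp h hx) (fun h' => h' hx')
  have hfin : Finite {S : Set Ω // ∃ g : G, S = g • B} := inferInstance
  let fQ : Fintype {S : Set Ω // ∃ g : G, S = g • B} := Fintype.ofFinite _
  let π : Ω → {S : Set Ω // ∃ g : G, S = g • B} := fun x => ⟨gx x • B, ⟨gx x, rfl⟩⟩
  have hπ : ∀ (x : Ω) (q : {S : Set Ω // ∃ g : G, S = g • B}), π x = q ↔ x ∈ q.1 := by
    intro x q
    constructor
    · intro h
      rw [← h]
      exact hgx x
    · intro h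
      apply Subtype.ext
      exact huniq x _ _ ⟨gx x, rfl⟩ q.2 (hgx x) h
  refine ⟨{S : Set Ω // ∃ g : G, S = g • B}, fQ, π, B.ncard, ?_, ?_, ?_, ?_⟩
  · have := (Set.one_lt_ncard (Set.toFinite B)).mpr (by
      obtain ⟨x, hx, y, hy, hxy⟩ := hB1
      exact ⟨x, hx, y, hy, hxy⟩)
    omega
  · obtain ⟨y, hy⟩ : ∃ y, y ∉ B := by
      by_contra hcon
      apply hB2
      rw [Set.eq_univ_iff_forall]
      intro y
      by_contra hy
      exact hcon ⟨y, hy⟩
    have hne' : π y ≠ π b₀ := by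
      intro h
      have h1 : π b₀ = ⟨B, ⟨1, (one_smul G B).symm⟩⟩ := (hπ _ _).mpr hb₀
      rw [h1] at h
      exact hy ((hπ _ _).mp h)
    exact Fintype.one_lt_card_iff.mpr ⟨_, _, hne'⟩
  · rintro ⟨S, g, rfl⟩
    have h1 : Nat.card {x // π x = ⟨g • B, ⟨g, rfl⟩⟩} = Nat.card ((g • B : Set Ω)) :=
      Nat.card_congr (Equiv.subtypeEquivRight (fun x => hπ x _))
    rw [h1]
    show (g • B).ncard = B.ncard
    exact Set.ncard_image_of_injective B (MulAction.injective g)
  · intro g hg x y hxy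
    have h1 : x ∈ (π y).1 := (hπ x _).mp hxy
    have h2 : y ∈ (π y).1 := (hπ y _).mp rfl
    have h3 : ∃ g' : G, (⟨g, hg⟩ : G) • (π y).1 = g' • B := ⟨⟨g, hg⟩ * gx y, by
      rw [mul_smul]⟩
    have h4 : g x ∈ (⟨g, hg⟩ : G) • (π y).1 := ⟨x, h1, rfl⟩
    have h5 : g y ∈ (⟨g, hg⟩ : G) • (π y).1 := ⟨y, h2, rfl⟩
    have h6 : π (g x) = ⟨_, h3⟩ := (hπ _ _).mpr h4
    have h7 : π (g y) = ⟨_, h3⟩ := (hπ _ _).mpr h5
    rw [h6, h7]

end Pool.Agent.SymEF
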