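import Mathlib

/-!
# TASK SI2c (the order of a group which preserves a partition)

PROOF. Let `a = |Q|`. Since `b ≥ 1`, `π` is surjective. For `g ∈ G` there is a map `h_g : Q → Q` with
`h_g (π x) = π (g x)` (well defined by `hG`); it is surjective since `π` and `g` are, so a permutation of the finite set `Q`.
`h_(g g') = h_g ∘ h_g'`. If `h_g = h_g'` then `g⁻¹ g'` preserves `π`: `π (g⁻¹ (g' x)) = π x` (apply `hG` for `g`: the points
`u := g⁻¹ (g' x)` and `x` satisfy `π (g u) = π (g' x) = h_g' (π x) = h_g (π x) = π (g x)`, and `h_g` is injective, so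
`π u = π x`). So every fibre of the map `G → Perm Q`, `g ↦ h_g` has at most `|K|` elements, where
`K = {k : Perm Ω // π ∘ k = π}`, and `|K| = ∏_q (b!) = (b!)^a` by `DomMulAct.stabilizer_card`
(`Mathlib/GroupTheory/Perm/DomMulAct.lean`). Hence `|G| ≤ |Perm Q| * |K| = a! * (b!)^a`
(e.g. the map `G → Perm Q × K`, `g ↦ (h_g, s(h_g)⁻¹ * g)` for a choice `s` of elements of `G` over the image, is injective).
-/

set_option autoImplicit false

namespace Pool.Agent.SymEF

open Equiv

private theorem SI2c_ai {Ω : Type} (g : Perm Ω) (x : Ω) : g (g⁻¹ x) = x := by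
  show (g * g⁻¹) x = x
  rw [mul_inv_cancel]
  rfl

private theorem SI2c_surj {Ω Q : Type} (π : Ω → Q) (b : ℕ) (hb : 1 ≤ b)
    (hfib : ∀ q, Nat.card {x // π x = q} = b) : Function.Surjective π := by
  intro q
  have h1 : Nat.card {x // π x = q} ≠ 0 := by
    rw [hfib q]
    omega
  have h2 : Nonempty {x // π x = q} := by
    by_contra hcon
    rw [not_nonempty_iff] at hcon
    exact h1 (Nat.card_of_isEmpty)
  obtain ⟨x⟩ := h2
  exact ⟨x.1, x.2⟩

private theorem SI2c_bij {Ω Q : Type} [Fintype Q] (π : Ω → Q) (hs : Function.Surjective π)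
    (g : Perm Ω) (hg : ∀ x y, π x = π y → π (g x) = π (g y)) :
    (∀ x, π (g (Function.surjInv hs (π x))) = π (g x)) ∧
      Function.Bijective (fun q => π (g (Function.surjInv hs q))) := by
  have h1 : ∀ x, π (g (Function.surjInv hs (π x))) = π (g x) := fun x =>
    hg _ _ (Function.surjInv_eq hs (π x))
  refine ⟨h1, ?_⟩
  have h2 : Function.Surjective (fun q => π (g (Function.surjInv hs q))) := by
    intro q
    obtain ⟨x, hx⟩ := hs q
    refine ⟨π (g⁻¹ x), ?_⟩
    show π (g (Function.surjInv hs (π (g⁻¹ x)))) = q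
    rw [h1, SI2c_ai, hx]
  exact ⟨Finite.injective_iff_surjective.2 h2, h2⟩

theorem card_le_wreath {Ω : Type} [Fintype Ω] [DecidableEq Ω] (G : Subgroup (Perm Ω))
    (Q : Type) [Fintype Q] (π : Ω → Q) (b : ℕ) (hb : 1 ≤ b) (hfib : ∀ q, Nat.card {x // π x = q} = b)
    (hG : ∀ g ∈ G, ∀ x y, π x = π y → π (g x) = π (g y)) :
    Nat.card G ≤ b.factorial ^ Fintype.card Q * (Fintype.card Q).factorial := by
  classical
  have hs := SI2c_surj π b hb hfib
  let Φ : G → Perm Q := fun g => Equiv.ofBijective _ (SI2c_bij π hs g.1 (hG g.1 g.2)).2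
  have hΦ : ∀ (g : G) (x : Ω), Φ g (π x) = π (g.1 x) := fun g x =>
    (SI2c_bij π hs g.1 (hG g.1 g.2)).1 x
  have hk : ∀ g g' : G, Φ g = Φ g' → π ∘ ((g.1⁻¹ * g'.1 : Perm Ω)) = π := by
    intro g g' hgg
    funext x
    show π (g.1⁻¹ (g'.1 x)) = π x
    apply (Φ g).injective
    rw [hΦ, SI2c_ai, ← hΦ g' x, hgg]
  have hsec : ∀ g : G, Φ (Function.invFun Φ (Φ g)) = Φ g := fun g => Function.invFun_eq ⟨g, rfl⟩
  let Ψ : G → Perm Q × {k : Perm Ω // π ∘ k = π} := fun g =>
    (Φ g, ⟨(Function.invFun Φ (Φ g)).1⁻¹ * g.1, hk _ _ (hsec g)⟩)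
  have hinj : Function.Injective Ψ := by
    intro g g' h
    have h1 : Φ g = Φ g' := congrArg Prod.fst h
    have h2 : (Function.invFun Φ (Φ g)).1⁻¹ * g.1 = (Function.invFun Φ (Φ g')).1⁻¹ * g'.1 :=
      congrArg Subtype.val (congrArg Prod.snd h)
    rw [h1] at h2
    exact Subtype.ext (mul_left_cancel h2)
  have hcard := Nat.card_le_card_of_injective Ψ hinj
  have hK : Nat.card {k : Perm Ω // π ∘ k = π} = b.factorial ^ Fintype.card Q := by
    rw [Nat.card_eq_fintype_card, DomMulAct.stabilizer_card]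
    have h3 : ∀ q : Q, (Fintype.card {a // π a = q}).factorial = b.factorial := by
      intro q
      rw [← hfib q, Nat.card_eq_fintype_card]
    rw [Finset.prod_congr rfl fun q _ => h3 q, Finset.prod_const, Finset.card_univ]
  rw [Nat.card_prod, hK, Nat.card_eq_fintype_card, Nat.card_eq_fintype_card, Fintype.card_perm] at hcard
  rw [Nat.card_eq_fintype_card]
  rw [mul_comm]
  exact hcard

theorem card_eq_mul_of_fibres {Ω : Type} [Fintype Ω] (Q : Type) [Fintype Q] (π : Ω → Q) (b : ℕ)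
    (hfib : ∀ q, Nat.card {x // π x = q} = b) : Fintype.card Ω = Fintype.card Q * b := by
  classical
  rw [← Fintype.card_congr (Equiv.sigmaFiberEquiv π), Fintype.card_sigma]
  have h3 : ∀ q : Q, Fintype.card {a // π a = q} = b := by
    intro q
    rw [← hfib q, Nat.card_eq_fintype_card]
  rw [Finset.sum_congr rfl fun q _ => h3 q, Finset.sum_const, Finset.card_univ, smul_eq_mul]

end Pool.Agent.SymEF
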