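import Pool.Agent.SY.SI1
import Pool.Agent.SY.SI2a
import Pool.Agent.SY.SI2b
import Pool.Agent.SY.SI2c

/-!
# TASK SI2 (transitive groups which do not contain the alternating group; assembly, easy)

PROOF. If `G` is preprimitive: `bochert` gives `|G| * ((m+1)/2)! ≤ m!`, and `2^(m/2 - 1) ≤ ((m+1)/2)!`
(`2^(j-1) ≤ j!`, `Nat.two_pow_sub_one_le_factorial` or by induction, and `m/2 ≤ (m+1)/2`). Otherwise (`Ω` nonempty; if
`Ω` is empty `G` contains the alternating group, which is trivial) `exists_blocks`, `card_le_wreath`,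
`card_eq_mul_of_fibres` and `wreath_numeric'` give `|G| * 2^(m/2-1) ≤ (b!)^a a! 2^(ab/2 - 1) ≤ (ab)! = m!`.
-/

set_option autoImplicit false

namespace Pool.Agent.SymEF

open Equiv

private theorem SI2_pow (j : ℕ) : 2 ^ (j - 1) ≤ j.factorial := by
  induction j with
  | zero => simp
  | succ j ih =>
    rcases j with _ | j
    · simp
    · have h1 : 2 ^ (j + 1 + 1 - 1) = 2 * 2 ^ (j + 1 - 1) := by
        rw [Nat.add_sub_cancel, Nat.add_sub_cancel, pow_succ, mul_comm]
      rw [h1, Nat.factorial_succ]
      exact Nat.mul_le_mul (by omega) ih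

theorem transitive_bound {Ω : Type} [Fintype Ω] [DecidableEq Ω] (G : Subgroup (Perm Ω))
    (hG : MulAction.IsPretransitive G Ω) (hA : ¬ alternatingGroup Ω ≤ G) :
    Nat.card G * 2 ^ (Fintype.card Ω / 2 - 1) ≤ (Fintype.card Ω).factorial := by
  by_cases hp : MulAction.IsPreprimitive G Ω
  · have h1 := bochert G hp hA
    have h2 : 2 ^ (Fintype.card Ω / 2 - 1) ≤ ((Fintype.card Ω + 1) / 2).factorial :=
      (SI2_pow _).trans (Nat.factorial_le (Nat.div_le_div_right (Nat.le_succ _)))
    exact (Nat.mul_le_mul_left _ h2).trans h1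
  · rcases isEmpty_or_nonempty Ω with he | hne
    · exfalso
      apply hA
      intro x _
      have : x = 1 := Subsingleton.elim _ _
      rw [this]
      exact one_mem G
    · obtain ⟨Q, hQ, π, b, hb, ha, hfib, hπ⟩ := exists_blocks G hG hp hne
      have h1 := card_le_wreath G Q π b (by omega) hfib hπ
      have h2 := card_eq_mul_of_fibres Q π b hfib
      have h3 := wreath_numeric' (Fintype.card Q) b ha hb
      rw [← h2] at h3
      exact (Nat.mul_le_mul_right _ h1).trans h3

end Pool.Agent.SymEF
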