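import Mathlib

/-!
# TASK SI3 (groups with an invariant set; easy)

PROOF. `G` is contained in the group of the permutations which preserve `U`, i.e. in `{g | f ∘ g = f}` for
`f x := decide (x ∈ U) : Bool`, of cardinality `|U|! * (m - |U|)!` by `DomMulAct.stabilizer_card` (`Fintype.card {a // f a =
true} = |U|`). And `C(m, |U|) * |U|! * (m - |U|)! = m!` (`Nat.choose_mul_factorial_mul_factorial`).
For (for `g ∈ G`) `g x ∈ U ↔ x ∈ U`: from `hU`: `x ∈ U → g x ∈ U` for all `g ∈ G`, apply it also to `g⁻¹`.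
-/

set_option autoImplicit false

namespace Pool.Agent.SymEF

open Equiv

theorem invariant_bound {Ω : Type} [Fintype Ω] [DecidableEq Ω] (G : Subgroup (Perm Ω)) (U : Finset Ω)
    (hU : ∀ g ∈ G, ∀ x ∈ U, g x ∈ U) :
    Nat.card G * (Fintype.card Ω).choose U.card ≤ (Fintype.card Ω).factorial := by
  have hiff : ∀ g ∈ G, ∀ x, g x ∈ U ↔ x ∈ U := by
    intro g hg x
    refine ⟨fun h => ?_, hU g hg x⟩
    have h1 := hU g⁻¹ (G.inv_mem hg) (g x) h
    simpa using h1
  let F : G → Perm {x // x ∈ U} × Perm {x // ¬ x ∈ U} := fun g =>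
    (Perm.subtypePerm g.1 (fun x => hiff g.1 g.2 x),
      Perm.subtypePerm g.1 (fun x => not_congr (hiff g.1 g.2 x)))
  have hF : Function.Injective F := by
    intro g h hgh
    have h1 := congrArg Prod.fst hgh
    have h2 := congrArg Prod.snd hgh
    refine Subtype.ext (Equiv.ext fun x => ?_)
    by_cases hx : x ∈ U
    · have h3 := congrArg (fun e : Perm {x // x ∈ U} => ((e ⟨x, hx⟩ : {x // x ∈ U}) : Ω)) h1
      exact h3
    · have h3 := congrArg (fun e : Perm {x // ¬ x ∈ U} => ((e ⟨x, hx⟩ : {x // ¬ x ∈ U}) : Ω)) h2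
      exact h3
  have h1 : Nat.card G ≤ Nat.card (Perm {x // x ∈ U} × Perm {x // ¬ x ∈ U}) :=
    Nat.card_le_card_of_injective F hF
  have hc : Fintype.card {x // ¬ x ∈ U} = Fintype.card Ω - U.card := by
    rw [Fintype.card_subtype_compl, Fintype.card_coe]
  have h2 : Nat.card (Perm {x // x ∈ U} × Perm {x // ¬ x ∈ U}) =
      U.card.factorial * (Fintype.card Ω - U.card).factorial := by
    rw [Nat.card_prod, Nat.card_eq_fintype_card, Nat.card_eq_fintype_card, Fintype.card_perm,
      Fintype.card_perm, Fintype.card_coe, hc]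
  rw [h2] at h1
  calc Nat.card G * (Fintype.card Ω).choose U.card
      ≤ (U.card.factorial * (Fintype.card Ω - U.card).factorial) *
        (Fintype.card Ω).choose U.card := Nat.mul_le_mul_right _ h1
    _ = (Fintype.card Ω).factorial := by
        rw [← Nat.choose_mul_factorial_mul_factorial (Finset.card_le_univ U)]
        ring

end Pool.Agent.SymEF
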