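import Mathlib

/-!
# TASK SI4 (a large orbit; easy)

PROOF. `n = |Ω|`. Let `U` be a `G`-invariant Finset of maximal cardinality among the invariant sets with `|U| < k` (`∅` is
one). `|U| < n`, so take `x ∉ U`, and let `O` be the orbit of `x` (the Finset of all `g x`, `g ∈ G`). `U ∪ O` is invariant
and larger than `U`, so `|U ∪ O| ≥ k` by maximality. If `|O| < k` then `|U ∪ O| ≤ 2(k-1) ≤ n - k`, so `U ∪ O` contradicts
`hno`. So `|O| ≥ k`, and as `O` is invariant, `hno` gives `|O| > n - k`, i.e. `n < |O| + k`.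
-/

set_option autoImplicit false

namespace Pool.Agent.SymEF

open Equiv

theorem large_orbit {Ω : Type} [Fintype Ω] [DecidableEq Ω] (G : Subgroup (Perm Ω)) (k : ℕ) (hk : 1 ≤ k)
    (h3 : 3 * k ≤ Fintype.card Ω)
    (hno : ∀ U : Finset Ω, (∀ g ∈ G, ∀ x ∈ U, g x ∈ U) → k ≤ U.card → Fintype.card Ω < U.card + k) :
    ∃ O : Finset Ω, (∀ g ∈ G, ∀ x ∈ O, g x ∈ O) ∧ (∀ x ∈ O, ∀ y ∈ O, ∃ g ∈ G, g x = y) ∧
      Fintype.card Ω < O.card + k := by
  classical
  let S : Finset (Finset Ω) :=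
    Finset.univ.filter fun U => (∀ g ∈ G, ∀ x ∈ U, g x ∈ U) ∧ U.card < k
  have hS : S.Nonempty := by
    refine ⟨∅, ?_⟩
    simp only [S, Finset.mem_filter, Finset.mem_univ, true_and, Finset.card_empty]
    exact ⟨fun g _ x hx => absurd hx (Finset.notMem_empty x), hk⟩
  obtain ⟨U, hU, hmax⟩ := Finset.exists_max_image S Finset.card hS
  simp only [S, Finset.mem_filter, Finset.mem_univ, true_and] at hU
  obtain ⟨hUi, hUk⟩ := hU
  have hx : ∃ x, x ∉ U := by
    by_contra h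
    push Not at h
    have h1 : U = Finset.univ := Finset.eq_univ_iff_forall.2 h
    rw [h1, Finset.card_univ] at hUk
    omega
  obtain ⟨x, hx⟩ := hx
  let O : Finset Ω := Finset.univ.filter fun y => ∃ g ∈ G, g x = y
  have hO : ∀ y, y ∈ O ↔ ∃ g ∈ G, g x = y := by
    intro y
    simp only [O, Finset.mem_filter, Finset.mem_univ, true_and]
  have hOi : ∀ g ∈ G, ∀ y ∈ O, g y ∈ O := by
    intro g hg y hy
    obtain ⟨h, hh, rfl⟩ := (hO y).1 hy
    exact (hO _).2 ⟨g * h, G.mul_mem hg hh, rfl⟩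
  have hOt : ∀ y ∈ O, ∀ z ∈ O, ∃ g ∈ G, g y = z := by
    intro y hy z hz
    obtain ⟨h, hh, rfl⟩ := (hO y).1 hy
    obtain ⟨h', hh', rfl⟩ := (hO z).1 hz
    refine ⟨h' * h⁻¹, G.mul_mem hh' (G.inv_mem hh), ?_⟩
    rw [Perm.mul_apply, ← Perm.mul_apply h⁻¹ h, inv_mul_cancel, Perm.one_apply]
  have hxO : x ∈ O := (hO x).2 ⟨1, G.one_mem, rfl⟩
  have hUO : ∀ g ∈ G, ∀ y ∈ U ∪ O, g y ∈ U ∪ O := by
    intro g hg y hy
    rw [Finset.mem_union] at hy ⊢
    rcases hy with hy | hy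
    · exact Or.inl (hUi g hg y hy)
    · exact Or.inr (hOi g hg y hy)
  have hlt : U.card < (U ∪ O).card := by
    apply Finset.card_lt_card
    refine ⟨Finset.subset_union_left, fun h => hx (h (Finset.mem_union_right _ hxO))⟩
  have hge : k ≤ (U ∪ O).card := by
    by_contra h
    push Not at h
    have h1 := hmax (U ∪ O) (by
      simp only [S, Finset.mem_filter, Finset.mem_univ, true_and]
      exact ⟨hUO, h⟩)
    omega
  have hc := Finset.card_union_le U O
  have h2 := hno (U ∪ O) hUO hge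
  have h4 : k ≤ O.card := by
    by_contra h
    omega
  exact ⟨O, hOi, hOt, hno O hOi h4⟩

end Pool.Agent.SymEF
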