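import Mathlib

/-!
# TASK SI5 (numerics; easy)

PROOF of `choose_le_two_pow`. `k = n/16`, `C(n,k) (1/15)^k ≤ (1 + 1/15)^n` (one term of the binomial theorem), i.e.
`C(n,k) * 15^(n-k) ≤ 16^n` (`C(n,k) * 15^(n-k) * 1^k` is a term of `(1 + 15)^n`, `Finset.single_le_sum` and `add_pow`).
Raise it to the 16th power: `C(n,k)^16 * 15^(16(n-k)) ≤ 16^(16 n)`, and `16 k ≤ n`, so `15^(15 n) ≤ 15^(16 n - 16 k)`, so
`C(n,k)^16 * 15^(15n) ≤ 16^(16n)`; and `16^16 ≤ 15^15 * 64` (a numerical fact: 16^16 = 18446744073709551616,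
15^15 * 64 = 437893890380859375 * 64 = 28025208984375000000), so `16^(16n) ≤ 15^(15n) * 64^n` and
`C(n,k)^16 ≤ 64^n = 2^(6n)`. If `C(n,k) > 2^(m/2-1)` then `2^(16 (m/2 - 1)) < 2^(6n)`, `16 (m/2 - 1) < 6 n`. But
`m ≥ n - n/16 + 1`, so `m/2 ≥ (m-1)/2 ≥ (n - n/16)/2`, `16(m/2) ≥ 8 m - 8 ≥ 8 (n - n/16) ≥ 7.5 n`, so
`16 (m/2 - 1) ≥ 7.5 n - 16 ≥ 6 n` for `n ≥ 11`. (With naturals: `16*(m/2) + 8 ≥ 8*m`, `m ≥ n - n/16 + 1`, `16*(n/16) ≤ n`; `omega`
does this.) Contradiction.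

PROOF of `choose_mono`. `C(n,k) ≤ C(n,u)` for `k ≤ u ≤ n - k`, `k ≤ n/2`: `Nat.choose` is unimodal and symmetric
(`Nat.choose_le_choose`?, `Nat.choose_symm`; Mathlib has `Nat.choose_le_succ_of_lt_half_left`): for `u ≤ n/2` by induction on `u` from
`k`, for `u > n/2` replace `u` by `n - u`.

PROOF of `poly_lt_choose`. `C(n,k) ≥ (n/k)^k`-like bounds: `Nat.pow_le_choose`: `((n + 1 - k : ℕ) / k)^k`-type lemma
(`Nat.pow_le_choose (r n : ℕ) : ((n + 1 - r : ℕ) ^ r : α) ≤ r ! * n.choose r` together with `r! ≤ r^r`): with `k = n/16`,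
`n + 1 - k ≥ 15 k`, so `15^k * k^k ≤ (n+1-k)^k ≤ k! * C(n,k) ≤ k^k * C(n,k)`, so `C(n,k) ≥ 15^k ≥ 2^k` (`k ≥ 1`). And
`n^c < 2^(n/16)` for large `n`: exponentials beat polynomials (e.g. from `tendsto_pow_const_div_const_pow_of_one_lt` or
`Nat`-elementary: `n < 2^...`).
-/

set_option autoImplicit false

namespace Pool.Agent.SymEF

theorem choose_le_two_pow (n m : ℕ) (hn : 16 ≤ n) (hm : n < m + n / 16) : n.choose (n / 16) ≤ 2 ^ (m / 2 - 1) := by
  by_contra hlt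
  have hlt' : 2 ^ (m / 2 - 1) < n.choose (n / 16) := Nat.lt_of_not_le hlt
  have hk : n / 16 ≤ n := Nat.div_le_self n 16
  have h1 : 15 ^ (n - n / 16) * n.choose (n / 16) ≤ 16 ^ n := by
    have h2 : (15 + 1 : ℕ) ^ n = ∑ j ∈ Finset.range (n + 1), 15 ^ j * 1 ^ (n - j) * n.choose j :=
      add_pow 15 1 n
    have h3 : 15 ^ (n - n / 16) * 1 ^ (n - (n - n / 16)) * n.choose (n - n / 16) ≤
        ∑ j ∈ Finset.range (n + 1), 15 ^ j * 1 ^ (n - j) * n.choose j :=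
      Finset.single_le_sum (f := fun j => 15 ^ j * 1 ^ (n - j) * n.choose j)
        (fun _ _ => Nat.zero_le _) (Finset.mem_range.2 (by omega))
    rw [← h2, one_pow, mul_one, Nat.choose_symm hk] at h3
    exact h3
  have h4 : (15 ^ (n - n / 16) * n.choose (n / 16)) ^ 16 ≤ (16 ^ n) ^ 16 :=
    Nat.pow_le_pow_left h1 16
  rw [mul_pow, ← pow_mul, ← pow_mul, Nat.mul_comm n 16, pow_mul 16 16 n] at h4
  have h5 : (15 : ℕ) ^ (15 * n) ≤ 15 ^ ((n - n / 16) * 16) :=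
    Nat.pow_le_pow_right (by norm_num) (by omega)
  have h6 : ((16 : ℕ) ^ 16) ^ n ≤ (15 ^ 15 * 64) ^ n := Nat.pow_le_pow_left (by norm_num) n
  have h7 : (15 : ℕ) ^ (15 * n) * n.choose (n / 16) ^ 16 ≤ 15 ^ (15 * n) * 64 ^ n := by
    calc (15 : ℕ) ^ (15 * n) * n.choose (n / 16) ^ 16
        ≤ 15 ^ ((n - n / 16) * 16) * n.choose (n / 16) ^ 16 := Nat.mul_le_mul_right _ h5
      _ ≤ (16 ^ 16) ^ n := h4
      _ ≤ (15 ^ 15 * 64) ^ n := h6
      _ = 15 ^ (15 * n) * 64 ^ n := by rw [mul_pow, ← pow_mul]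
  have h8 : n.choose (n / 16) ^ 16 ≤ 64 ^ n :=
    Nat.le_of_mul_le_mul_left h7 (Nat.pow_pos (by norm_num))
  have h9 : (2 ^ (m / 2 - 1)) ^ 16 < n.choose (n / 16) ^ 16 :=
    Nat.pow_lt_pow_left hlt' (by norm_num)
  have h10 : (2 : ℕ) ^ ((m / 2 - 1) * 16) < 2 ^ (6 * n) := by
    rw [pow_mul, pow_mul]
    exact lt_of_lt_of_le h9 h8
  have h11 : (m / 2 - 1) * 16 < 6 * n := (Nat.pow_lt_pow_iff_right (by norm_num)).1 h10
  omega

private theorem SI5_half (n k u : ℕ) (hk : k ≤ u) (hu : u ≤ n / 2) :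
    n.choose k ≤ n.choose u := by
  induction u, hk using Nat.le_induction with
  | base => exact le_refl _
  | succ u _ ih =>
    exact le_trans (ih (by omega)) (Nat.choose_le_succ_of_lt_half_left (by omega))

theorem choose_mono (n k u : ℕ) (hk : k ≤ u) (hu : u + k ≤ n) : n.choose k ≤ n.choose u := by
  by_cases h : u ≤ n / 2
  · exact SI5_half n k u hk h
  · have hun : u ≤ n := by omega
    rw [← Nat.choose_symm hun]
    exact SI5_half n k (n - u) (by omega) (by omega)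

theorem poly_lt_choose (c : ℕ) : ∃ n₀ : ℕ, ∀ n ≥ n₀, n ^ c < n.choose (n / 16) := by
  have h1 := tendsto_pow_const_div_const_pow_of_one_lt c (r := (15 : ℝ)) (by norm_num)
  have h2 : ∀ᶠ k : ℕ in Filter.atTop, (k : ℝ) ^ c / 15 ^ k < 1 / 32 ^ c :=
    h1.eventually_lt_const (by positivity)
  obtain ⟨K, hK⟩ := Filter.eventually_atTop.1 h2
  refine ⟨16 * (K + 1), fun n hn => ?_⟩
  have hk1 : K ≤ n / 16 := by omega
  have hk2 : 1 ≤ n / 16 := by omega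
  have h3 := hK (n / 16) hk1
  generalize hk : n / 16 = k at *
  have hn2 : n ≤ 32 * k := by omega
  have h4 : (32 * k) ^ c < 15 ^ k := by
    have h5 : ((k : ℝ)) ^ c * 32 ^ c < 15 ^ k := by
      rw [div_lt_div_iff₀ (by positivity) (by positivity), one_mul] at h3
      exact h3
    have h6 : ((k ^ c * 32 ^ c : ℕ) : ℝ) < ((15 ^ k : ℕ) : ℝ) := by
      push_cast
      exact h5
    have h7 : k ^ c * 32 ^ c < 15 ^ k := by exact_mod_cast h6
    rw [mul_pow, mul_comm]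
    exact h7
  have h8 : 15 ^ k * k ^ k ≤ k ^ k * n.choose k := by
    calc 15 ^ k * k ^ k = (15 * k) ^ k := by rw [mul_pow]
      _ ≤ (n + 1 - k) ^ k := Nat.pow_le_pow_left (by omega) k
      _ ≤ n.descFactorial k := Nat.pow_sub_le_descFactorial n k
      _ = k.factorial * n.choose k := Nat.descFactorial_eq_factorial_mul_choose n k
      _ ≤ k ^ k * n.choose k := Nat.mul_le_mul_right _ (Nat.factorial_le_pow k)
  have h9 : 15 ^ k ≤ n.choose k := by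
    rw [mul_comm (k ^ k)] at h8
    exact Nat.le_of_mul_le_mul_right h8 (Nat.pow_pos (by omega))
  calc n ^ c ≤ (32 * k) ^ c := Nat.pow_le_pow_left hn2 c
    _ < 15 ^ k := h4
    _ ≤ n.choose k := h9

end Pool.Agent.SymEF
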