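import Pool.Agent.SY.SI2

/-!
# TASK SI6a (restriction to an orbit)

PROOF. Let `H` be the set of all permutations `t` of the subtype `O` such that `∃ g ∈ G, ∀ x : O, g x = t x`: a subgroup of
`Perm O`; it is transitive on `O` by `htr`. Its order: every `g ∈ G` preserves `O` (and the complement of `O`: `g` is
injective and maps the finite set `O` onto `O`), so it gives a pair (restriction to `O`, restriction to the complement), and
`g` is determined by the pair: `|G| ≤ |H| * (n - m)!`, `m = |O|`, `n = |Ω|` (use `Equiv.Perm.subtypePerm`).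
If `Alt(O)` were not contained in `H`, `transitive_bound` (for `H` on the type `O`, `Fintype.card O = m`) would give
`|H| * 2^(m/2-1) ≤ m!`, so `|G| * 2^(m/2-1) ≤ m! * (n-m)!`, contradiction to `hlt`.
-/

set_option autoImplicit false

namespace Pool.Agent.SymEF

open Equiv

/-- The permutations of `O` which are restrictions of elements of `G`. -/
private def SI6a_H {Ω : Type} (G : Subgroup (Perm Ω)) (O : Finset Ω) : Subgroup (Perm {x // x ∈ O}) where
  carrier := {t | ∃ g ∈ G, ∀ x : {x // x ∈ O}, g x = t x}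
  mul_mem' := by
    rintro t₁ t₂ ⟨g₁, h₁, e₁⟩ ⟨g₂, h₂, e₂⟩
    refine ⟨g₁ * g₂, G.mul_mem h₁ h₂, fun x => ?_⟩
    rw [Perm.mul_apply, Perm.mul_apply, e₂, e₁]
  one_mem' := ⟨1, G.one_mem, fun _ => rfl⟩
  inv_mem' := by
    rintro t ⟨g, h, e⟩
    refine ⟨g⁻¹, G.inv_mem h, fun x => ?_⟩
    have h1 : g ((t⁻¹ x : {x // x ∈ O}) : Ω) = x := by
      rw [e]
      exact congrArg Subtype.val (t.apply_symm_apply x)
    rw [Perm.inv_eq_iff_eq]
    exact h1.symm

theorem restrict_contains_alt {Ω : Type} [Fintype Ω] [DecidableEq Ω] (G : Subgroup (Perm Ω)) (O : Finset Ω)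
    (hO : ∀ g ∈ G, ∀ x ∈ O, g x ∈ O) (htr : ∀ x ∈ O, ∀ y ∈ O, ∃ g ∈ G, g x = y)
    (hlt : O.card.factorial * (Fintype.card Ω - O.card).factorial < Nat.card G * 2 ^ (O.card / 2 - 1)) :
    ∀ t ∈ alternatingGroup {x // x ∈ O}, ∃ g ∈ G, ∀ x : {x // x ∈ O}, g x = t x := by
  classical
  have hiff : ∀ g ∈ G, ∀ x, g x ∈ O ↔ x ∈ O := by
    intro g hg x
    refine ⟨fun h => ?_, hO g hg x⟩
    have h1 := hO g⁻¹ (G.inv_mem hg) (g x) h
    have h2 : g⁻¹ (g x) = x := g.symm_apply_apply x
    rwa [h2] at h1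
  have hiff' : ∀ g ∈ G, ∀ x, g x ∉ O ↔ x ∉ O := fun g hg x => not_congr (hiff g hg x)
  have hsub : ∀ g (hg : g ∈ G), g.subtypePerm (hiff g hg) ∈ SI6a_H G O := fun g hg =>
    ⟨g, hg, fun _ => rfl⟩
  by_cases hA : alternatingGroup {x // x ∈ O} ≤ SI6a_H G O
  · exact fun t ht => hA ht
  · exfalso
    have htrans : MulAction.IsPretransitive (SI6a_H G O) {x // x ∈ O} := by
      refine ⟨fun x y => ?_⟩
      obtain ⟨g, hg, hgx⟩ := htr x.1 x.2 y.1 y.2
      exact ⟨⟨g.subtypePerm (hiff g hg), hsub g hg⟩, Subtype.ext hgx⟩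
    have h1 := transitive_bound (SI6a_H G O) htrans hA
    rw [Fintype.card_coe] at h1
    have hinj : Function.Injective (fun g : G => ((⟨g.1.subtypePerm (hiff g.1 g.2), hsub g.1 g.2⟩ :
        SI6a_H G O), g.1.subtypePerm (p := fun x => x ∉ O) (hiff' g.1 g.2))) := by
      intro g g' h
      obtain ⟨h2, h3⟩ := Prod.ext_iff.1 h
      have h2' := congrArg Subtype.val h2
      dsimp only at h2' h3
      refine Subtype.ext (Equiv.ext fun x => ?_)
      by_cases hx : x ∈ O
      · exact congrArg Subtype.val (Equiv.congr_fun h2' ⟨x, hx⟩)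
      · exact congrArg Subtype.val (Equiv.congr_fun h3 ⟨x, hx⟩)
    have h2 := Nat.card_le_card_of_injective _ hinj
    have h3 : Nat.card (Perm {x // x ∉ O}) = (Fintype.card Ω - O.card).factorial := by
      rw [Nat.card_eq_fintype_card, Fintype.card_perm, Fintype.card_subtype_compl, Fintype.card_coe]
    rw [Nat.card_prod, h3] at h2
    have h4 : Nat.card G * 2 ^ (O.card / 2 - 1) ≤
        O.card.factorial * (Fintype.card Ω - O.card).factorial := by
      calc Nat.card G * 2 ^ (O.card / 2 - 1) ≤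
          Nat.card (SI6a_H G O) * (Fintype.card Ω - O.card).factorial * 2 ^ (O.card / 2 - 1) :=
            Nat.mul_le_mul_right _ h2
        _ = Nat.card (SI6a_H G O) * 2 ^ (O.card / 2 - 1) * (Fintype.card Ω - O.card).factorial := by ring
        _ ≤ O.card.factorial * (Fintype.card Ω - O.card).factorial := Nat.mul_le_mul_right _ h1
    exact absurd hlt (not_lt.2 h4)

end Pool.Agent.SymEF
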