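import Mathlib

/-!
# TASK SI6b (a large group whose restriction to `O` contains `Alt(O)` contains the even permutations with support in `O`)

PROOF. Let `N` be the set of all `t : Perm O` such that the permutation of `Ω` which is `t` on `O` and the identity outside
of `O` (`Equiv.Perm.ofSubtype t`) belongs to `G`: a subgroup of `Perm O`, and `Alt(O) ⊓ N`, as a subgroup `N'` of the group
`alternatingGroup O` (`N.subgroupOf (alternatingGroup O)`), is normal: for `s ∈ Alt(O)` there is `g ∈ G` with `g = s` on `O`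
(`hr`), and `g` preserves `O` and the complement of `O`, so `g * ofSubtype t * g⁻¹ = ofSubtype (s t s⁻¹)` is in `G`.
`alternatingGroup O` is simple (`alternatingGroup.isSimpleGroup`, `5 ≤ |O|`; file
`Mathlib/GroupTheory/SpecificGroups/Alternating/Simple.lean`). So `N' = ⊥` or `N' = ⊤`.

`N' = ⊥` is impossible: then `|N| ≤ 2` (two odd elements `s, t` of `N` have `s⁻¹ t ∈ N` even, so `s = t`; i.e. the sign is
injective on `N`). The restriction of the elements of `G` to the complement of `O` is a homomorphism to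
`Perm {x // x ∉ O}` whose kernel consists of the `ofSubtype t`, `t ∈ N`. So `|G| ≤ |N| * (n-m)! ≤ 2 (n-m)!`, contradiction to
`hlt`.

So `N' = ⊤`: every even `t` on `O` has `ofSubtype t ∈ G`. Let `g` be an even permutation of `Ω` which fixes all points outside
of `O`. Then `g = ofSubtype t` for `t = g.subtypePerm _`, and `sign t = sign g` (`Equiv.Perm.sign_subtypePerm`,
`Equiv.Perm.ofSubtype_subtypePerm`, `Equiv.Perm.sign_ofSubtype`), so `g ∈ G`.
-/

set_option autoImplicit false

namespace Pool.Agent.SymEF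

open Equiv

theorem even_mem_of_restrict {Ω : Type} [Fintype Ω] [DecidableEq Ω] (G : Subgroup (Perm Ω)) (O : Finset Ω)
    (hO : ∀ g ∈ G, ∀ x ∈ O, g x ∈ O) (h5 : 5 ≤ O.card)
    (hlt : 2 * (Fintype.card Ω - O.card).factorial < Nat.card G)
    (hr : ∀ t ∈ alternatingGroup {x // x ∈ O}, ∃ g ∈ G, ∀ x : {x // x ∈ O}, g x = t x) :
    ∀ g ∈ alternatingGroup Ω, (∀ x, x ∉ O → g x = x) → g ∈ G := by
  classical
  have hiff : ∀ g ∈ G, ∀ x, g x ∈ O ↔ x ∈ O := by
    intro g hg x
    refine ⟨fun h => ?_, hO g hg x⟩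
    have h1 := hO g⁻¹ (G.inv_mem hg) (g x) h
    have h2 : g⁻¹ (g x) = x := g.symm_apply_apply x
    rwa [h2] at h1
  have hinv : ∀ (g : Perm Ω) (x : Ω), g⁻¹ (g x) = x := fun g x => g.symm_apply_apply x
  have hinv' : ∀ (g : Perm Ω) (x : Ω), g (g⁻¹ x) = x := fun g x => g.apply_symm_apply x
  obtain ⟨N, hN⟩ : ∃ N : Subgroup (Perm {x // x ∈ O}), ∀ t, t ∈ N ↔ Perm.ofSubtype t ∈ G :=
    ⟨G.comap (Perm.ofSubtype : Perm {x // x ∈ O} →* Perm Ω), fun t => Subgroup.mem_comap⟩
  have hconj : ∀ s : Perm {x // x ∈ O}, ∀ g ∈ G, (∀ x : {x // x ∈ O}, g x = s x) → ∀ t : Perm {x // x ∈ O},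
      Perm.ofSubtype (s * t * s⁻¹) = g * Perm.ofSubtype t * g⁻¹ := by
    intro s g hg hgs t
    ext x
    by_cases hx : x ∈ O
    · have hx' : g⁻¹ x ∈ O := hO g⁻¹ (G.inv_mem hg) x hx
      have h1 : s⁻¹ ⟨x, hx⟩ = ⟨g⁻¹ x, hx'⟩ := by
        rw [Perm.inv_eq_iff_eq]
        apply Subtype.ext
        rw [← hgs ⟨g⁻¹ x, hx'⟩]
        exact (hinv' g x).symm
      rw [Perm.ofSubtype_apply_of_mem _ hx, Perm.mul_apply, Perm.mul_apply, Perm.mul_apply, Perm.mul_apply, h1,
        Perm.ofSubtype_apply_of_mem _ hx', hgs]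
    · have hx' : g⁻¹ x ∉ O := fun h => hx ((hinv' g x) ▸ hO g hg _ h)
      rw [Perm.ofSubtype_apply_of_not_mem _ hx, Perm.mul_apply, Perm.mul_apply,
        Perm.ofSubtype_apply_of_not_mem _ hx', hinv']
  have hnormal : (N.subgroupOf (alternatingGroup {x // x ∈ O})).Normal := by
    refine ⟨fun n hn s => ?_⟩
    rw [Subgroup.mem_subgroupOf] at hn ⊢
    obtain ⟨g, hg, hgs⟩ := hr s s.2
    rw [hN] at hn ⊢
    have := hconj s g hg hgs n
    push_cast
    rw [this]
    exact G.mul_mem (G.mul_mem hg hn) (G.inv_mem hg)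
  have hsimple : IsSimpleGroup (alternatingGroup {x // x ∈ O}) :=
    alternatingGroup.isSimpleGroup (by rw [Nat.card_eq_fintype_card, Fintype.card_coe]; exact h5)
  rcases hsimple.eq_bot_or_eq_top_of_normal _ hnormal with hbot | htop
  · exfalso
    have hker : ∀ t ∈ N, Perm.sign t = 1 → t = 1 := by
      intro t ht hs
      have h1 : (⟨t, Perm.mem_alternatingGroup.2 hs⟩ : alternatingGroup {x // x ∈ O}) ∈
          N.subgroupOf (alternatingGroup {x // x ∈ O}) := Subgroup.mem_subgroupOf.2 ht
      rw [hbot, Subgroup.mem_bot] at h1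
      exact congrArg Subtype.val h1
    have hcard : Nat.card G ≤ Nat.card (Perm {x // x ∉ O} × ℤˣ) := by
      have : Finite (Perm {x // x ∉ O} × ℤˣ) := inferInstance
      apply Nat.card_le_card_of_injective (fun g : G =>
        ((g : Perm Ω).subtypePerm (p := fun x => x ∉ O) (fun x => not_congr (hiff g g.2 x)),
          Perm.sign ((g : Perm Ω).subtypePerm (p := fun x => x ∈ O) (hiff g g.2))))
      intro g g' hgg
      obtain ⟨h1, h2⟩ := Prod.ext_iff.1 hgg
      simp only at h1 h2
      have hk : (g : Perm Ω)⁻¹ * g' ∈ G := G.mul_mem (G.inv_mem g.2) g'.2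
      have hkout : ∀ x, x ∉ O → ((g : Perm Ω)⁻¹ * g') x = x := by
        intro x hx
        have h3 := congrArg Subtype.val (Equiv.congr_fun h1 ⟨x, hx⟩)
        simp only [Perm.subtypePerm_apply] at h3
        rw [Perm.mul_apply, ← h3, hinv]
      have hk2 : ∀ x, ((g : Perm Ω)⁻¹ * g') x ≠ x → x ∈ O := fun x hx => by
        by_contra h
        exact hx (hkout x h)
      have ht : ((g : Perm Ω)⁻¹ * g').subtypePerm (p := fun x => x ∈ O) (hiff _ hk) =
          ((g : Perm Ω).subtypePerm (p := fun x => x ∈ O) (hiff g g.2))⁻¹ *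
            (g' : Perm Ω).subtypePerm (p := fun x => x ∈ O) (hiff g' g'.2) := by
        rw [eq_inv_mul_iff_mul_eq]
        ext x
        simp only [Perm.mul_apply, Perm.subtypePerm_apply]
        exact hinv' _ _
      have h4 : ((g : Perm Ω)⁻¹ * g').subtypePerm (p := fun x => x ∈ O) (hiff _ hk) = 1 := by
        apply hker
        · rw [hN, Perm.ofSubtype_subtypePerm _ hk2]
          exact hk
        · rw [ht, map_mul, map_inv, h2, inv_mul_cancel]
      have h5 : (g : Perm Ω)⁻¹ * g' = 1 := by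
        rw [← Perm.ofSubtype_subtypePerm (p := fun x => x ∈ O) (hiff _ hk) hk2, h4, map_one]
      exact Subtype.ext (inv_mul_eq_one.1 h5)
    rw [Nat.card_prod, Nat.card_eq_fintype_card (α := Perm {x // x ∉ O}), Fintype.card_perm,
      Nat.card_eq_fintype_card (α := ℤˣ), Fintype.card_units_int, Fintype.card_subtype_compl,
      Fintype.card_coe] at hcard
    omega
  · intro g hg hgout
    have h1 : ∀ x, g x ∈ O ↔ x ∈ O := by
      intro x
      constructor
      · intro h
        by_contra hx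
        rw [hgout x hx] at h
        exact hx h
      · intro hx
        by_contra h
        exact h ((g.injective (hgout (g x) h)).symm ▸ hx)
    have h2 : ∀ x, g x ≠ x → x ∈ O := fun x hx => by
      by_contra h
      exact hx (hgout x h)
    have h3 : Perm.sign (g.subtypePerm (p := fun x => x ∈ O) h1) = 1 := by
      have h3 := (Perm.sign_subtypePerm g h1 h2).trans (Perm.mem_alternatingGroup.1 hg)
      convert h3
    have h4 : (⟨g.subtypePerm (p := fun x => x ∈ O) h1, Perm.mem_alternatingGroup.2 h3⟩ :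
        alternatingGroup {x // x ∈ O}) ∈ N.subgroupOf (alternatingGroup {x // x ∈ O}) := by
      rw [htop]
      exact Subgroup.mem_top _
    have h5 := (hN _).1 (Subgroup.mem_subgroupOf.1 h4)
    rwa [Perm.ofSubtype_subtypePerm h1 h2] at h5

end Pool.Agent.SymEF
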