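import Pool.Agent.SY.SI3
import Pool.Agent.SY.SI4
import Pool.Agent.SY.SI5
import Pool.Agent.SY.SI6a
import Pool.Agent.SY.SI6b

/-!
# TASK SI6 (small index theorem; assembly, easy)

PROOF. `n = |Ω|`, `k = n/16 ≥ 1`, `hlt : n! < |G| * C(n,k)`.
(1) There is no `G`-invariant `U` with `k ≤ |U|` and `|U| + k ≤ n`: `invariant_bound` gives `|G| * C(n,|U|) ≤ n!` and
`choose_mono` `C(n,k) ≤ C(n,|U|)`, so `|G| * C(n,k) ≤ n!`, contradiction.
(2) `large_orbit` gives an orbit `O`, `m = |O|`, `n < m + k`. Put `Δ = univ \ O`, `|Δ| = n - m < k`.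
(3) `n! = C(n,m) m! (n-m)! ≥ m! (n-m)!` (or `Nat.factorial_mul_factorial_dvd_factorial`, `Nat.factorial_mul_factorial_le...`), and
`C(n,k) ≤ 2^(m/2-1)` by `choose_le_two_pow`, so `m! (n-m)! ≤ n! < |G| * C(n,k) ≤ |G| * 2^(m/2-1)`: `restrict_contains_alt`
applies.
(4) `2 (n-m)! < |G|`: if `|G| ≤ 2 (n-m)!` then `n! < 2 (n-m)! * C(n,k) `; with `n-m ≤ k-1`: `(n-m)! ≤ (k-1)! ≤ k!`, and
`C(n,k) * k! * (n-k)! = n!`, so `n! (n-k)! < 2 (n-m)! C(n,k) (n-k)! ≤ 2 k! C(n,k) (n-k)! = 2 n!`, so `(n-k)! < 2`, but
`n - k ≥ 2`. Contradiction. And `m ≥ 5` since `m > n - n/16`, `n ≥ 16`. So `even_mem_of_restrict` applies; a point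
outside of `O` is in `Δ`.
-/

set_option autoImplicit false

namespace Pool.Agent.SymEF

open Equiv

theorem small_index {Ω : Type} [Fintype Ω] [DecidableEq Ω] (G : Subgroup (Perm Ω)) (hn : 16 ≤ Fintype.card Ω)
    (hlt : (Fintype.card Ω).factorial < Nat.card G * (Fintype.card Ω).choose (Fintype.card Ω / 16)) :
    ∃ Δ : Finset Ω, Δ.card < Fintype.card Ω / 16 ∧
      ∀ g ∈ alternatingGroup Ω, (∀ x ∈ Δ, g x = x) → g ∈ G := by
  have hk : 1 ≤ Fintype.card Ω / 16 := by omega
  have h3 : 3 * (Fintype.card Ω / 16) ≤ Fintype.card Ω := by omega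
  have hno : ∀ U : Finset Ω, (∀ g ∈ G, ∀ x ∈ U, g x ∈ U) → Fintype.card Ω / 16 ≤ U.card →
      Fintype.card Ω < U.card + Fintype.card Ω / 16 := by
    intro U hU hkU
    by_contra hc
    have h1 := choose_mono (Fintype.card Ω) (Fintype.card Ω / 16) U.card hkU (by omega)
    have h2 := invariant_bound G U hU
    have h4 : Nat.card G * (Fintype.card Ω).choose (Fintype.card Ω / 16) ≤
        (Fintype.card Ω).factorial := (Nat.mul_le_mul_left _ h1).trans h2
    omega
  obtain ⟨O, hO, htr, hOc⟩ := large_orbit G (Fintype.card Ω / 16) hk h3 hno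
  have hOle : O.card ≤ Fintype.card Ω := Finset.card_le_univ O
  have hC : (Fintype.card Ω).choose (Fintype.card Ω / 16) ≤ 2 ^ (O.card / 2 - 1) :=
    choose_le_two_pow _ _ hn hOc
  have hf : O.card.factorial * (Fintype.card Ω - O.card).factorial ≤
      (Fintype.card Ω).factorial :=
    Nat.le_of_dvd (Nat.factorial_pos _) (Nat.factorial_mul_factorial_dvd_factorial hOle)
  have hlt1 : O.card.factorial * (Fintype.card Ω - O.card).factorial <
      Nat.card G * 2 ^ (O.card / 2 - 1) :=
    (hf.trans_lt hlt).trans_le (Nat.mul_le_mul_left _ hC)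
  have hr := restrict_contains_alt G O hO htr hlt1
  have hlt2 : 2 * (Fintype.card Ω - O.card).factorial < Nat.card G := by
    by_contra hc
    have hc' : Nat.card G ≤ 2 * (Fintype.card Ω - O.card).factorial := not_lt.mp hc
    have hkf : (Fintype.card Ω - O.card).factorial ≤ (Fintype.card Ω / 16).factorial :=
      Nat.factorial_le (by omega)
    have hid := Nat.choose_mul_factorial_mul_factorial
      (show Fintype.card Ω / 16 ≤ Fintype.card Ω by omega)
    have h2 : 2 ≤ (Fintype.card Ω - Fintype.card Ω / 16).factorial :=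
      le_trans (by omega) (Nat.self_le_factorial _)
    have hpos : 0 < (Fintype.card Ω - Fintype.card Ω / 16).factorial := Nat.factorial_pos _
    have h5 : (Fintype.card Ω).factorial < 2 * (Fintype.card Ω / 16).factorial *
        (Fintype.card Ω).choose (Fintype.card Ω / 16) :=
      hlt.trans_le (Nat.mul_le_mul_right _ (hc'.trans (Nat.mul_le_mul_left _ hkf)))
    have h6 : (Fintype.card Ω).factorial * (Fintype.card Ω - Fintype.card Ω / 16).factorial <
        2 * (Fintype.card Ω).factorial := by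
      calc (Fintype.card Ω).factorial * (Fintype.card Ω - Fintype.card Ω / 16).factorial
          < (2 * (Fintype.card Ω / 16).factorial *
            (Fintype.card Ω).choose (Fintype.card Ω / 16)) *
            (Fintype.card Ω - Fintype.card Ω / 16).factorial :=
            Nat.mul_lt_mul_of_pos_right h5 hpos
        _ = 2 * ((Fintype.card Ω).choose (Fintype.card Ω / 16) *
            (Fintype.card Ω / 16).factorial *
            (Fintype.card Ω - Fintype.card Ω / 16).factorial) := by ring
        _ = 2 * (Fintype.card Ω).factorial := by rw [hid]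
    have h7 : 2 * (Fintype.card Ω).factorial ≤
        (Fintype.card Ω).factorial * (Fintype.card Ω - Fintype.card Ω / 16).factorial := by
      rw [mul_comm 2]
      exact Nat.mul_le_mul_left _ h2
    omega
  refine ⟨Finset.univ \ O, ?_, ?_⟩
  · have h8 : (Finset.univ \ O).card = Fintype.card Ω - O.card := by
      rw [Finset.card_sdiff_of_subset (Finset.subset_univ O), Finset.card_univ]
    rw [h8]
    omega
  · intro g hg hfix
    refine even_mem_of_restrict G O hO (by omega) hlt2 hr g hg ?_
    intro x hx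
    exact hfix x (by simp [hx])

end Pool.Agent.SymEF
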