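import Pool.Agent.SY.SI6

/-!
# TASK SI7 (small index theorem for permutations of a subset; easy)

PROOF. Apply `small_index` to the type `Ω = {x // x ∈ A}` and the subgroup `G' = G.comap Equiv.Perm.ofSubtype` of `Perm Ω`
(`Equiv.Perm.ofSubtype : Perm (Subtype p) →* Perm α` for `p x := x ∈ A`; it is injective). Every `g ∈ G` fixes the points outside
of `A`, so it is `ofSubtype t` for a `t : Perm Ω` (`Equiv.Perm.ofSubtype_subtypePerm`), so `|G'| = |G|`
(`Nat.card` of the two subgroups; a bijection). `Fintype.card Ω = |A|`. We get `Δ' : Finset Ω`; put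
`Δ = Δ'.map (Function.Embedding.subtype _) ⊆ A`, of the same cardinality. Let `g` be an even permutation of `X` with `g x = x`
for all `x` outside of `A` and all `x ∈ Δ`. Then `g = ofSubtype t` with `t` even (`Equiv.Perm.sign_ofSubtype` or
`sign_subtypePerm`) fixing `Δ'` pointwise, so `t ∈ G'`, i.e. `g ∈ G`.
-/

set_option autoImplicit false

namespace Pool.Agent.SymEF

open Equiv

private theorem SI7_ext {X : Type} [DecidableEq X] (A : Finset X) (g : Perm X)
    (h : ∀ x, x ∉ A → g x = x) : ∃ t : Perm {x // x ∈ A}, Perm.ofSubtype t = g := by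
  have h1 : ∀ x, g x ∈ A ↔ x ∈ A := by
    intro x
    constructor
    · intro hx
      by_contra h2
      rw [h x h2] at hx
      exact h2 hx
    · intro hx
      by_contra h2
      have h3 : g x = x := g.injective (h _ h2)
      rw [h3] at h2
      exact h2 hx
  have h2 : ∀ x, g x ≠ x → x ∈ A := by
    intro x hx
    by_contra h3
    exact hx (h x h3)
  exact ⟨Perm.subtypePerm g h1, Perm.ofSubtype_subtypePerm h1 h2⟩

theorem small_index_on {X : Type} [Fintype X] [DecidableEq X] (A : Finset X) (G : Subgroup (Perm X))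
    (hG : ∀ g ∈ G, ∀ x, x ∉ A → g x = x) (hn : 16 ≤ A.card)
    (hlt : A.card.factorial < Nat.card G * A.card.choose (A.card / 16)) :
    ∃ Δ : Finset X, Δ ⊆ A ∧ Δ.card < A.card / 16 ∧
      ∀ g ∈ alternatingGroup X, (∀ x, x ∉ A ∨ x ∈ Δ → g x = x) → g ∈ G := by
  classical
  set G' : Subgroup (Perm {x // x ∈ A}) := G.comap Perm.ofSubtype with hG'
  have hcard : Nat.card G' = Nat.card G := by
    refine Nat.card_congr (Equiv.ofBijective
      (fun t : G' => (⟨Perm.ofSubtype (t : Perm {x // x ∈ A}), t.2⟩ : G)) ⟨?_, ?_⟩)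
    · intro t u htu
      exact Subtype.ext (Perm.ofSubtype_injective (congrArg Subtype.val htu))
    · rintro ⟨g, hg⟩
      obtain ⟨t, ht⟩ := SI7_ext A g (hG g hg)
      exact ⟨⟨t, by
        change Perm.ofSubtype t ∈ G
        rw [ht]
        exact hg⟩, Subtype.ext ht⟩
  have hc : Fintype.card {x // x ∈ A} = A.card := Fintype.card_coe A
  obtain ⟨Δ', h1, h2⟩ := small_index G' (by rw [hc]; exact hn) (by rw [hc, hcard]; exact hlt)
  refine ⟨Δ'.map (Function.Embedding.subtype _), ?_, ?_, ?_⟩
  · intro x hx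
    obtain ⟨y, _, rfl⟩ := Finset.mem_map.1 hx
    exact y.2
  · rw [Finset.card_map]
    rwa [hc] at h1
  · intro g hg hfix
    obtain ⟨t, ht⟩ := SI7_ext A g (fun x hx => hfix x (Or.inl hx))
    have h3 : t ∈ G' := by
      refine h2 t ?_ fun x hx => ?_
      · rw [Perm.mem_alternatingGroup] at hg ⊢
        rw [← ht, Perm.sign_ofSubtype] at hg
        exact hg
      · have h4 := hfix x (Or.inr (Finset.mem_map.2 ⟨x, hx, rfl⟩))
        rw [← ht, Perm.ofSubtype_apply_coe] at h4
        exact Subtype.ext h4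
    have h5 : Perm.ofSubtype t ∈ G := h3
    rwa [ht] at h5

end Pool.Agent.SymEF
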