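import Pool.Agent.SY.Defs

/-!
# Definitions for the block UP (the upper bound): the closure under narrow hyper-cuts
-/

set_option autoImplicit false

namespace Pool.Agent.SymEF

variable {R : Type} {ar : R → ℕ}

/-- The clause `C` mentions at most `w` elements of the universe. -/
def Thin {X : Type} (w : ℕ) (C : Set (Atom ar X × Bool)) : Prop :=
  ∃ U : Finset X, U.card ≤ w ∧ ∀ l ∈ C, ∀ i, l.1.2 i ∈ U

/-- The clauses derived in at most `t` rounds of hyper-cuts with thin conclusions. -/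
def Stage (P : List (Schema ar)) (X : Type) (w : ℕ) : ℕ → Set (Set (Atom ar X × Bool))
  | 0 => ground P X
  | t + 1 => Stage P X w t ∪
      {C | Thin w C ∧ ∃ B ∈ Stage P X w t, ∀ l ∈ B, l ∉ C → insert (ng l) C ∈ Stage P X w t}

/-- All derived clauses. -/
def Der (P : List (Schema ar)) (X : Type) (w : ℕ) : Set (Set (Atom ar X × Bool)) := {C | ∃ t, C ∈ Stage P X w t}

/-- The clause which says that the elements `ι 0, ..., ι (m-1)` do not form the structure `γ`. -/
def Neg {X : Type} {m : ℕ} (ι : Fin m → X) (γ : Atom ar (Fin m) → Bool) : Set (Atom ar X × Bool) :=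
  {l | ∃ a : Atom ar (Fin m), l = (⟨a.1, ι ∘ a.2⟩, !γ a)}

/-- The structure `γ'` on `Fin (m+1)` extends the structure `γ` on `Fin m`. -/
def Extends {m : ℕ} (γ : Atom ar (Fin m) → Bool) (γ' : Atom ar (Fin (m + 1)) → Bool) : Prop :=
  ∀ a : Atom ar (Fin m), γ' ⟨a.1, Fin.castSucc ∘ a.2⟩ = γ a

/-- The matrix of the sentence `S` holds at `v` in the structure `γ`. -/
def SatAt {m : ℕ} (S : Schema ar) (γ : Atom ar (Fin m) → Bool) (v : Fin S.k → Fin m) : Prop :=
  (∃ l ∈ S.nar, l.Holds (fun a => γ a = true) v) ∨ ∃ y, ∃ l ∈ S.wid, l.Holds (fun a => γ a = true) (ext v y)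

/-- Clauses over `V` as clauses over `V ⊕ E`. -/
def lift {V : Type} (E : Type) (C : Set (V × Bool)) : Set ((V ⊕ E) × Bool) :=
  (fun l : V × Bool => ((Sum.inl l.1 : V ⊕ E), l.2)) '' C

end Pool.Agent.SymEF
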