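import Pool.Agent.SY.UPDefs

/-!
# TASK UPa (closure properties of Der; easy)

PROOF. `Stage` is increasing in `t` (union), so `C ∈ Stage t → C ∈ Stage t'` for `t ≤ t'`. `der_cut`: the type of literals `Atom ar X × Bool` is finite
(`Atom ar X` is a sigma type of functions; `unfold Atom; infer_instance` for `Finite`), so finitely many premises `B`, `insert (ng l) C`
(`l ∈ B`, `l ∉ C`) are all in one `Stage t`, and `C ∈ Stage (t+1)`. `der_weaken`: `der_cut` with `B ⊆ C` (there is no `l ∈ B`, `l ∉ C`).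
`der_resolve`: `der_cut` with `B = insert l C`: for `l' ∈ B`, `l' ∉ C` we have `l' = l`.
`ng_ng`, `finite_atom`, and `ground_perm`: for `C = S.clause v`: the image of `S.clause v` under the renaming is `S.clause (g ∘ v)`
(`Atom.perm ar g ⟨r, v ∘ args⟩ = ⟨r, (g ∘ v) ∘ args⟩`, and `g ∘ ext v y = ext (g ∘ v) (g y)`, `y` runs over all elements as `g` is onto), and
`S.Trivial (g ∘ v) ↔ S.Trivial v` as `g` is bijective. `stage_perm` by induction on `t`: the renaming `ρ` by `g` is a bijection of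
literals commuting with `ng`; `Thin w (ρ '' C)` with `U.image g`; `B ↦ ρ '' B`; for `l' ∈ ρ '' B`, `l' = ρ l`, `l' ∉ ρ '' C` gives `l ∉ C`, and
`insert (ng (ρ l)) (ρ '' C) = ρ '' insert (ng l) C` (`Set.image_insert_eq`).
-/

set_option autoImplicit false

namespace Pool.Agent.SymEF

open Equiv

variable {R : Type} {ar : R → ℕ}

theorem finite_atom (X : Type) [Finite R] [Finite X] : Finite (Atom ar X) := by
  unfold Atom
  infer_instance

theorem ng_ng {W : Type} (l : W × Bool) : ng (ng l) = l := by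
  unfold ng
  rw [Bool.not_not]

theorem stage_mono (P : List (Schema ar)) (X : Type) (w t t' : ℕ) (h : t ≤ t') : Stage P X w t ⊆ Stage P X w t' := by
  induction h with
  | refl => exact fun _ hx => hx
  | step _ ih => exact fun C hC => Or.inl (ih hC)

theorem der_cut (P : List (Schema ar)) (X : Type) [Finite R] [Finite X] (w : ℕ) (B C : Set (Atom ar X × Bool))
    (hC : Thin w C) (hB : B ∈ Der P X w) (h : ∀ l ∈ B, l ∉ C → insert (ng l) C ∈ Der P X w) : C ∈ Der P X w := by
  have hfin : Finite (Atom ar X) := finite_atom X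
  obtain ⟨t0, ht0⟩ := hB
  have h1 : ∀ l : Atom ar X × Bool, ∃ t, l ∈ B → l ∉ C → insert (ng l) C ∈ Stage P X w t := by
    intro l
    by_cases h2 : l ∈ B ∧ l ∉ C
    · obtain ⟨t, ht⟩ := h l h2.1 h2.2
      exact ⟨t, fun _ _ => ht⟩
    · exact ⟨0, fun h3 h4 => absurd ⟨h3, h4⟩ h2⟩
  choose f hf using h1
  obtain ⟨T, hT⟩ := (Set.finite_range f).bddAbove
  refine ⟨max t0 T + 1, Or.inr ⟨hC, B, stage_mono P X w _ _ (le_max_left _ _) ht0, fun l hl hlC => ?_⟩⟩
  exact stage_mono P X w _ _ ((hT ⟨l, rfl⟩).trans (le_max_right _ _)) (hf l hl hlC)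

theorem der_weaken (P : List (Schema ar)) (X : Type) [Finite R] [Finite X] (w : ℕ) (B C : Set (Atom ar X × Bool))
    (hC : Thin w C) (hB : B ∈ Der P X w) (h : B ⊆ C) : C ∈ Der P X w :=
  der_cut P X w B C hC hB fun _ hl hlC => absurd (h hl) hlC

theorem der_resolve (P : List (Schema ar)) (X : Type) [Finite R] [Finite X] (w : ℕ) (l : Atom ar X × Bool)
    (C : Set (Atom ar X × Bool)) (hC : Thin w C) (h : insert l C ∈ Der P X w) (h' : insert (ng l) C ∈ Der P X w) :
    C ∈ Der P X w := by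
  refine der_cut P X w _ C hC h fun l' hl' hlC => ?_
  rcases hl' with rfl | hl'
  · exact h'
  · exact absurd hl' hlC

private theorem UPa_ext {X : Type} (g : Perm X) {k : ℕ} (v : Fin k → X) (y : X) :
    g ∘ ext v y = ext (g ∘ v) (g y) := by
  unfold ext
  exact Fin.comp_snoc g v y

private theorem UPa_extp {X : Type} (g : Perm X) {k : ℕ} (v : Fin k → X) (y : X) (i : Fin (k + 1)) :
    ext (g ∘ v) (g y) i = g (ext v y i) := by
  rw [← UPa_ext]
  rfl

private theorem UPa_triv {X : Type} (g : Perm X) (S : Schema ar) (v : Fin S.k → X) (h : S.Trivial (g ∘ v)) :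
    S.Trivial v := by
  rcases h with ⟨s, i, j, h1, h2⟩ | ⟨y, s, i, j, h1, h2⟩
  · refine Or.inl ⟨s, i, j, h1, ?_⟩
    rw [← h2]
    exact g.injective.eq_iff.symm
  · refine Or.inr ⟨g.symm y, s, i, j, h1, ?_⟩
    rw [← h2]
    conv_rhs => rw [← g.apply_symm_apply y, UPa_extp, UPa_extp]
    exact g.injective.eq_iff.symm

theorem ground_perm (P : List (Schema ar)) (X : Type) (g : Perm X) (C : Set (Atom ar X × Bool)) (hC : C ∈ ground P X) :
    (fun l : Atom ar X × Bool => (Atom.perm ar g l.1, l.2)) '' C ∈ ground P X := by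
  obtain ⟨S, hS, v, hv, rfl⟩ := hC
  refine ⟨S, hS, g ∘ v, fun h => hv (UPa_triv g S v h), ?_⟩
  apply Set.Subset.antisymm
  · rintro _ ⟨l, hl, rfl⟩
    rcases hl with ⟨s, r, args, h1, rfl⟩ | ⟨y, s, r, args, h1, rfl⟩
    · exact Or.inl ⟨s, r, args, h1, rfl⟩
    · refine Or.inr ⟨g y, s, r, args, h1, ?_⟩
      rw [← UPa_ext]
      rfl
  · rintro l (⟨s, r, args, h1, rfl⟩ | ⟨y, s, r, args, h1, rfl⟩)
    · exact ⟨(⟨r, v ∘ args⟩, s), Or.inl ⟨s, r, args, h1, rfl⟩, rfl⟩
    · refine ⟨(⟨r, ext v (g.symm y) ∘ args⟩, s), Or.inr ⟨g.symm y, s, r, args, h1, rfl⟩, ?_⟩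
      conv_rhs => rw [← g.apply_symm_apply y, ← UPa_ext]
      rfl

theorem stage_perm (P : List (Schema ar)) (X : Type) (w t : ℕ) (g : Perm X) (C : Set (Atom ar X × Bool))
    (hC : C ∈ Stage P X w t) : (fun l : Atom ar X × Bool => (Atom.perm ar g l.1, l.2)) '' C ∈ Stage P X w t := by
  classical
  induction t generalizing C with
  | zero => exact ground_perm P X g C hC
  | succ t ih =>
    rcases hC with hC | ⟨⟨U, hU, hUC⟩, B, hB, h⟩
    · exact Or.inl (ih C hC)
    · refine Or.inr ⟨⟨U.image g, Finset.card_image_le.trans hU, ?_⟩, _, ih B hB, ?_⟩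
      · rintro _ ⟨l, hl, rfl⟩ i
        exact Finset.mem_image_of_mem g (hUC l hl i)
      · rintro _ ⟨l, hl, rfl⟩ hlC
        have h1 := ih _ (h l hl fun h2 => hlC ⟨l, h2, rfl⟩)
        rw [Set.image_insert_eq] at h1
        exact h1

end Pool.Agent.SymEF
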