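import Pool.Agent.SY.UPa

/-!
# TASK UPb (the resolution argument; easy)

`C` is a clause all of whose atoms are over the elements `ι 0, ..., ι (m-1)` (`m ≤ w`), without complementary literals. If all
total structures which falsify `C` are refuted then `C` is derived.

PROOF. Induction on the number of the atoms `a : Atom ar (Fin m)` (a finite type) such that neither `(ι a, true)` nor `(ι a, false)` is in `C`
(write `ι a` for `⟨a.1, ι ∘ a.2⟩`; `a ↦ ι a` is injective). If there is no such atom: let `γ a := true` if `(ι a, false) ∈ C`, `false` otherwise.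
Then `C = Neg ι γ` (`(ι a, !γ a) ∈ C` for every `a`, and conversely a literal `(ι a, s)` of `C` has `s = !γ a` since `C` has no complementary
literals), so `C ∈ Der` by `h`. Otherwise let `a` be such an atom, `l = (ι a, true)`. `insert l C` and `insert (ng l) C` satisfy the hypotheses (all
atoms over `ι`; no complementary literals; `Neg ι γ ⊇ insert l C` implies `Neg ι γ ⊇ C`) and have fewer undecided atoms, so they are in `Der`,
and `der_resolve` gives `C ∈ Der`; `Thin w C` with `U = Finset.univ.image ι` (`Finset.card_image_le`, `m ≤ w`).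

`exists_base`: if for all `γ : Atom ar (Fin 0) → Bool` the clause `Neg ι γ` were derived then by `der_of_total` with `C = ∅`, `∅ ∈ Der`.
-/

set_option autoImplicit false

namespace Pool.Agent.SymEF

variable {R : Type} {ar : R → ℕ}

private def UPb_ia {X : Type} {m : ℕ} (ι : Fin m → X) (a : Atom ar (Fin m)) : Atom ar X :=
  ⟨a.1, ι ∘ a.2⟩

private theorem UPb_ia_inj {X : Type} {m : ℕ} (ι : Fin m → X) (hι : Function.Injective ι) :
    Function.Injective (UPb_ia (ar := ar) ι) := by
  rintro ⟨r, f⟩ ⟨s, g⟩ h
  have h1 := Sigma.mk.inj_iff.1 h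
  obtain ⟨h2, h3⟩ := h1
  subst h2
  have h4 : ι ∘ f = ι ∘ g := eq_of_heq h3
  have h5 : f = g := hι.comp_left h4
  rw [h5]

private def UPb_und {X : Type} {m : ℕ} (ι : Fin m → X) (C : Set (Atom ar X × Bool)) :
    Set (Atom ar (Fin m)) :=
  {a | ∀ s : Bool, (UPb_ia ι a, s) ∉ C}

private theorem UPb_main (P : List (Schema ar)) (X : Type) [Finite R] [Finite X] (w m : ℕ) (hm : m ≤ w)
    (ι : Fin m → X) (hι : Function.Injective ι) (n : ℕ) :
    ∀ C : Set (Atom ar X × Bool), (UPb_und ι C).ncard = n →
    (∀ l ∈ C, ∃ a : Atom ar (Fin m), l.1 = UPb_ia ι a) → (∀ l ∈ C, ng l ∉ C) →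
    (∀ γ : Atom ar (Fin m) → Bool, C ⊆ Neg ι γ → Neg ι γ ∈ Der P X w) → C ∈ Der P X w := by
  classical
  have hfin : Finite (Atom ar (Fin m)) := finite_atom (ar := ar) (Fin m)
  induction n using Nat.strong_induction_on with
  | _ n ih =>
    intro C hn h₁ h₂ h
    by_cases hU : UPb_und ι C = ∅
    · -- the clause is total
      let γ : Atom ar (Fin m) → Bool := fun a => decide ((UPb_ia ι a, false) ∈ C)
      have hsub : C ⊆ Neg ι γ := by
        rintro ⟨x, s⟩ hl
        obtain ⟨a, ha⟩ := h₁ _ hl
        have ha' : x = UPb_ia ι a := ha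
        subst ha'
        refine ⟨a, ?_⟩
        show (UPb_ia ι a, s) = (UPb_ia ι a, !γ a)
        have hs : s = !γ a := by
          cases s with
          | false =>
            have h3 : γ a = true := by simpa [γ] using hl
            rw [h3]
            rfl
          | true =>
            have h4 : (UPb_ia ι a, false) ∉ C := h₂ _ hl
            have h3 : γ a = false := by simpa [γ] using h4
            rw [h3]
            rfl
        rw [← hs]
      have hsup : Neg ι γ ⊆ C := by
        rintro l ⟨a, rfl⟩
        show (UPb_ia ι a, !γ a) ∈ C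
        by_cases h5 : (UPb_ia ι a, false) ∈ C
        · have h3 : γ a = true := by simpa [γ] using h5
          rw [h3]
          exact h5
        · have h3 : γ a = false := by simpa [γ] using h5
          rw [h3]
          by_contra h6
          have h7 : a ∈ UPb_und ι C := by
            intro s
            cases s with
            | false => exact h5
            | true => exact h6
          rw [hU] at h7
          exact h7
      have he : C = Neg ι γ := Set.Subset.antisymm hsub hsup
      have h8 := h γ hsub
      rwa [← he] at h8
    · obtain ⟨a, ha⟩ := Set.nonempty_iff_ne_empty.2 hU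
      have key : ∀ s : Bool, insert (UPb_ia ι a, s) C ∈ Der P X w := by
        intro s
        refine ih (UPb_und ι (insert (UPb_ia ι a, s) C)).ncard ?_ _ rfl ?_ ?_ ?_
        · rw [← hn]
          apply Set.ncard_lt_ncard ?_ (Set.toFinite _)
          rw [Set.ssubset_iff_of_subset]
          · refine ⟨a, ha, ?_⟩
            intro h9
            exact h9 s (Set.mem_insert _ _)
          · intro b hb t ht
            exact hb t (Set.mem_insert_of_mem _ ht)
        · intro l hl
          rcases Set.mem_insert_iff.1 hl with rfl | hl
          · exact ⟨a, rfl⟩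
          · exact h₁ l hl
        · intro l hl hl'
          rcases Set.mem_insert_iff.1 hl with rfl | hl
          · rcases Set.mem_insert_iff.1 hl' with h10 | h10
            · have h11 : (!s) = s := congrArg Prod.snd h10
              cases s <;> simp at h11
            · exact ha (!s) h10
          · rcases Set.mem_insert_iff.1 hl' with h10 | h10
            · have h11 : l = (UPb_ia ι a, !s) := by
                rw [← ng_ng l, h10]
                rfl
              rw [h11] at hl
              exact ha (!s) hl
            · exact h₂ l hl h10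
        · intro γ hγ
          exact h γ ((Set.subset_insert _ _).trans hγ)
      have hthin : Thin w C := by
        refine ⟨Finset.univ.image ι, ?_, ?_⟩
        · refine Finset.card_image_le.trans ?_
          rw [Finset.card_univ, Fintype.card_fin]
          exact hm
        · rintro ⟨x, s⟩ hl i
          obtain ⟨b, hb⟩ := h₁ _ hl
          have hb' : x = UPb_ia ι b := hb
          subst hb'
          exact Finset.mem_image.2 ⟨b.2 i, Finset.mem_univ _, rfl⟩
      exact der_resolve P X w (UPb_ia ι a, true) C hthin (key true) (key false)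

theorem der_of_total (P : List (Schema ar)) (X : Type) [Finite R] [Finite X] (w m : ℕ) (hm : m ≤ w) (ι : Fin m → X)
    (hι : Function.Injective ι) (C : Set (Atom ar X × Bool))
    (h₁ : ∀ l ∈ C, ∃ a : Atom ar (Fin m), l.1 = ⟨a.1, ι ∘ a.2⟩) (h₂ : ∀ l ∈ C, ng l ∉ C)
    (h : ∀ γ : Atom ar (Fin m) → Bool, C ⊆ Neg ι γ → Neg ι γ ∈ Der P X w) : C ∈ Der P X w :=
  UPb_main P X w m hm ι hι _ C rfl h₁ h₂ h

theorem exists_base (P : List (Schema ar)) (X : Type) [Finite R] [Finite X] (w : ℕ) (h : ∅ ∉ Der P X w) :
    ∃ (ι : Fin 0 → X) (γ : Atom ar (Fin 0) → Bool), Neg ι γ ∉ Der P X w := by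
  by_contra hcon
  push Not at hcon
  apply h
  exact der_of_total P X w 0 (Nat.zero_le w) (fun i => i.elim0) (fun i => i.elim0) ∅
    (fun l hl => absurd hl (Set.notMem_empty l)) (fun l hl => absurd hl (Set.notMem_empty l))
    (fun γ _ => hcon _ γ)

end Pool.Agent.SymEF
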