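import Pool.Agent.SY.UPb

/-!
# TASK UPc (the extension step)

PROOF of `step_one`. Let `C = Neg ι γ ∉ Der`. For `x ∉ range ι` let `ι_x = Fin.snoc ι x : Fin (m+1) → X` (injective, `ι_x ∘ castSucc = ι`).
Suppose that the theorem fails; so (*) for all `x ∉ range ι` and all `γ'` with `Extends γ γ'` and `SatAt S γ' (castSucc ∘ v)`: `Neg ι_x γ' ∈ Der`.
We derive `C ∈ Der`, a contradiction. Facts: `C` has no complementary literals (`(ι a, !γ a)`, `ι` injective), its atoms are over `ι` hence over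
`ι_x`, it is thin (`U = univ.image ι`). For `Neg ι_x γ' ⊇ C` we have `Extends γ γ'` (for an atom `a` over `Fin m` the literal `(ι a, !γ a) ∈ Neg ι_x γ'`, so
`!γ a = !γ' (castSucc a)`).

Case 1: `SatAt S γ v`, or an equality literal `eq s i j ∈ S.wid` holds for `v` and a new element, i.e. for
`ext (castSucc ∘ v) (Fin.last m)`. Take any `x ∉ range ι` (`m + 1 ≤ |X|`). For all `γ'` with `Neg ι_x γ' ⊇ C`: `Extends γ γ'`, so `SatAt S γ' (castSucc ∘ v)`
(the truth of a literal at values in `Fin m` is the same in `γ` and `γ'`: `castSucc` is injective; `ext (castSucc ∘ v) (castSucc y) =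
castSucc ∘ ext v y`), so `Neg ι_x γ' ∈ Der` by (*). `der_of_total` (with `m+1 ≤ w`, `ι_x`) gives `C ∈ Der`.

Case 2: otherwise. Then `¬ S.Trivial (ι ∘ v)`: an equality literal of `S.nar` true at `ι ∘ v` is true at `v` (`ι` injective), so `SatAt S γ v`. An
equality literal of `S.wid` true at `ext (ι ∘ v) y`: if `y = ι z` it is true at `ext v z`, so `SatAt S γ v`; if `y ∉ range ι` it is true at
`ext (castSucc ∘ v) (last m)` (as `ι_y` is injective and `ext (ι ∘ v) y = ι_y ∘ ext (castSucc ∘ v) (last m)`): Case 1. So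
`B := S.clause (ι ∘ v) ∈ ground P X ⊆ Der`. Apply `der_cut` with `B`, `C`. Let `l ∈ B`, `l ∉ C`.
 - `l = (⟨r, (ι ∘ v) ∘ args⟩, s)`, `rel s r args ∈ S.nar`: it is not satisfied by `γ` (not `SatAt S γ v`), i.e. `γ ⟨r, v ∘ args⟩ = !s`, so `l ∈ C`. Contradiction.
 - `l = (⟨r, ext (ι ∘ v) y ∘ args⟩, s)`, `rel s r args ∈ S.wid`, `y = ι z`: `ext (ι ∘ v) (ι z) = ι ∘ ext v z`, and in the same way `l ∈ C`. Contradiction.
 - the same with `y = x ∉ range ι`: `l = (ι_x a, s)` with `a = ⟨r, ext (castSucc ∘ v) (last m) ∘ args⟩`. `insert (ng l) C ∈ Der` by `der_of_total` with `ι_x`: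
   no complementary literals as `l ∉ C`; if `Neg ι_x γ' ⊇ insert (ng l) C` then `Extends γ γ'` and `γ' a = s`, so `SatAt S γ' (castSucc ∘ v)`, so
   `Neg ι_x γ' ∈ Der` by (*).

PROOF of `step_zero`: as Case 1 without `S`.
-/

set_option autoImplicit false

namespace Pool.Agent.SymEF

variable {R : Type} {ar : R → ℕ}

private theorem UPc_exists_new {X : Type} [Finite X] {m : ℕ} (hX : m + 1 ≤ Nat.card X) (ι : Fin m → X) :
    ∃ x, x ∉ Set.range ι := by
  by_contra hcon
  have hs : Function.Surjective ι := by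
    intro x
    by_contra hx
    exact hcon ⟨x, hx⟩
  have h1 : Nat.card X ≤ Nat.card (Fin m) := Nat.card_le_card_of_surjective ι hs
  rw [Nat.card_fin] at h1
  omega

private theorem UPc_ext_castSucc {M : Type} {k : ℕ} (v : Fin k → M) (y : M) (i : Fin k) :
    ext v y (Fin.castSucc i) = v i := by
  unfold ext
  exact Fin.snoc_castSucc (α := fun _ => M) y v i

private theorem UPc_ext_last {M : Type} {k : ℕ} (v : Fin k → M) (y : M) :
    ext v y (Fin.last k) = y := by
  unfold ext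
  exact Fin.snoc_last (α := fun _ => M) y v

private theorem UPc_ext_comp {M N : Type} {k : ℕ} (f : M → N) (v : Fin k → M) (y : M) :
    ext (f ∘ v) (f y) = f ∘ ext v y := by
  funext i
  refine Fin.lastCases ?_ (fun j => ?_) i
  · rw [UPc_ext_last, Function.comp_apply, UPc_ext_last]
  · rw [UPc_ext_castSucc, Function.comp_apply, Function.comp_apply, UPc_ext_castSucc]

private theorem UPc_ext_inj {X : Type} {m : ℕ} (ι : Fin m → X) (hι : Function.Injective ι) (x : X)
    (hx : x ∉ Set.range ι) : Function.Injective (ext ι x) := by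
  intro i j
  refine Fin.lastCases ?_ (fun i' => ?_) i
  · refine Fin.lastCases ?_ (fun j' => ?_) j
    · intro _; rfl
    · rw [UPc_ext_last, UPc_ext_castSucc]
      intro h
      exact absurd ⟨j', h.symm⟩ hx
  · refine Fin.lastCases ?_ (fun j' => ?_) j
    · rw [UPc_ext_last, UPc_ext_castSucc]
      intro h
      exact absurd ⟨i', h⟩ hx
    · rw [UPc_ext_castSucc, UPc_ext_castSucc]
      intro h
      rw [hι h]

private theorem UPc_ext_comp_castSucc {X : Type} {m n : ℕ} (ι : Fin m → X) (x : X) (b : Fin n → Fin m) :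
    ext ι x ∘ (Fin.castSucc ∘ b) = ι ∘ b := by
  funext i
  exact UPc_ext_castSucc ι x (b i)

private theorem UPc_ext_new {X : Type} {m k : ℕ} (ι : Fin m → X) (x : X) (v : Fin k → Fin m) :
    ext (ι ∘ v) x = ext ι x ∘ ext (Fin.castSucc ∘ v) (Fin.last m) := by
  rw [← UPc_ext_comp, UPc_ext_last, UPc_ext_comp_castSucc]

private theorem UPc_atom_inj {X : Type} {m : ℕ} (ι : Fin m → X) (hι : Function.Injective ι)
    {a b : Atom ar (Fin m)} (h : (⟨a.1, ι ∘ a.2⟩ : Atom ar X) = ⟨b.1, ι ∘ b.2⟩) : a = b := by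
  obtain ⟨r, x⟩ := a
  obtain ⟨r', y⟩ := b
  injection h with h1 h2
  change r = r' at h1
  subst h1
  have h3 := eq_of_heq h2
  have h4 : x = y := funext fun i => hι (congrFun h3 i)
  rw [h4]

private theorem UPc_neg_atoms {X : Type} {m : ℕ} (ι : Fin m → X) (x : X) (γ : Atom ar (Fin m) → Bool) :
    ∀ l ∈ Neg ι γ, ∃ a : Atom ar (Fin (m + 1)), l.1 = ⟨a.1, ext ι x ∘ a.2⟩ := by
  rintro l ⟨a, rfl⟩
  refine ⟨⟨a.1, Fin.castSucc ∘ a.2⟩, ?_⟩
  change (⟨a.1, ι ∘ a.2⟩ : Atom ar X) = ⟨a.1, ext ι x ∘ (Fin.castSucc ∘ a.2)⟩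
  rw [UPc_ext_comp_castSucc]

private theorem UPc_neg_compl {X : Type} {m : ℕ} (ι : Fin m → X) (hι : Function.Injective ι)
    (γ : Atom ar (Fin m) → Bool) : ∀ l ∈ Neg ι γ, ng l ∉ Neg ι γ := by
  rintro l ⟨a, rfl⟩ ⟨b, hb⟩
  unfold ng at hb
  have h1 : (⟨a.1, ι ∘ a.2⟩ : Atom ar X) = ⟨b.1, ι ∘ b.2⟩ := congrArg Prod.fst hb
  have h2 : (!!γ a) = !γ b := congrArg Prod.snd hb
  have h3 := UPc_atom_inj ι hι h1
  subst h3
  cases hc : γ a <;> rw [hc] at h2 <;> exact absurd h2 (by decide)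

private theorem UPc_extends {X : Type} {m : ℕ} (ι : Fin m → X) (hι : Function.Injective ι) (x : X)
    (hx : x ∉ Set.range ι) (γ : Atom ar (Fin m) → Bool) (γ' : Atom ar (Fin (m + 1)) → Bool)
    (h : Neg ι γ ⊆ Neg (ext ι x) γ') : Extends γ γ' := by
  intro a
  obtain ⟨b, hb⟩ := h (⟨a, rfl⟩ : ((⟨a.1, ι ∘ a.2⟩ : Atom ar X), !γ a) ∈ Neg ι γ)
  have h1 : (⟨a.1, ι ∘ a.2⟩ : Atom ar X) = ⟨b.1, ext ι x ∘ b.2⟩ := congrArg Prod.fst hb
  have h2 : (!γ a) = !γ' b := congrArg Prod.snd hb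
  rw [← UPc_ext_comp_castSucc ι x a.2] at h1
  have h3 : (⟨a.1, Fin.castSucc ∘ a.2⟩ : Atom ar (Fin (m + 1))) = b :=
    UPc_atom_inj (ext ι x) (UPc_ext_inj ι hι x hx) h1
  rw [h3]
  cases hc : γ a <;> cases hd : γ' b <;> rw [hc, hd] at h2 <;> first | rfl | exact absurd h2 (by decide)

private theorem UPc_lit {m k : ℕ} (γ : Atom ar (Fin m) → Bool) (γ' : Atom ar (Fin (m + 1)) → Bool)
    (h : Extends γ γ') (l : FLit ar k) (v : Fin k → Fin m) (hl : l.Holds (fun a => γ a = true) v) :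
    l.Holds (fun a => γ' a = true) (Fin.castSucc ∘ v) := by
  cases l with
  | rel s r args =>
    have h1 : γ' ⟨r, (Fin.castSucc ∘ v) ∘ args⟩ = γ ⟨r, v ∘ args⟩ := h ⟨r, v ∘ args⟩
    change (γ' ⟨r, (Fin.castSucc ∘ v) ∘ args⟩ = true ↔ s = true)
    rw [h1]
    exact hl
  | eq s i j =>
    change ((Fin.castSucc (v i) : Fin (m + 1)) = Fin.castSucc (v j) ↔ s = true)
    rw [(Fin.castSucc_injective m).eq_iff]
    exact hl

private theorem UPc_sat {m : ℕ} (γ : Atom ar (Fin m) → Bool) (γ' : Atom ar (Fin (m + 1)) → Bool)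
    (h : Extends γ γ') (S : Schema ar) (v : Fin S.k → Fin m) (hs : SatAt S γ v) :
    SatAt S γ' (Fin.castSucc ∘ v) := by
  rcases hs with ⟨l, hl, hh⟩ | ⟨y, l, hl, hh⟩
  · exact Or.inl ⟨l, hl, UPc_lit γ γ' h l v hh⟩
  · refine Or.inr ⟨Fin.castSucc y, l, hl, ?_⟩
    rw [UPc_ext_comp]
    exact UPc_lit γ γ' h l (ext v y) hh

private theorem UPc_thin {X : Type} {m w : ℕ} (hm : m ≤ w) (ι : Fin m → X) (γ : Atom ar (Fin m) → Bool) :
    Thin w (Neg ι γ) := by
  classical
  refine ⟨Finset.univ.image ι, ?_, ?_⟩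
  · refine le_trans Finset.card_image_le ?_
    rw [Finset.card_univ, Fintype.card_fin]
    exact hm
  · rintro l ⟨a, rfl⟩ i
    exact Finset.mem_image_of_mem ι (Finset.mem_univ (a.2 i))

theorem step_zero (P : List (Schema ar)) (X : Type) [Finite R] [Finite X] (w m : ℕ) (hm : m + 1 ≤ w)
    (hX : m + 1 ≤ Nat.card X) (ι : Fin m → X) (hι : Function.Injective ι) (γ : Atom ar (Fin m) → Bool)
    (hγ : Neg ι γ ∉ Der P X w) :
    ∃ (ι' : Fin (m + 1) → X) (γ' : Atom ar (Fin (m + 1)) → Bool), Function.Injective ι' ∧ Extends γ γ' ∧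
      Neg ι' γ' ∉ Der P X w := by
  obtain ⟨x, hx⟩ := UPc_exists_new hX ι
  by_contra hcon
  apply hγ
  refine der_of_total P X w (m + 1) hm (ext ι x) (UPc_ext_inj ι hι x hx) (Neg ι γ) (UPc_neg_atoms ι x γ)
    (UPc_neg_compl ι hι γ) (fun γ' hγ' => ?_)
  by_contra hd
  exact hcon ⟨ext ι x, γ', UPc_ext_inj ι hι x hx, UPc_extends ι hι x hx γ γ' hγ', hd⟩

private theorem UPc_not_sat {γa s : Bool} (h : ¬ (γa = true ↔ s = true)) : s = !γa := by
  cases γa <;> cases s <;> simp_all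

theorem step_one (P : List (Schema ar)) (X : Type) [Finite R] [Finite X] (w m : ℕ) (hm : m + 1 ≤ w)
    (hX : m + 1 ≤ Nat.card X) (ι : Fin m → X) (hι : Function.Injective ι) (γ : Atom ar (Fin m) → Bool)
    (hγ : Neg ι γ ∉ Der P X w) (S : Schema ar) (hS : S ∈ P) (v : Fin S.k → Fin m) :
    ∃ (ι' : Fin (m + 1) → X) (γ' : Atom ar (Fin (m + 1)) → Bool), Function.Injective ι' ∧ Extends γ γ' ∧
      Neg ι' γ' ∉ Der P X w ∧ SatAt S γ' (Fin.castSucc ∘ v) := by
  by_contra hcon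
  have star : ∀ x, x ∉ Set.range ι → ∀ γ' : Atom ar (Fin (m + 1)) → Bool, Extends γ γ' →
      SatAt S γ' (Fin.castSucc ∘ v) → Neg (ext ι x) γ' ∈ Der P X w := by
    intro x hx γ' h1 h2
    by_contra h3
    exact hcon ⟨ext ι x, γ', UPc_ext_inj ι hι x hx, h1, h3, h2⟩
  by_cases h1 : SatAt S γ v ∨ ∃ s i j, FLit.eq s i j ∈ S.wid ∧
      (ext (Fin.castSucc ∘ v) (Fin.last m) i = ext (Fin.castSucc ∘ v) (Fin.last m) j ↔ s = true)
  · obtain ⟨x, hx⟩ := UPc_exists_new hX ι
    apply hγ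
    refine der_of_total P X w (m + 1) hm (ext ι x) (UPc_ext_inj ι hι x hx) (Neg ι γ)
      (UPc_neg_atoms ι x γ) (UPc_neg_compl ι hι γ) (fun γ' hγ' => ?_)
    have h2 := UPc_extends ι hι x hx γ γ' hγ'
    refine star x hx γ' h2 ?_
    rcases h1 with h1 | ⟨s, i, j, hw, hh⟩
    · exact UPc_sat γ γ' h2 S v h1
    · exact Or.inr ⟨Fin.last m, FLit.eq s i j, hw, hh⟩
  · have hns : ¬ SatAt S γ v := fun h => h1 (Or.inl h)
    have hne : ∀ s i j, FLit.eq s i j ∈ S.wid →
        ¬ (ext (Fin.castSucc ∘ v) (Fin.last m) i = ext (Fin.castSucc ∘ v) (Fin.last m) j ↔ s = true) :=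
      fun s i j hw hh => h1 (Or.inr ⟨s, i, j, hw, hh⟩)
    have hnt : ¬ S.Trivial (ι ∘ v) := by
      rintro (⟨s, i, j, hw, hh⟩ | ⟨y, s, i, j, hw, hh⟩)
      · refine hns (Or.inl ⟨FLit.eq s i j, hw, ?_⟩)
        change (v i = v j ↔ s = true)
        rw [← hι.eq_iff]
        exact hh
      · by_cases hy : y ∈ Set.range ι
        · obtain ⟨z, rfl⟩ := hy
          refine hns (Or.inr ⟨z, FLit.eq s i j, hw, ?_⟩)
          change (ext v z i = ext v z j ↔ s = true)
          rw [← hι.eq_iff]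
          rw [UPc_ext_comp] at hh
          exact hh
        · refine hne s i j hw ?_
          rw [UPc_ext_new] at hh
          rw [← (UPc_ext_inj ι hι y hy).eq_iff]
          exact hh
    have hB : S.clause (ι ∘ v) ∈ Der P X w := ⟨0, S, hS, ι ∘ v, hnt, rfl⟩
    apply hγ
    refine der_cut P X w (S.clause (ι ∘ v)) (Neg ι γ) (UPc_thin (by omega) ι γ) hB ?_
    intro l hl hlC
    rcases hl with ⟨s, r, args, hw, rfl⟩ | ⟨y, s, r, args, hw, rfl⟩
    · exfalso
      apply hlC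
      have h2 : ¬ (γ ⟨r, v ∘ args⟩ = true ↔ s = true) := fun hh =>
        hns (Or.inl ⟨FLit.rel s r args, hw, hh⟩)
      rw [UPc_not_sat h2]
      exact ⟨⟨r, v ∘ args⟩, rfl⟩
    · by_cases hy : y ∈ Set.range ι
      · obtain ⟨z, rfl⟩ := hy
        exfalso
        apply hlC
        have h2 : ¬ (γ ⟨r, ext v z ∘ args⟩ = true ↔ s = true) := fun hh =>
          hns (Or.inr ⟨z, FLit.rel s r args, hw, hh⟩)
        rw [UPc_not_sat h2, UPc_ext_comp]
        exact ⟨⟨r, ext v z ∘ args⟩, rfl⟩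
      · rw [UPc_ext_new] at hlC ⊢
        refine der_of_total P X w (m + 1) hm (ext ι y) (UPc_ext_inj ι hι y hy) _ ?_ ?_ ?_
        · intro l hl
          rcases Set.mem_insert_iff.1 hl with rfl | hl
          · exact ⟨⟨r, ext (Fin.castSucc ∘ v) (Fin.last m) ∘ args⟩, rfl⟩
          · exact UPc_neg_atoms ι y γ l hl
        · intro l hl hl2
          rcases Set.mem_insert_iff.1 hl with rfl | hl
          · rcases Set.mem_insert_iff.1 hl2 with hl2 | hl2
            · have h3 := congrArg Prod.snd hl2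
              unfold ng at h3
              change (!!s) = (!s) at h3
              cases s <;> exact absurd h3 (by decide)
            · rw [ng_ng] at hl2
              exact hlC hl2
          · rcases Set.mem_insert_iff.1 hl2 with hl2 | hl2
            · have h3 := congrArg ng hl2
              rw [ng_ng, ng_ng] at h3
              rw [h3] at hl
              exact hlC hl
            · exact UPc_neg_compl ι hι γ l hl hl2
        · intro γ' hγ'
          have h2 := UPc_extends ι hι y hy γ γ' (fun l hl => hγ' (Set.mem_insert_of_mem _ hl))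
          refine star y hy γ' h2 (Or.inr ⟨Fin.last m, FLit.rel s r args, hw, ?_⟩)
          obtain ⟨b, hb⟩ := hγ' (Set.mem_insert _ _)
          unfold ng at hb
          have h3 : (⟨r, ext ι y ∘ (ext (Fin.castSucc ∘ v) (Fin.last m) ∘ args)⟩ : Atom ar X) =
              ⟨b.1, ext ι y ∘ b.2⟩ := congrArg Prod.fst hb
          have h4 : (!s) = !γ' b := congrArg Prod.snd hb
          have h5 : (⟨r, ext (Fin.castSucc ∘ v) (Fin.last m) ∘ args⟩ : Atom ar (Fin (m + 1))) = b :=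
            UPc_atom_inj (ext ι y) (UPc_ext_inj ι hι y hy) h3
          change (γ' ⟨r, ext (Fin.castSucc ∘ v) (Fin.last m) ∘ args⟩ = true ↔ s = true)
          rw [h5]
          cases hc : γ' b <;> cases hs : s <;> rw [hc, hs] at h4 <;> exact absurd h4 (by decide)

end Pool.Agent.SymEF
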